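import Mathlib

/-!
# Finite loopless multigraphs, chromatic index, Steffen's bound, ring graphs
-/

namespace Pool.Agent.Lib.MP_7ce1ef_co

/-- A loopless multigraph with vertex type `V` and edge type `E`: every edge has an unordered pair
of ends, and no edge is a loop (parallel edges are allowed). -/
structure Multigraph (V E : Type) where
  ends : E → Sym2 V
  loopless : ∀ e, ¬ (ends e).IsDiag

namespace Multigraph

variable {V E κ : Type} (G : Multigraph V E)

/-- the underlying simple graph -/
def simple : SimpleGraph V where
  Adj u v := ∃ e, G.ends e = s(u, v)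
  symm := ⟨fun u v ⟨e, he⟩ => ⟨e, by rw [he, Sym2.eq_swap]⟩⟩
  loopless := ⟨fun u ⟨e, he⟩ => G.loopless e (by rw [he]; exact Sym2.diag_isDiag u)⟩

/-- the degree of a vertex, parallel edges counted with multiplicity -/
noncomputable def degree (v : V) : ℕ := Nat.card {e : E // v ∈ G.ends e}

/-- the maximum degree `Δ(G)` -/
noncomputable def maxDegree : ℕ := sSup (Set.range G.degree)

/-- the number of edges joining a given pair of vertices -/
noncomputable def mult (p : Sym2 V) : ℕ := Nat.card {e : E // G.ends e = p}

/-- the maximum multiplicity `μ(G)` -/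
noncomputable def maxMult : ℕ := sSup (Set.range G.mult)

/-- `c` is a proper edge colouring: two different edges sharing an end have different colours -/
def ProperColouring (c : E → κ) : Prop :=
  ∀ e f, e ≠ f → ∀ v, v ∈ G.ends e → v ∈ G.ends f → c e ≠ c f

/-- the chromatic index `χ'(G)` -/
noncomputable def chromIndex : ℕ := sInf {n : ℕ | ∃ c : E → Fin n, G.ProperColouring c}

/-- the girth: the least length (at least 3) of a cycle of the underlying simple graph -/
noncomputable def girth : ℕ := G.simple.girth

/-- `G` attains Steffen's bound: `χ'(G) = Δ(G) + ⌈μ(G) / ⌊g(G) / 2⌋⌉` -/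
def AttainsSteffen : Prop :=
  G.chromIndex = G.maxDegree + ⌈(G.maxMult : ℚ) / ((G.girth / 2 : ℕ) : ℚ)⌉₊

/-- the subgraph with edge set `F` -/
def sub (F : Set E) : Multigraph V F where
  ends e := G.ends e
  loopless e := G.loopless e

/-- the edges of `G` form a ring graph of order `g`: the underlying simple graph (without its
isolated vertices) is a cycle on `g` vertices -/
def IsRing (g : ℕ) : Prop :=
  ∃ f : Fin g ↪ V, G.simple = (SimpleGraph.cycleGraph g).map f

/-- `G` has a subgraph `R` which is a ring graph of order `g` with `χ'(R) = χ'(G)` -/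
def HasRingSubgraph (g : ℕ) : Prop :=
  ∃ F : Set E, (G.sub F).IsRing g ∧ (G.sub F).chromIndex = G.chromIndex

end Multigraph

end Pool.Agent.Lib.MP_7ce1ef_co
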