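import Mathlib

/-!
# Counting vertices in a graph of large girth
-/

namespace Pool.Agent.Lib.MP_7ce1ef_co

open SimpleGraph

variable {V : Type} {Γ : SimpleGraph V}

/-- two distinct paths with the same ends give a short cycle -/
theorem exists_cycle_of_paths {u w : V} (p q : Γ.Walk u w) (hp : p.IsPath) (hq : q.IsPath)
    (hpq : p ≠ q) : ∃ (v : V) (c : Γ.Walk v v), c.IsCycle ∧ c.length ≤ p.length + q.length := by
  classical
  let S : Set (Sym2 V) := {e | e ∈ p.edges ∨ e ∈ q.edges}
  let H : SimpleGraph V := SimpleGraph.fromEdgeSet S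
  have hHΓ : H ≤ Γ := by
    intro a b hab
    rw [SimpleGraph.fromEdgeSet_adj] at hab
    rcases hab.1 with h | h
    · exact p.adj_of_mem_edges h
    · exact q.adj_of_mem_edges h
  have hmem : ∀ e, e ∈ p.edges ∨ e ∈ q.edges → e ∈ H.edgeSet := by
    intro e he
    rw [SimpleGraph.edgeSet_fromEdgeSet]
    refine ⟨he, fun hd => ?_⟩
    have hΓ : e ∈ Γ.edgeSet := by
      rcases he with h | h
      · exact p.edges_subset_edgeSet h
      · exact q.edges_subset_edgeSet h
    exact Γ.not_isDiag_of_mem_edgeSet hΓ hd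
  let p' := p.transfer H (fun e he => hmem e (Or.inl he))
  let q' := q.transfer H (fun e he => hmem e (Or.inr he))
  have hp' : p'.IsPath := hp.transfer _
  have hq' : q'.IsPath := hq.transfer _
  have hne : p' ≠ q' := by
    intro h
    apply hpq
    apply SimpleGraph.Walk.ext_support
    rw [← SimpleGraph.Walk.support_transfer p (H := H) (fun e he => hmem e (Or.inl he)),
      ← SimpleGraph.Walk.support_transfer q (H := H) (fun e he => hmem e (Or.inr he))]
    exact congrArg _ h
  have hnot : ¬ H.IsAcyclic := by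
    intro hac
    have := (hac.subsingleton_path u w).elim ⟨p', hp'⟩ ⟨q', hq'⟩
    exact hne (congrArg Subtype.val this)
  unfold SimpleGraph.IsAcyclic at hnot
  push Not at hnot
  obtain ⟨v, c, hc⟩ := hnot
  refine ⟨v, c.mapLe hHΓ, ?_, ?_⟩
  · exact (SimpleGraph.Walk.isCycle_mapLe hHΓ).2 hc
  · have h1 : (c.mapLe hHΓ).length = c.length := by
      simp [SimpleGraph.Walk.mapLe]
    rw [h1, ← SimpleGraph.Walk.length_edges, ← SimpleGraph.Walk.length_edges p,
      ← SimpleGraph.Walk.length_edges q]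
    have hnd : c.edges.Nodup := hc.edges_nodup
    rw [← List.toFinset_card_of_nodup hnd]
    calc c.edges.toFinset.card ≤ (p.edges.toFinset ∪ q.edges.toFinset).card := by
          apply Finset.card_le_card
          intro e he
          rw [List.mem_toFinset] at he
          have := c.edges_subset_edgeSet he
          rw [SimpleGraph.edgeSet_fromEdgeSet] at this
          rw [Finset.mem_union, List.mem_toFinset, List.mem_toFinset]
          exact this.1
      _ ≤ p.edges.toFinset.card + q.edges.toFinset.card := Finset.card_union_le _ _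
      _ ≤ _ := Nat.add_le_add (List.toFinset_card_le _) (List.toFinset_card_le _)

/-- the girth condition used below: all cycles have length more than `2 * s` -/
def GirthGT (Γ : SimpleGraph V) (s : ℕ) : Prop :=
  ∀ (v : V) (c : Γ.Walk v v), c.IsCycle → 2 * s < c.length

theorem GirthGT.path_unique {s : ℕ} (hg : GirthGT Γ s) {u w : V} {p q : Γ.Walk u w}
    (hp : p.IsPath) (hq : q.IsPath) (hl : p.length + q.length ≤ 2 * s) : p = q := by
  by_contra hne
  obtain ⟨v, c, hc, hcl⟩ := exists_cycle_of_paths p q hp hq hne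
  have := hg v c hc
  omega

/-- extending a short path by an edge different from the last one gives a path -/
theorem GirthGT.concat_isPath {s : ℕ} (hg : GirthGT Γ s) {u w x : V} {p : Γ.Walk u w}
    (hp : p.IsPath) (h : Γ.Adj w x) (hx : x ≠ p.penultimate)
    (hl : p.length + 1 ≤ 2 * s) : (p.concat h).IsPath := by
  classical
  rw [SimpleGraph.Walk.concat_isPath_iff]
  refine ⟨hp, fun hmem => ?_⟩
  -- the part of `p` from `x` to `w` is a path, and so is the single edge
  have h1 : (p.dropUntil x hmem).IsPath := hp.dropUntil hmem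
  have h2 : (SimpleGraph.Walk.cons h.symm SimpleGraph.Walk.nil).IsPath := by
    rw [SimpleGraph.Walk.cons_isPath_iff]
    refine ⟨SimpleGraph.Walk.IsPath.nil, ?_⟩
    simp only [SimpleGraph.Walk.support_nil, List.mem_singleton]
    exact h.ne'
  have h3 : (p.dropUntil x hmem).length ≤ p.length := SimpleGraph.Walk.length_dropUntil_le_length p hmem
  have h4 := hg.path_unique h1 h2 (by
    simp only [SimpleGraph.Walk.length_cons, SimpleGraph.Walk.length_nil]; omega)
  -- hence `x` is the penultimate vertex of `p`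
  have h5 := p.take_spec hmem
  apply hx
  rw [← h5, h4]
  unfold SimpleGraph.Walk.penultimate
  rw [SimpleGraph.Walk.length_append, SimpleGraph.Walk.length_cons, SimpleGraph.Walk.length_nil,
    SimpleGraph.Walk.getVert_append]
  simp

/-- there is a path of length `j` starting with the edge `v a` and ending in `w` -/
def Reach (Γ : SimpleGraph V) (v a : V) (j : ℕ) (w : V) : Prop :=
  ∃ p : Γ.Walk v w, p.IsPath ∧ p.length = j ∧ p.getVert 1 = a

theorem Reach.unique {s : ℕ} (hg : GirthGT Γ s) {v a a' w : V} {j j' : ℕ}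
    (h : Reach Γ v a j w) (h' : Reach Γ v a' j' w) (hj : j ≤ s) (hj' : j' ≤ s) :
    a = a' ∧ j = j' := by
  obtain ⟨p, hp, hpl, hpa⟩ := h
  obtain ⟨q, hq, hql, hqa⟩ := h'
  have := hg.path_unique hp hq (by omega)
  subst this
  exact ⟨hpa.symm.trans hqa, hpl.symm.trans hql⟩

theorem Reach.ne {v a w : V} {j : ℕ} (h : Reach Γ v a j w) (hj : 1 ≤ j) : w ≠ v := by
  rintro rfl
  obtain ⟨p, hp, hpl, _⟩ := h
  have := (SimpleGraph.Walk.isPath_iff_nil).1 hp
  rw [← SimpleGraph.Walk.length_eq_zero_iff] at this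
  omega

theorem Reach.one {v a : V} (h : Γ.Adj v a) : Reach Γ v a 1 a := by
  refine ⟨SimpleGraph.Walk.cons h SimpleGraph.Walk.nil, ?_, rfl, rfl⟩
  rw [SimpleGraph.Walk.cons_isPath_iff]
  refine ⟨SimpleGraph.Walk.IsPath.nil, ?_⟩
  simp only [SimpleGraph.Walk.support_nil, List.mem_singleton]
  exact h.ne

/-- the last vertex of a nontrivial path has a neighbour on the path; every other neighbour
extends the path -/
theorem Reach.extend {s : ℕ} (hg : GirthGT Γ s) {v a w : V} {j : ℕ} (h : Reach Γ v a j w)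
    (hj : 1 ≤ j) (hjs : j + 1 ≤ 2 * s) :
    ∃ u, Γ.Adj w u ∧ ∀ x, x ≠ u → Γ.Adj w x → Reach Γ v a (j + 1) x := by
  obtain ⟨p, hp, hpl, hpa⟩ := h
  have hnil : ¬ p.Nil := by
    rw [← SimpleGraph.Walk.length_eq_zero_iff]; omega
  refine ⟨p.penultimate, (SimpleGraph.Walk.adj_penultimate hnil).symm, fun x hx hwx => ?_⟩
  refine ⟨p.concat hwx, hg.concat_isPath hp hwx hx (by omega), ?_, ?_⟩
  · rw [SimpleGraph.Walk.length_concat, hpl]
  · rw [SimpleGraph.Walk.concat_eq_append, SimpleGraph.Walk.getVert_append]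
    split_ifs with h1
    · exact hpa
    · have h2 : p.length = 1 := by omega
      rw [h2, Nat.sub_self, SimpleGraph.Walk.getVert_zero, ← hpa, ← h2,
        SimpleGraph.Walk.getVert_length]

theorem Reach.adj {v a w : V} {j : ℕ} (h : Reach Γ v a j w) (hj : 1 ≤ j) : ∃ u, Γ.Adj w u := by
  obtain ⟨p, hp, hpl, hpa⟩ := h
  have hnil : ¬ p.Nil := by
    rw [← SimpleGraph.Walk.length_eq_zero_iff]; omega
  exact ⟨p.penultimate, (SimpleGraph.Walk.adj_penultimate hnil).symm⟩

theorem exists_reach {s : ℕ} (hg : GirthGT Γ s)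
    (h2 : ∀ w u, Γ.Adj w u → ∃ x, x ≠ u ∧ Γ.Adj w x) {v a : V} (ha : Γ.Adj v a) :
    ∀ j, 1 ≤ j → j ≤ 2 * s → ∃ w, Reach Γ v a j w := by
  intro j hj
  induction j, hj using Nat.le_induction with
  | base => intro _; exact ⟨a, Reach.one ha⟩
  | succ j hj ih =>
    intro hjs
    obtain ⟨w, hw⟩ := ih (by omega)
    obtain ⟨u, hwu, hext⟩ := hw.extend hg hj hjs
    obtain ⟨x, hxu, hwx⟩ := h2 w u hwu
    exact ⟨x, hext x hxu hwx⟩

open Classical in
/-- counting with minimum degree two -/
theorem card_ge_two {s : ℕ} (hg : GirthGT Γ s)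
    (h2 : ∀ w u, Γ.Adj w u → ∃ x, x ≠ u ∧ Γ.Adj w x) (X : Finset V)
    (hX : ∀ w u, Γ.Adj w u → w ∈ X) {v : V} (hv : v ∈ X) (N : Finset V)
    (hN : ∀ a ∈ N, Γ.Adj v a) : N.card * s + 1 ≤ X.card := by
  have hex : ∀ a ∈ N, ∀ j, 1 ≤ j → j ≤ s → ∃ w, Reach Γ v a j w :=
    fun a ha j h1 h2' => exists_reach hg h2 (hN a ha) j h1 (by omega)
  have : Nonempty V := ⟨v⟩
  choose! W hW using hex
  have hcard : (N ×ˢ Finset.Icc 1 s).card ≤ (X.erase v).card := by
    refine Finset.card_le_card_of_injOn (fun t => W t.1 t.2) ?_ ?_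
    · rintro ⟨a, j⟩ ht
      rw [Finset.mem_coe, Finset.mem_product, Finset.mem_Icc] at ht
      have hr := hW a ht.1 j ht.2.1 ht.2.2
      rw [Finset.mem_coe, Finset.mem_erase]
      obtain ⟨u, hu⟩ := hr.adj ht.2.1
      exact ⟨hr.ne ht.2.1, hX _ u hu⟩
    · rintro ⟨a, j⟩ ht ⟨a', j'⟩ ht' hh
      rw [Finset.mem_coe, Finset.mem_product, Finset.mem_Icc] at ht ht'
      have hr := hW a ht.1 j ht.2.1 ht.2.2
      have hr' := hW a' ht'.1 j' ht'.2.1 ht'.2.2
      dsimp only at hh
      rw [← hh] at hr'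
      have := hr.unique hg hr' ht.2.2 ht'.2.2
      exact Prod.ext this.1 this.2
  rw [Finset.card_product, Nat.card_Icc, Finset.card_erase_of_mem hv] at hcard
  have : 0 < X.card := Finset.card_pos.2 ⟨v, hv⟩
  have h5 : s + 1 - 1 = s := by omega
  rw [h5] at hcard
  omega

open Classical in
/-- counting with minimum degree three -/
theorem card_ge_three {s : ℕ} (hs : 1 ≤ s) (hg : GirthGT Γ s)
    (h3 : ∀ w u, Γ.Adj w u → ∃ x x', x ≠ x' ∧ x ≠ u ∧ x' ≠ u ∧ Γ.Adj w x ∧ Γ.Adj w x')
    (X : Finset V) (hX : ∀ w u, Γ.Adj w u → w ∈ X) {v : V} (hv : v ∈ X) (N : Finset V)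
    (hN : ∀ a ∈ N, Γ.Adj v a) : N.card * (2 * s - 1) + 1 ≤ X.card := by
  have h2 : ∀ w u, Γ.Adj w u → ∃ x, x ≠ u ∧ Γ.Adj w x := by
    intro w u h
    obtain ⟨x, _, _, hxu, _, hwx, _⟩ := h3 w u h
    exact ⟨x, hxu, hwx⟩
  have hex : ∀ a ∈ N, ∀ j, 1 ≤ j → j ≤ s →
      ∃ w : V × V, Reach Γ v a j w.1 ∧ (2 ≤ j → Reach Γ v a j w.2 ∧ w.1 ≠ w.2) := by
    intro a ha j h1 h2'
    by_cases hj1 : j = 1
    · subst hj1
      exact ⟨(a, a), Reach.one (hN a ha), fun h => by omega⟩
    · obtain ⟨w, hw⟩ := exists_reach hg h2 (hN a ha) (j - 1) (by omega) (by omega)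
      obtain ⟨u, hwu, hext⟩ := hw.extend hg (by omega) (by omega)
      obtain ⟨x, x', hxx', hxu, hxu', hwx, hwx'⟩ := h3 w u hwu
      have hj' : j - 1 + 1 = j := by omega
      rw [hj'] at hext
      exact ⟨(x, x'), hext x hxu hwx, fun _ => ⟨hext x' hxu' hwx', hxx'⟩⟩
  have : Nonempty V := ⟨v⟩
  choose! W hW using hex
  let T : Finset (ℕ × Bool) :=
    (Finset.Icc 1 s).image (fun j => (j, true)) ∪ (Finset.Icc 2 s).image (fun j => (j, false))
  have hTcard : T.card = 2 * s - 1 := by
    rw [Finset.card_union_of_disjoint, Finset.card_image_of_injective, Finset.card_image_of_injective,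
      Nat.card_Icc, Nat.card_Icc]
    · omega
    · intro i j h; exact congrArg Prod.fst h
    · intro i j h; exact congrArg Prod.fst h
    · rw [Finset.disjoint_left]
      rintro ⟨j, b⟩ h1 h2
      rw [Finset.mem_image] at h1 h2
      obtain ⟨_, _, h1⟩ := h1
      obtain ⟨_, _, h2⟩ := h2
      have e1 := congrArg Prod.snd h1
      have e2 := congrArg Prod.snd h2
      simp only at e1 e2
      rw [← e1] at e2
      exact Bool.noConfusion e2
  have hTmem : ∀ j b, (j, b) ∈ T → 1 ≤ j ∧ j ≤ s ∧ (b = false → 2 ≤ j) := by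
    intro j b h
    rw [Finset.mem_union, Finset.mem_image, Finset.mem_image] at h
    rcases h with ⟨i, hi, h⟩ | ⟨i, hi, h⟩
    · rw [Finset.mem_Icc] at hi
      have e1 := congrArg Prod.fst h
      have e2 := congrArg Prod.snd h
      simp only at e1 e2
      subst e1
      exact ⟨hi.1, hi.2, fun h => by rw [h] at e2; exact Bool.noConfusion e2⟩
    · rw [Finset.mem_Icc] at hi
      have e1 := congrArg Prod.fst h
      simp only at e1
      subst e1
      exact ⟨by omega, hi.2, fun _ => hi.1⟩
  have hcard : (N ×ˢ T).card ≤ (X.erase v).card := by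
    refine Finset.card_le_card_of_injOn
      (fun t => if t.2.2 = true then (W t.1 t.2.1).1 else (W t.1 t.2.1).2) ?_ ?_
    · rintro ⟨a, j, b⟩ ht
      rw [Finset.mem_coe, Finset.mem_product] at ht
      obtain ⟨h1, hjs, hb⟩ := hTmem j b ht.2
      obtain ⟨hr1, hr2⟩ := hW a ht.1 j h1 hjs
      rw [Finset.mem_coe, Finset.mem_erase]
      cases b with
      | true =>
        simp only [if_true]
        obtain ⟨u, hu⟩ := hr1.adj h1
        exact ⟨hr1.ne h1, hX _ u hu⟩
      | false =>
        simp only [Bool.false_eq_true, if_false]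
        have hr2' := (hr2 (hb rfl)).1
        obtain ⟨u, hu⟩ := hr2'.adj h1
        exact ⟨hr2'.ne h1, hX _ u hu⟩
    · rintro ⟨a, j, b⟩ ht ⟨a', j', b'⟩ ht' hh
      rw [Finset.mem_coe, Finset.mem_product] at ht ht'
      obtain ⟨h1, hjs, hb⟩ := hTmem j b ht.2
      obtain ⟨h1', hjs', hb'⟩ := hTmem j' b' ht'.2
      obtain ⟨hr1, hr2⟩ := hW a ht.1 j h1 hjs
      obtain ⟨hr1', hr2'⟩ := hW a' ht'.1 j' h1' hjs'
      dsimp only at hh
      cases b with
      | true =>
        cases b' with
        | true =>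
          simp only [if_true] at hh
          rw [← hh] at hr1'
          have := hr1.unique hg hr1' hjs hjs'
          rw [this.1, this.2]
        | false =>
          simp only [if_true, Bool.false_eq_true, if_false] at hh
          have hr2'' := (hr2' (hb' rfl)).1
          rw [← hh] at hr2''
          have := hr1.unique hg hr2'' hjs hjs'
          rw [← this.1, ← this.2] at hh
          exact absurd hh (hr2 (by have := this.2; have := hb' rfl; omega)).2
      | false =>
        cases b' with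
        | true =>
          simp only [if_true, Bool.false_eq_true, if_false] at hh
          have hr2'' := (hr2 (hb rfl)).1
          rw [hh] at hr2''
          have := hr1'.unique hg hr2'' hjs' hjs
          rw [← this.1, ← this.2] at hh
          exact absurd hh.symm (hr2' (by have := this.2; have := hb rfl; omega)).2
        | false =>
          simp only [Bool.false_eq_true, if_false] at hh
          have hr := (hr2 (hb rfl)).1
          have hr' := (hr2' (hb' rfl)).1
          rw [← hh] at hr'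
          have := hr.unique hg hr' hjs hjs'
          rw [this.1, this.2]
  rw [Finset.card_product, hTcard, Finset.card_erase_of_mem hv] at hcard
  have : 0 < X.card := Finset.card_pos.2 ⟨v, hv⟩
  omega

end Pool.Agent.Lib.MP_7ce1ef_co
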