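import Mathlib
import Pool.Agent.Lib.MP_7ce1ef_co.Defs

/-!
# Multigraphs, edge colourings with one uncoloured edge, Kempe changes
-/

namespace Pool.Agent.Lib.MP_7ce1ef_co

namespace Multigraph

variable {V E κ : Type} (G : Multigraph V E)

theorem simple_adj {u v : V} : G.simple.Adj u v ↔ ∃ e, G.ends e = s(u, v) := Iff.rfl

theorem ne_of_ends {e : E} {u v : V} (h : G.ends e = s(u, v)) : u ≠ v := by
  rintro rfl
  exact G.loopless e (by rw [h]; exact Sym2.diag_isDiag u)

theorem mem_ends_left {e : E} {u v : V} (h : G.ends e = s(u, v)) : u ∈ G.ends e := by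
  rw [h]; exact Sym2.mem_mk_left u v

theorem mem_ends_right {e : E} {u v : V} (h : G.ends e = s(u, v)) : v ∈ G.ends e := by
  rw [h]; exact Sym2.mem_mk_right u v

/-- `c` is a proper colouring of all edges other than `e0`. -/
def Proper (e0 : E) (c : E → κ) : Prop :=
  ∀ e f, e ≠ e0 → f ≠ e0 → e ≠ f → ∀ v, v ∈ G.ends e → v ∈ G.ends f → c e ≠ c f

/-- colour `a` is missing at `v`. -/
def Miss (e0 : E) (c : E → κ) (v : V) (a : κ) : Prop :=
  ∀ e, e ≠ e0 → v ∈ G.ends e → c e ≠ a

/-- `K` is closed under edges coloured `a` or `b`. -/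
def KClosed (e0 : E) (c : E → κ) (a b : κ) (K : Set V) : Prop :=
  ∀ e, e ≠ e0 → (c e = a ∨ c e = b) → ∀ u v, G.ends e = s(u, v) → (u ∈ K → v ∈ K)

theorem KClosed.iff {G : Multigraph V E} {e0 : E} {c : E → κ} {a b : κ} {K : Set V}
    (h : G.KClosed e0 c a b K) {e : E} (he : e ≠ e0) (hc : c e = a ∨ c e = b) {u v : V}
    (hu : u ∈ G.ends e) (hv : v ∈ G.ends e) : (u ∈ K ↔ v ∈ K) := by
  by_cases huv : u = v
  · rw [huv]
  · have h1 : G.ends e = s(u, v) := by
      exact (Sym2.mem_and_mem_iff huv).1 ⟨hu, hv⟩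
    exact ⟨h e he hc u v h1, h e he hc v u (by rw [h1, Sym2.eq_swap])⟩

open Classical in
/-- exchange the colours `a`, `b` on the edges with an end in `K`. -/
noncomputable def swapCol (c : E → κ) (a b : κ) (K : Set V) (e : E) : κ :=
  if ∃ v ∈ K, v ∈ G.ends e then Equiv.swap a b (c e) else c e

open Classical in
theorem swapCol_eq_of_mem {c : E → κ} {a b : κ} {K : Set V}
    {e : E} {v : V} (hv : v ∈ G.ends e) (hK : v ∈ K) :
    G.swapCol c a b K e = Equiv.swap a b (c e) := by
  unfold swapCol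
  rw [if_pos ⟨v, hK, hv⟩]

theorem swapCol_eq_of_not_mem {e0 : E} {c : E → κ} {a b : κ} {K : Set V}
    (h : G.KClosed e0 c a b K) {e : E} (he : e ≠ e0) {v : V} (hv : v ∈ G.ends e)
    (hK : v ∉ K) : G.swapCol c a b K e = c e := by
  classical
  unfold swapCol
  split_ifs with hw
  · obtain ⟨w, hwK, hwe⟩ := hw
    by_cases hc : c e = a ∨ c e = b
    · exact absurd ((h.iff he hc hwe hv).1 hwK) hK
    · push Not at hc
      exact Equiv.swap_apply_of_ne_of_ne hc.1 hc.2
  · rfl

theorem swapCol_eq_of_ne {c : E → κ} {a b : κ} {K : Set V} {e : E}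
    (ha : c e ≠ a) (hb : c e ≠ b) : G.swapCol c a b K e = c e := by
  classical
  unfold swapCol
  split_ifs with hw
  · exact Equiv.swap_apply_of_ne_of_ne ha hb
  · rfl

theorem swapCol_in {c : E → κ} {a b : κ} {K : Set V} {e : E}
    (h : c e = a ∨ c e = b) : G.swapCol c a b K e = a ∨ G.swapCol c a b K e = b := by
  classical
  unfold swapCol
  split_ifs with hw
  · rcases h with h | h
    · right; rw [h]; exact Equiv.swap_apply_left a b
    · left; rw [h]; exact Equiv.swap_apply_right a b
  · exact h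

theorem swapCol_proper {e0 : E} {c : E → κ} {a b : κ} {K : Set V}
    (hc : G.Proper e0 c) (h : G.KClosed e0 c a b K) : G.Proper e0 (G.swapCol c a b K) := by
  classical
  intro e f he hf hef v hve hvf
  by_cases hK : v ∈ K
  · rw [swapCol_eq_of_mem G hve hK, swapCol_eq_of_mem G hvf hK]
    exact fun hh => hc e f he hf hef v hve hvf ((Equiv.swap a b).injective hh)
  · rw [swapCol_eq_of_not_mem G h he hve hK, swapCol_eq_of_not_mem G h hf hvf hK]
    exact hc e f he hf hef v hve hvf

theorem miss_swap_not_mem {e0 : E} {c : E → κ} {a b : κ} {K : Set V}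
    (h : G.KClosed e0 c a b K) {v : V} (hK : v ∉ K) {x : κ} :
    G.Miss e0 (G.swapCol c a b K) v x ↔ G.Miss e0 c v x := by
  constructor
  · intro hm e he hv
    have := hm e he hv
    rwa [swapCol_eq_of_not_mem G h he hv hK] at this
  · intro hm e he hv
    rw [swapCol_eq_of_not_mem G h he hv hK]
    exact hm e he hv

open Classical in
theorem miss_swap_mem {e0 : E} {c : E → κ} {a b : κ} {K : Set V} {v : V} (hK : v ∈ K) {x : κ} :
    G.Miss e0 (G.swapCol c a b K) v x ↔ G.Miss e0 c v (Equiv.swap a b x) := by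
  constructor
  · intro hm e he hv hh
    apply hm e he hv
    rw [swapCol_eq_of_mem G hv hK, hh, Equiv.swap_apply_self]
  · intro hm e he hv hh
    apply hm e he hv
    rw [swapCol_eq_of_mem G hv hK] at hh
    rw [← hh, Equiv.swap_apply_self]

theorem miss_swap_left {e0 : E} {c : E → κ} {a b : κ} {K : Set V} {v : V} (hK : v ∈ K)
    (h : G.Miss e0 c v b) : G.Miss e0 (G.swapCol c a b K) v a := by
  classical
  rw [miss_swap_mem G hK, Equiv.swap_apply_left]; exact h

theorem miss_swap_right {e0 : E} {c : E → κ} {a b : κ} {K : Set V} {v : V} (hK : v ∈ K)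
    (h : G.Miss e0 c v a) : G.Miss e0 (G.swapCol c a b K) v b := by
  classical
  rw [miss_swap_mem G hK, Equiv.swap_apply_right]; exact h

theorem miss_swap_ne {e0 : E} {c : E → κ} {a b : κ} {K : Set V}
    (h : G.KClosed e0 c a b K) {v : V} {x : κ} (ha : x ≠ a) (hb : x ≠ b) :
    G.Miss e0 (G.swapCol c a b K) v x ↔ G.Miss e0 c v x := by
  classical
  by_cases hK : v ∈ K
  · rw [miss_swap_mem G hK, Equiv.swap_apply_of_ne_of_ne ha hb]
  · exact miss_swap_not_mem G h hK

/-! ### Kempe components -/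

/-- the graph formed by the edges coloured `a` or `b` -/
def KG (e0 : E) (c : E → κ) (a b : κ) : SimpleGraph V where
  Adj u v := ∃ e, e ≠ e0 ∧ (c e = a ∨ c e = b) ∧ G.ends e = s(u, v)
  symm := ⟨fun u v ⟨e, h1, h2, h3⟩ => ⟨e, h1, h2, by rw [h3, Sym2.eq_swap]⟩⟩
  loopless := ⟨fun u ⟨e, _, _, he⟩ => G.loopless e (by rw [he]; exact Sym2.diag_isDiag u)⟩

/-- the Kempe component of `v` -/
def comp (e0 : E) (c : E → κ) (a b : κ) (v : V) : Set V := {w | (G.KG e0 c a b).Reachable v w}

theorem mem_comp_self (e0 : E) (c : E → κ) (a b : κ) (v : V) : v ∈ G.comp e0 c a b v :=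
  SimpleGraph.Reachable.refl v

theorem comp_closed (e0 : E) (c : E → κ) (a b : κ) (v : V) :
    G.KClosed e0 c a b (G.comp e0 c a b v) := by
  intro e he hc u w hends hu
  have hadj : (G.KG e0 c a b).Adj u w := ⟨e, he, hc, hends⟩
  exact SimpleGraph.Reachable.trans hu hadj.reachable

theorem KG_symm_col (e0 : E) (c : E → κ) (a b : κ) : G.KG e0 c a b = G.KG e0 c b a := by
  ext u v
  constructor <;> rintro ⟨e, h1, h2, h3⟩ <;> exact ⟨e, h1, h2.symm, h3⟩

/-- a vertex missing `a` has at most one neighbour in the `a/b` graph -/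
theorem KG_nbr_unique {e0 : E} {c : E → κ} {a b : κ} (hc : G.Proper e0 c) {v : V}
    (hm : G.Miss e0 c v a ∨ G.Miss e0 c v b) {x y : V}
    (hx : (G.KG e0 c a b).Adj v x) (hy : (G.KG e0 c a b).Adj v y) : x = y := by
  obtain ⟨e, he, hce, hex⟩ := hx
  obtain ⟨f, hf, hcf, hfy⟩ := hy
  have hve : v ∈ G.ends e := G.mem_ends_left hex
  have hvf : v ∈ G.ends f := G.mem_ends_left hfy
  have hcol : c e = c f := by
    rcases hm with hm | hm
    · rw [hce.resolve_left (hm e he hve), hcf.resolve_left (hm f hf hvf)]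
    · rw [hce.resolve_right (hm e he hve), hcf.resolve_right (hm f hf hvf)]
  have hef : e = f := by
    by_contra hne
    exact hc e f he hf hne v hve hvf hcol
  subst hef
  rw [hex] at hfy
  exact Sym2.congr_right.1 hfy

/-- three distinct neighbours are impossible in the `a/b` graph -/
theorem KG_three {e0 : E} {c : E → κ} {a b : κ} (hc : G.Proper e0 c) {v : V} {x y z : V}
    (hx : (G.KG e0 c a b).Adj v x) (hy : (G.KG e0 c a b).Adj v y)
    (hz : (G.KG e0 c a b).Adj v z) : x = y ∨ x = z ∨ y = z := by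
  obtain ⟨e, he, hce, hex⟩ := hx
  obtain ⟨f, hf, hcf, hfy⟩ := hy
  obtain ⟨g, hg, hcg, hgz⟩ := hz
  have hve : v ∈ G.ends e := G.mem_ends_left hex
  have hvf : v ∈ G.ends f := G.mem_ends_left hfy
  have hvg : v ∈ G.ends g := G.mem_ends_left hgz
  have key : ∀ {e f : E} {x y : V}, e ≠ e0 → f ≠ e0 → v ∈ G.ends e → v ∈ G.ends f →
      c e = c f → G.ends e = s(v, x) → G.ends f = s(v, y) → x = y := by
    intro e f x y he hf hve hvf hcol hex hfy
    have hef : e = f := by
      by_contra hne
      exact hc e f he hf hne v hve hvf hcol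
    subst hef
    rw [hex] at hfy
    exact Sym2.congr_right.1 hfy
  rcases hce with h1 | h1 <;> rcases hcf with h2 | h2 <;> rcases hcg with h3 | h3
  · exact Or.inl (key he hf hve hvf (h1.trans h2.symm) hex hfy)
  · exact Or.inl (key he hf hve hvf (h1.trans h2.symm) hex hfy)
  · exact Or.inr (Or.inl (key he hg hve hvg (h1.trans h3.symm) hex hgz))
  · exact Or.inr (Or.inr (key hf hg hvf hvg (h2.trans h3.symm) hfy hgz))
  · exact Or.inr (Or.inr (key hf hg hvf hvg (h2.trans h3.symm) hfy hgz))
  · exact Or.inr (Or.inl (key he hg hve hvg (h1.trans h3.symm) hex hgz))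
  · exact Or.inl (key he hf hve hvf (h1.trans h2.symm) hex hfy)
  · exact Or.inl (key he hf hve hvf (h1.trans h2.symm) hex hfy)

end Multigraph

/-- In a finite graph of maximum degree at most two, a connected component does not contain three
vertices of degree at most one. -/
theorem no_three_endpoints {V : Type} [Finite V] (Γ : SimpleGraph V)
    (h2 : ∀ v x y z, Γ.Adj v x → Γ.Adj v y → Γ.Adj v z → x = y ∨ x = z ∨ y = z)
    {u v w : V} (huv : u ≠ v) (huw : u ≠ w) (hvw : v ≠ w)
    (hu : ∀ x y, Γ.Adj u x → Γ.Adj u y → x = y)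
    (hv : ∀ x y, Γ.Adj v x → Γ.Adj v y → x = y)
    (hw : ∀ x y, Γ.Adj w x → Γ.Adj w y → x = y)
    (h1 : Γ.Reachable u v) (h3 : Γ.Reachable u w) : False := by
  classical
  let C := Γ.connectedComponentMk u
  have hu' : u ∈ C.supp := rfl
  have hv' : v ∈ C.supp := by
    rw [SimpleGraph.ConnectedComponent.mem_supp_iff]
    exact SimpleGraph.ConnectedComponent.sound h1.symm
  have hw' : w ∈ C.supp := by
    rw [SimpleGraph.ConnectedComponent.mem_supp_iff]
    exact SimpleGraph.ConnectedComponent.sound h3.symm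
  let H : SimpleGraph C.supp := Γ.induce C.supp
  have hconn : H.Connected := C.connected_toSimpleGraph
  have hfin : Fintype C.supp := Fintype.ofFinite _
  have hcard := hconn.card_vert_le_card_edgeSet_add_one
  rw [Nat.card_eq_fintype_card, Nat.card_eq_fintype_card, ← SimpleGraph.edgeFinset_card] at hcard
  have hsum := H.sum_degrees_eq_twice_card_edges
  have hadj : ∀ a b : C.supp, H.Adj a b → Γ.Adj a b := fun a b h => h
  have hdeg2 : ∀ x : C.supp, H.degree x ≤ 2 := by
    intro x
    by_contra hlt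
    push Not at hlt
    rw [← SimpleGraph.card_neighborFinset_eq_degree, Finset.two_lt_card] at hlt
    obtain ⟨a, ha, b, hb, c, hc, hab, hac, hbc⟩ := hlt
    rw [SimpleGraph.mem_neighborFinset] at ha hb hc
    rcases h2 x a b c (hadj _ _ ha) (hadj _ _ hb) (hadj _ _ hc) with h | h | h
    · exact hab (Subtype.ext h)
    · exact hac (Subtype.ext h)
    · exact hbc (Subtype.ext h)
  have hdeg1 : ∀ x : C.supp, (∀ a b, Γ.Adj x a → Γ.Adj x b → a = b) → H.degree x ≤ 1 := by
    intro x hx
    rw [← SimpleGraph.card_neighborFinset_eq_degree, Finset.card_le_one]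
    intro a ha b hb
    rw [SimpleGraph.mem_neighborFinset] at ha hb
    exact Subtype.ext (hx _ _ (hadj _ _ ha) (hadj _ _ hb))
  let u' : C.supp := ⟨u, hu'⟩
  let v' : C.supp := ⟨v, hv'⟩
  let w' : C.supp := ⟨w, hw'⟩
  have huv' : u' ≠ v' := fun h => huv (congrArg Subtype.val h)
  have huw' : u' ≠ w' := fun h => huw (congrArg Subtype.val h)
  have hvw' : v' ≠ w' := fun h => hvw (congrArg Subtype.val h)
  have hle : ∑ x : C.supp, (H.degree x + ((if x = u' then 1 else 0) + (if x = v' then 1 else 0)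
      + (if x = w' then 1 else 0))) ≤ ∑ x : C.supp, 2 := by
    refine Finset.sum_le_sum fun x _ => ?_
    have h2' := hdeg2 x
    by_cases hxu : x = u'
    · subst hxu
      have := hdeg1 u' hu
      rw [if_pos rfl, if_neg huv', if_neg huw']
      omega
    · by_cases hxv : x = v'
      · subst hxv
        have := hdeg1 v' hv
        rw [if_neg hxu, if_pos rfl, if_neg hvw']
        omega
      · by_cases hxw : x = w'
        · subst hxw
          have := hdeg1 w' hw
          rw [if_neg hxu, if_neg hxv, if_pos rfl]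
          omega
        · rw [if_neg hxu, if_neg hxv, if_neg hxw]
          omega
  rw [Finset.sum_add_distrib, Finset.sum_add_distrib, Finset.sum_add_distrib, hsum,
    Finset.sum_ite_eq', Finset.sum_ite_eq', Finset.sum_ite_eq', Finset.sum_const,
    Finset.card_univ, smul_eq_mul] at hle
  simp only [Finset.mem_univ, if_true] at hle
  omega

namespace Multigraph

variable {V E κ : Type} (G : Multigraph V E)

/-- three distinct vertices each missing `a` or `b` are not in one Kempe component -/
theorem no_three {e0 : E} [Finite V] {c : E → κ} {a b : κ} (hc : G.Proper e0 c)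
    {u v w : V} (huv : u ≠ v) (huw : u ≠ w) (hvw : v ≠ w)
    (hu : G.Miss e0 c u a ∨ G.Miss e0 c u b)
    (hv : G.Miss e0 c v a ∨ G.Miss e0 c v b)
    (hw : G.Miss e0 c w a ∨ G.Miss e0 c w b)
    (h1 : (G.KG e0 c a b).Reachable u v) (h3 : (G.KG e0 c a b).Reachable u w) : False :=
  no_three_endpoints (G.KG e0 c a b) (fun _ _ _ _ => G.KG_three hc) huv huw hvw
    (fun _ _ => G.KG_nbr_unique hc hu) (fun _ _ => G.KG_nbr_unique hc hv)
    (fun _ _ => G.KG_nbr_unique hc hw) h1 h3

/-- a vertex missing both `a` and `b` is alone in its Kempe component -/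
theorem comp_trivial {e0 : E} {c : E → κ} {a b : κ} {u v : V}
    (ha : G.Miss e0 c u a) (hb : G.Miss e0 c u b)
    (h : (G.KG e0 c a b).Reachable u v) : u = v := by
  obtain ⟨p⟩ := h
  cases p with
  | nil => rfl
  | cons hadj _ =>
    obtain ⟨e, he, hce, hex⟩ := hadj
    rcases hce with h | h
    · exact absurd h (ha e he (G.mem_ends_left hex))
    · exact absurd h (hb e he (G.mem_ends_left hex))

end Multigraph

end Pool.Agent.Lib.MP_7ce1ef_co
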