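import Mathlib
import Pool.Agent.Lib.MP_7ce1ef_co.Kempe

/-!
# Tashkinov trees are elementary (when every vertex misses at least two colours)
-/

namespace Pool.Agent.Lib.MP_7ce1ef_co

namespace Multigraph

variable {V E κ : Type} (G : Multigraph V E)

/-- Tashkinov sequences: `y 0, y 1` are the ends of the uncoloured edge `e0`; for `2 ≤ j ≤ n` the
edge `f j` joins `y j` to an earlier vertex and its colour is missing at an earlier vertex. -/
structure IsTT (e0 : E) (c : E → κ) (n : ℕ) (y : ℕ → V) (f : ℕ → E) : Prop where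
  one_le : 1 ≤ n
  inj : ∀ i j, i ≤ n → j ≤ n → y i = y j → i = j
  base : G.ends e0 = s(y 0, y 1)
  ne : ∀ j, 2 ≤ j → j ≤ n → f j ≠ e0
  att : ∀ j, 2 ≤ j → j ≤ n → ∃ r < j, G.ends (f j) = s(y r, y j)
  col : ∀ j, 2 ≤ j → j ≤ n → ∃ l < j, G.Miss e0 c (y l) (c (f j))

/-- the missing colour sets along the sequence are pairwise disjoint -/
def Elem (e0 : E) (c : E → κ) (n : ℕ) (y : ℕ → V) : Prop :=
  ∀ i j, i ≤ n → j ≤ n → ∀ a, G.Miss e0 c (y i) a → G.Miss e0 c (y j) a → i = j

/-- from index `p` on the sequence is a path -/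
def Tail (p n : ℕ) (y : ℕ → V) (f : ℕ → E) : Prop :=
  ∀ j, p < j → 2 ≤ j → j ≤ n → G.ends (f j) = s(y (j - 1), y j)

variable {G}

theorem IsTT.restrict {e0 : E} {c : E → κ} {n : ℕ} {y : ℕ → V} {f : ℕ → E}
    (h : G.IsTT e0 c n y f) {m : ℕ} (h1 : 1 ≤ m) (hm : m ≤ n) : G.IsTT e0 c m y f where
  one_le := h1
  inj i j hi hj := h.inj i j (hi.trans hm) (hj.trans hm)
  base := h.base
  ne j h2 hj := h.ne j h2 (hj.trans hm)
  att j h2 hj := h.att j h2 (hj.trans hm)
  col j h2 hj := h.col j h2 (hj.trans hm)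

theorem Tail.restrict {p n : ℕ} {y : ℕ → V} {f : ℕ → E} (h : G.Tail p n y f) {m : ℕ}
    (hm : m ≤ n) : G.Tail p m y f := fun j h1 h2 h3 => h j h1 h2 (h3.trans hm)

theorem Elem.restrict {e0 : E} {c : E → κ} {n : ℕ} {y : ℕ → V}
    (h : G.Elem e0 c n y) {m : ℕ} (hm : m ≤ n) : G.Elem e0 c m y :=
  fun i j hi hj => h i j (hi.trans hm) (hj.trans hm)

theorem IsTT.mem_ends {e0 : E} {c : E → κ} {n : ℕ} {y : ℕ → V} {f : ℕ → E}
    (h : G.IsTT e0 c n y f) {j : ℕ} (h2 : 2 ≤ j) (hj : j ≤ n) : y j ∈ G.ends (f j) := by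
  obtain ⟨r, _, hr⟩ := h.att j h2 hj
  exact G.mem_ends_right hr

/-- a swap keeps a Tashkinov sequence when the swapped colours do not occur on its first `t`
edges and are, after the swap, still missing among the first vertices -/
theorem IsTT.swap_keep {e0 : E} {c : E → κ} {n : ℕ} {y : ℕ → V} {f : ℕ → E}
    (h : G.IsTT e0 c n y f) {a b : κ} {K : Set V} (hK : G.KClosed e0 c a b K) (t : ℕ)
    (h1 : ∀ j, 2 ≤ j → j ≤ t → j ≤ n → c (f j) ≠ a ∧ c (f j) ≠ b)
    (hAB : t < n → (∃ i ≤ t, G.Miss e0 (G.swapCol c a b K) (y i) a) ∧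
      (∃ i ≤ t, G.Miss e0 (G.swapCol c a b K) (y i) b)) :
    G.IsTT e0 (G.swapCol c a b K) n y f where
  one_le := h.one_le
  inj := h.inj
  base := h.base
  ne := h.ne
  att := h.att
  col j h2 hj := by
    obtain ⟨l, hl, hlm⟩ := h.col j h2 hj
    by_cases hab : c (f j) ≠ a ∧ c (f j) ≠ b
    · rw [swapCol_eq_of_ne G hab.1 hab.2]
      exact ⟨l, hl, (miss_swap_ne G hK hab.1 hab.2).2 hlm⟩
    · have hjt : t < j := by
        by_contra hjt
        exact hab (h1 j h2 (by omega) hj)
      have hab' : c (f j) = a ∨ c (f j) = b := by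
        by_contra hne
        push Not at hne
        exact hab hne
      obtain ⟨⟨ia, hia, hA⟩, ⟨ib, hib, hB⟩⟩ := hAB (by omega)
      rcases swapCol_in G (K := K) hab' with h3 | h3
      · exact ⟨ia, by omega, by rw [h3]; exact hA⟩
      · exact ⟨ib, by omega, by rw [h3]; exact hB⟩

/-- Kempe chains between elementary vertices -/
theorem claimA {e0 : E} {c : E → κ} {J : ℕ} {y : ℕ → V} {f : ℕ → E} {a b : κ}
    (hE : ∀ c' : E → κ, G.Proper e0 c' → G.IsTT e0 c' J y f → G.Elem e0 c' J y)
    (hc : G.Proper e0 c) (hT : G.IsTT e0 c J y f) {i : ℕ} (hi : i < J)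
    (ha : G.Miss e0 c (y i) a) (hb : G.Miss e0 c (y J) b)
    (hun : ∀ j, 2 ≤ j → j ≤ J → c (f j) ≠ a) :
    (G.KG e0 c a b).Reachable (y i) (y J) := by
  by_contra hno
  have hKc := G.comp_closed e0 c a b (y J)
  have hiK : y i ∉ G.comp e0 c a b (y J) := fun h => hno (SimpleGraph.Reachable.symm h)
  have hJK : y J ∈ G.comp e0 c a b (y J) := G.mem_comp_self e0 c a b (y J)
  have hEl := hE c hc hT
  have hT' : G.IsTT e0 (G.swapCol c a b (G.comp e0 c a b (y J))) J y f := by
    refine hT.swap_keep hKc J (fun j h2 hj _ => ⟨hun j h2 hj, fun hb' => ?_⟩)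
      (fun h => absurd h (lt_irrefl _))
    obtain ⟨l, hl, hlm⟩ := hT.col j h2 hj
    rw [hb'] at hlm
    have := hEl l J (by omega) le_rfl b hlm hb
    omega
  have hP' := G.swapCol_proper hc hKc
  have := hE _ hP' hT' i J (by omega) le_rfl a
    ((miss_swap_not_mem G hKc hiK).2 ha) (miss_swap_left G hJK hb)
  omega

theorem KReach_comm {e0 : E} {c : E → κ} {a b : κ} {u v : V}
    (h : (G.KG e0 c a b).Reachable u v) : (G.KG e0 c b a).Reachable u v := by
  rwa [G.KG_symm_col e0 c b a]

/-- for two vertices of an elementary sequence whose missing colours `a`, `b` are unused so far,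
neither of them lies in the Kempe component of a third vertex missing `a` -/
theorem pair_not_mem [Finite V] {e0 : E} {c : E → κ} {n : ℕ} {y : ℕ → V} {f : ℕ → E} {a b : κ}
    (hE : ∀ m, 1 ≤ m → m < n → ∀ c' : E → κ, G.Proper e0 c' → G.IsTT e0 c' m y f →
      G.Elem e0 c' m y)
    (hc : G.Proper e0 c) (hT : G.IsTT e0 c n y f) {i l : ℕ} (hi : i < n) (hl : l < n)
    (ha : G.Miss e0 c (y i) a) (hb : G.Miss e0 c (y l) b) (hn : G.Miss e0 c (y n) a)
    (hun : ∀ j, 2 ≤ j → j ≤ max i l → c (f j) ≠ a)
    (hun' : ∀ j, 2 ≤ j → j ≤ max i l → c (f j) ≠ b) :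
    y i ∉ G.comp e0 c a b (y n) ∧ y l ∉ G.comp e0 c a b (y n) := by
  have hine : y n ≠ y i := fun h => by have := hT.inj n i le_rfl (by omega) h; omega
  have hlne : y n ≠ y l := fun h => by have := hT.inj n l le_rfl (by omega) h; omega
  by_cases hil : i = l
  · subst hil
    have key : y i ∉ G.comp e0 c a b (y n) := by
      intro h
      exact hine (G.comp_trivial ha hb (SimpleGraph.Reachable.symm h)).symm
    exact ⟨key, key⟩
  · have hyil : y i ≠ y l := fun h => hil (hT.inj i l (by omega) (by omega) h)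
    have hreach : (G.KG e0 c a b).Reachable (y i) (y l) := by
      rcases lt_or_gt_of_ne hil with h | h
      · rw [max_eq_right h.le] at hun hun'
        exact claimA (hE l (by omega) hl) hc (hT.restrict (by omega) hl.le) h ha hb
          (fun j h2 hj => hun j h2 hj)
      · rw [max_eq_left h.le] at hun hun'
        exact (KReach_comm (claimA (hE i (by omega) hi) hc (hT.restrict (by omega) hi.le) h hb ha
          (fun j h2 hj => hun' j h2 hj))).symm
    have key : y i ∉ G.comp e0 c a b (y n) := by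
      intro h
      exact G.no_three hc hine hlne hyil (Or.inl hn) (Or.inl ha) (Or.inr hb) h (h.trans hreach)
    exact ⟨key, fun h => key (SimpleGraph.Reachable.trans h hreach.symm)⟩

open Classical in
/-- recolour one edge -/
noncomputable def recol (c : E → κ) (g : E) (δ : κ) : E → κ := Function.update c g δ

theorem recol_self (c : E → κ) (g : E) (δ : κ) : recol c g δ g = δ := by
  classical
  unfold recol; exact Function.update_self g δ c

theorem recol_ne (c : E → κ) {g e : E} (δ : κ) (h : e ≠ g) : recol c g δ e = c e := by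
  classical
  unfold recol; exact Function.update_of_ne h δ c

theorem recol_proper {e0 : E} {c : E → κ} {g : E} {δ : κ} (hc : G.Proper e0 c)
    (hm : ∀ v ∈ G.ends g, G.Miss e0 c v δ) : G.Proper e0 (recol c g δ) := by
  intro e f he hf hef v hve hvf
  by_cases h1 : e = g
  · subst h1
    rw [recol_self, recol_ne c δ (Ne.symm hef)]
    exact fun h => hm v hve f hf hvf h.symm
  · rw [recol_ne c δ h1]
    by_cases h2 : f = g
    · subst h2
      rw [recol_self]
      exact hm v hvf e he hve
    · rw [recol_ne c δ h2]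
      exact hc e f he hf hef v hve hvf

theorem miss_recol_of_not_mem {e0 : E} {c : E → κ} {g : E} {δ : κ} {v : V} (hv : v ∉ G.ends g)
    {x : κ} : G.Miss e0 (recol c g δ) v x ↔ G.Miss e0 c v x := by
  constructor
  · intro h e he hve
    have h1 : e ≠ g := fun h => hv (h ▸ hve)
    have := h e he hve
    rwa [recol_ne c δ h1] at this
  · intro h e he hve
    have h1 : e ≠ g := fun h => hv (h ▸ hve)
    rw [recol_ne c δ h1]
    exact h e he hve

theorem miss_recol_old {e0 : E} {c : E → κ} {g : E} {δ : κ} {v : V} (hc : G.Proper e0 c)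
    (hg : g ≠ e0) (hv : v ∈ G.ends g) (hne : δ ≠ c g) :
    G.Miss e0 (recol c g δ) v (c g) := by
  intro e he hve
  by_cases h1 : e = g
  · subst h1
    rw [recol_self]; exact hne
  · rw [recol_ne c δ h1]
    exact hc e g he hg h1 v hve hv

/-- Case I: the shared colour is missing at a vertex of the tail -/
theorem caseI [Finite V] {e0 : E} {n p : ℕ} {y : ℕ → V} {f : ℕ → E}
    (hdisj : ∀ c : E → κ, G.Proper e0 c → ∀ u v, G.ends e0 = s(u, v) →
      ∀ a, G.Miss e0 c u a → ¬ G.Miss e0 c v a)
    (hne : ∀ c : E → κ, G.Proper e0 c → ∀ v, ∃ a, G.Miss e0 c v a)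
    (hp : G.Tail p n y f)
    (hE : ∀ m, 1 ≤ m → m < n → ∀ c' : E → κ, G.Proper e0 c' → G.IsTT e0 c' m y f →
      G.Elem e0 c' m y) :
    ∀ m i, m = n - 1 - i → p ≤ i → i < n → ∀ c : E → κ, G.Proper e0 c → G.IsTT e0 c n y f →
      ∀ δ, G.Miss e0 c (y i) δ → G.Miss e0 c (y n) δ → False := by
  intro m
  induction m with
  | zero =>
    intro i hm hpi hin c hc hT δ hi hn
    have hi' : i = n - 1 := by omega
    by_cases hn1 : n = 1
    · subst hn1
      have : i = 0 := by omega
      subst this
      exact hdisj c hc _ _ hT.base δ hi hn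
    · have hends := hp n (by omega) (by omega) le_rfl
      have hfn := hT.ne n (by omega) le_rfl
      subst hi'
      have hmem1 : y (n - 1) ∈ G.ends (f n) := G.mem_ends_left hends
      have hmem2 : y n ∈ G.ends (f n) := G.mem_ends_right hends
      have hP' : G.Proper e0 (recol c (f n) δ) := by
        refine recol_proper hc fun v hv => ?_
        rw [hends, Sym2.mem_iff] at hv
        rcases hv with rfl | rfl
        · exact hi
        · exact hn
      have hnotmem : ∀ l, l < n - 1 → y l ∉ G.ends (f n) := by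
        intro l hl hmem
        rw [hends, Sym2.mem_iff] at hmem
        rcases hmem with h | h
        · have := hT.inj l (n - 1) (by omega) (by omega) h; omega
        · have := hT.inj l n (by omega) le_rfl h; omega
      have hne1 : ∀ j, 2 ≤ j → j ≤ n - 1 → f j ≠ f n := by
        intro j h2 hj hh
        obtain ⟨r, hr, hrj⟩ := hT.att j h2 (by omega)
        rw [hh] at hrj
        rw [hrj, Sym2.mem_iff] at hmem2
        rcases hmem2 with h | h
        · have := hT.inj n r le_rfl (by omega) h; omega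
        · have := hT.inj n j le_rfl (by omega) h; omega
      have hT' : G.IsTT e0 (recol c (f n) δ) (n - 1) y f := by
        have hR := hT.restrict (m := n - 1) (by omega) (by omega)
        refine ⟨hR.one_le, hR.inj, hR.base, hR.ne, hR.att, fun j h2 hj => ?_⟩
        obtain ⟨l, hl, hlm⟩ := hR.col j h2 hj
        rw [recol_ne c δ (hne1 j h2 hj)]
        exact ⟨l, hl, (miss_recol_of_not_mem (hnotmem l (by omega))).2 hlm⟩
      obtain ⟨l, hl, hlm⟩ := hT.col n (by omega) le_rfl
      have hδ : δ ≠ c (f n) := fun h => hn (f n) hfn hmem2 h.symm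
      have hl1 : l ≠ n - 1 := by
        rintro rfl
        exact hlm (f n) hfn hmem1 rfl
      have := hE (n - 1) (by omega) (by omega) _ hP' hT' l (n - 1) (by omega) le_rfl (c (f n))
        ((miss_recol_of_not_mem (hnotmem l (by omega))).2 hlm)
        (miss_recol_old hc hfn hmem1 hδ)
      omega
  | succ m ih =>
    intro i hm hpi hin c hc hT δ hi hn
    obtain ⟨ε, hε⟩ := hne c hc (y (i + 1))
    have hEl := hE (n - 1) (by omega) (by omega) c hc (hT.restrict (by omega) (by omega))
    have hδun : ∀ j, 2 ≤ j → j ≤ i + 1 → c (f j) ≠ δ := by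
      intro j h2 hj hh
      by_cases hji : j = i + 1
      · subst hji
        have h3 := hp (i + 1) (by omega) h2 (by omega)
        exact hi _ (hT.ne _ h2 (by omega)) (by
          rw [h3]; simp) hh
      · obtain ⟨l, hl, hlm⟩ := hT.col j h2 (by omega)
        rw [hh] at hlm
        have := hEl l i (by omega) (by omega) δ hlm hi
        omega
    have hεun : ∀ j, 2 ≤ j → j ≤ i + 1 → c (f j) ≠ ε := by
      intro j h2 hj hh
      obtain ⟨l, hl, hlm⟩ := hT.col j h2 (by omega)
      rw [hh] at hlm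
      have := hEl l (i + 1) (by omega) (by omega) ε hlm hε
      omega
    have hpair := pair_not_mem hE hc hT (i := i) (l := i + 1) hin (by omega) hi hε hn
      (fun j h2 hj => hδun j h2 (by omega)) (fun j h2 hj => hεun j h2 (by omega))
    have hKc := G.comp_closed e0 c δ ε (y n)
    have hnK := G.mem_comp_self e0 c δ ε (y n)
    have hT' : G.IsTT e0 (G.swapCol c δ ε (G.comp e0 c δ ε (y n))) n y f :=
      hT.swap_keep hKc (i + 1) (fun j h2 hj _ => ⟨hδun j h2 hj, hεun j h2 hj⟩)
        (fun _ => ⟨⟨i, by omega, (miss_swap_not_mem G hKc hpair.1).2 hi⟩,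
          ⟨i + 1, le_rfl, (miss_swap_not_mem G hKc hpair.2).2 hε⟩⟩)
    exact ih (i + 1) (by omega) (by omega) (by omega) _ (G.swapCol_proper hc hKc) hT' ε
      ((miss_swap_not_mem G hKc hpair.2).2 hε) (miss_swap_right G hnK hn)

/-- extend a Tashkinov sequence along a Kempe chain -/
theorem ext_path {e0 : E} {c : E → κ} {J : ℕ} {y : ℕ → V} {f : ℕ → E} {a b : κ}
    (hT : G.IsTT e0 c J y f) {w : V} (hw : ∀ i ≤ J, y i ≠ w) {q : ℕ} (hq : q ≤ J)
    (hreach : (G.KG e0 c a b).Reachable (y q) w)
    (ha : ∃ l ≤ J, G.Miss e0 c (y l) a) (hb : ∃ l ≤ J, G.Miss e0 c (y l) b) :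
    ∃ (n' : ℕ) (y' : ℕ → V) (f' : ℕ → E), J < n' ∧ G.IsTT e0 c n' y' f' ∧
      (∀ t ≤ J, y' t = y t) ∧ y' n' = w ∧ G.Tail (J + 1) n' y' f' := by
  classical
  obtain ⟨p, hp⟩ := hreach.exists_isPath
  set i0 := Nat.findGreatest (fun t => ∃ i ≤ J, y i = p.getVert t) p.length with hi0
  have h0 : ∃ i ≤ J, y i = p.getVert 0 := ⟨q, hq, by simp⟩
  have hi0P : ∃ i ≤ J, y i = p.getVert i0 :=
    Nat.findGreatest_spec (P := fun t => ∃ i ≤ J, y i = p.getVert t) (m := 0) (Nat.zero_le _) h0
  have hi0le : i0 ≤ p.length := Nat.findGreatest_le _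
  have hi0ne : i0 ≠ p.length := by
    intro h
    obtain ⟨i, hi, hiy⟩ := hi0P
    rw [h, SimpleGraph.Walk.getVert_length] at hiy
    exact hw i hi hiy
  have hafter : ∀ t, i0 < t → t ≤ p.length → ∀ i ≤ J, y i ≠ p.getVert t := by
    intro t ht htl i hi hh
    exact Nat.findGreatest_is_greatest (P := fun t => ∃ i ≤ J, y i = p.getVert t) ht htl
      ⟨i, hi, hh⟩
  have hedge : ∀ t, t < p.length → ∃ e, e ≠ e0 ∧ (c e = a ∨ c e = b) ∧
      G.ends e = s(p.getVert t, p.getVert (t + 1)) := fun t ht => p.adj_getVert_succ ht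
  have : Nonempty E := ⟨e0⟩
  choose! g hg using hedge
  have hinj := hp.getVert_injOn
  refine ⟨J + (p.length - i0), fun t => if t ≤ J then y t else p.getVert (i0 + (t - J)),
    fun t => if t ≤ J then f t else g (i0 + (t - J) - 1), by omega, ?_, ?_, ?_, ?_⟩
  · refine ⟨by have := hT.one_le; omega, ?_, ?_, ?_, ?_, ?_⟩
    · intro i j hi hj hh
      split_ifs at hh with h1 h2 h2
      · exact hT.inj i j h1 h2 hh
      · exact absurd hh (hafter _ (by omega) (by omega) i h1)
      · exact absurd hh.symm (hafter _ (by omega) (by omega) j h2)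
      · have m1 : (i0 + (i - J)) ∈ {t : ℕ | t ≤ p.length} := by
          rw [Set.mem_ofPred_eq]
          omega
        have m2 : (i0 + (j - J)) ∈ {t : ℕ | t ≤ p.length} := by
          rw [Set.mem_ofPred_eq]
          omega
        have := hinj m1 m2 hh
        omega
    · have h1 := hT.one_le
      rw [if_pos (by omega), if_pos h1]
      exact hT.base
    · intro j h2 hj
      split_ifs with h
      · exact hT.ne j h2 h
      · exact (hg _ (by omega)).1
    · intro j h2 hj
      by_cases h : j ≤ J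
      · obtain ⟨r, hr, hrj⟩ := hT.att j h2 h
        refine ⟨r, hr, ?_⟩
        rw [if_pos h, if_pos h, if_pos (by omega)]
        exact hrj
      · have h3 := (hg (i0 + (j - J) - 1) (by omega)).2.2
        rw [if_neg h, if_neg h]
        have h4 : i0 + (j - J) - 1 + 1 = i0 + (j - J) := by omega
        rw [h4] at h3
        by_cases hj1 : j = J + 1
        · obtain ⟨i, hi, hiy⟩ := hi0P
          refine ⟨i, by omega, ?_⟩
          rw [if_pos hi, h3, hiy]
          congr 3
          omega
        · refine ⟨j - 1, by omega, ?_⟩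
          rw [if_neg (by omega), h3]
          congr 3
          omega
    · intro j h2 hj
      by_cases h : j ≤ J
      · obtain ⟨l, hl, hlm⟩ := hT.col j h2 h
        refine ⟨l, hl, ?_⟩
        rw [if_pos h, if_pos (by omega)]
        exact hlm
      · have h3 := (hg (i0 + (j - J) - 1) (by omega)).2.1
        rw [if_neg h]
        rcases h3 with h3 | h3
        · obtain ⟨l, hl, hlm⟩ := ha
          refine ⟨l, by omega, ?_⟩
          rw [if_pos hl, h3]; exact hlm
        · obtain ⟨l, hl, hlm⟩ := hb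
          refine ⟨l, by omega, ?_⟩
          rw [if_pos hl, h3]; exact hlm
  · intro t ht
    dsimp only
    rw [if_pos ht]
  · dsimp only
    rw [if_neg (by omega)]
    have : i0 + (J + (p.length - i0) - J) = p.length := by omega
    rw [this, SimpleGraph.Walk.getVert_length]
  · intro j h1 h2 hj
    dsimp only
    rw [if_neg (by omega), if_neg (by omega), if_neg (by omega)]
    have h3 := (hg (i0 + (j - J) - 1) (by omega)).2.2
    have h4 : i0 + (j - J) - 1 + 1 = i0 + (j - J) := by omega
    have h5 : i0 + (j - 1 - J) = i0 + (j - J) - 1 := by omega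
    rw [h4] at h3
    rw [h5]
    exact h3

open Classical in
/-- the set of colours missing at `v` -/
noncomputable def missSet [Fintype κ] (G : Multigraph V E) (e0 : E) (c : E → κ) (v : V) :
    Finset κ := Finset.univ.filter fun a => G.Miss e0 c v a

theorem mem_missSet [Fintype κ] {e0 : E} {c : E → κ} {v : V} {a : κ} :
    a ∈ G.missSet e0 c v ↔ G.Miss e0 c v a := by
  classical
  unfold missSet
  rw [Finset.mem_filter]
  exact ⟨fun h => h.2, fun h => ⟨Finset.mem_univ _, h⟩⟩

/-- a colour missing among the first vertices and outside a small set -/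
theorem free_col [Fintype κ] {e0 : E} {c : E → κ} {L : ℕ} {y : ℕ → V}
    (hm : ∀ v, 2 ≤ (G.missSet e0 c v).card) (hEl : G.Elem e0 c L y) (used : Finset κ)
    (hu : used.card < 2 * (L + 1)) : ∃ l ≤ L, ∃ γ, γ ∉ used ∧ G.Miss e0 c (y l) γ := by
  classical
  have hdis : ((Finset.range (L + 1) : Finset ℕ) : Set ℕ).PairwiseDisjoint
      (fun l => G.missSet e0 c (y l)) := by
    intro i hi j hj hij
    rw [Function.onFun, Finset.disjoint_left]
    intro a hai haj
    rw [mem_missSet] at hai haj
    have hi' := Finset.mem_range.1 (Finset.mem_coe.1 hi)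
    have hj' := Finset.mem_range.1 (Finset.mem_coe.1 hj)
    exact hij (hEl i j (by omega) (by omega) a hai haj)
  have hcard : 2 * (L + 1) ≤ ((Finset.range (L + 1)).biUnion
      fun l => G.missSet e0 c (y l)).card := by
    rw [Finset.card_biUnion hdis]
    calc 2 * (L + 1) = ∑ _l ∈ Finset.range (L + 1), 2 := by
          rw [Finset.sum_const, Finset.card_range, smul_eq_mul]; ring
      _ ≤ _ := Finset.sum_le_sum fun l _ => hm (y l)
  obtain ⟨γ, hγ, hγu⟩ := Finset.exists_mem_notMem_of_card_lt_card (lt_of_lt_of_le hu hcard)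
  rw [Finset.mem_biUnion] at hγ
  obtain ⟨l, hl, hlγ⟩ := hγ
  exact ⟨l, by have := Finset.mem_range.1 hl; omega, γ, hγu, mem_missSet.1 hlγ⟩

/-- a colour missing among the first vertices and unused on the first `t` edges -/
theorem free_col' [Fintype κ] {e0 : E} {c : E → κ} {L : ℕ} {y : ℕ → V} {f : ℕ → E}
    (hm : ∀ v, 2 ≤ (G.missSet e0 c v).card) (hEl : G.Elem e0 c L y) (t : ℕ)
    (ht : t < 2 * (L + 1) + 1) :
    ∃ l ≤ L, ∃ γ, G.Miss e0 c (y l) γ ∧ ∀ j, 2 ≤ j → j ≤ t → c (f j) ≠ γ := by
  classical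
  have hcard : ((Finset.Icc 2 t).image fun j => c (f j)).card < 2 * (L + 1) := by
    calc _ ≤ (Finset.Icc 2 t).card := Finset.card_image_le
      _ < 2 * (L + 1) := by rw [Nat.card_Icc]; omega
  obtain ⟨l, hl, γ, hγ, hm'⟩ := free_col hm hEl _ hcard
  refine ⟨l, hl, γ, hm', fun j h2 hj hh => hγ ?_⟩
  rw [Finset.mem_image]
  exact ⟨j, Finset.mem_Icc.2 ⟨h2, hj⟩, hh⟩

/-- dropping the last but one vertex -/
theorem IsTT.drop {e0 : E} {c : E → κ} {n : ℕ} {y : ℕ → V} {f : ℕ → E}
    (h : G.IsTT e0 c n y f) (hn3 : 3 ≤ n) {r : ℕ} (hr : r < n - 1)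
    (hfr : G.ends (f n) = s(y r, y n)) (hcol : ∃ l < n - 1, G.Miss e0 c (y l) (c (f n))) :
    G.IsTT e0 c (n - 1) (fun t => if t = n - 1 then y n else y t)
      (fun t => if t = n - 1 then f n else f t) := by
  refine ⟨by omega, ?_, ?_, ?_, ?_, ?_⟩
  · intro i j hi hj hh
    by_cases h1 : i = n - 1 <;> by_cases h2 : j = n - 1
    · rw [h1, h2]
    · rw [if_pos h1, if_neg h2] at hh
      have := h.inj n j le_rfl (by omega) hh
      omega
    · rw [if_neg h1, if_pos h2] at hh
      have := h.inj i n (by omega) le_rfl hh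
      omega
    · rw [if_neg h1, if_neg h2] at hh
      exact h.inj i j (by omega) (by omega) hh
  · rw [if_neg (by omega), if_neg (by omega)]
    exact h.base
  · intro j h2 hj
    by_cases h1 : j = n - 1
    · rw [if_pos h1]; exact h.ne n (by omega) le_rfl
    · rw [if_neg h1]; exact h.ne j h2 (by omega)
  · intro j h2 hj
    by_cases h1 : j = n - 1
    · refine ⟨r, by omega, ?_⟩
      rw [if_pos h1, if_pos h1, if_neg (by omega)]
      exact hfr
    · obtain ⟨r', hr', hrj⟩ := h.att j h2 (by omega)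
      refine ⟨r', hr', ?_⟩
      rw [if_neg h1, if_neg h1, if_neg (by omega)]
      exact hrj
  · intro j h2 hj
    by_cases h1 : j = n - 1
    · obtain ⟨l, hl, hlm⟩ := hcol
      refine ⟨l, by omega, ?_⟩
      rw [if_pos h1, if_neg (by omega)]
      exact hlm
    · obtain ⟨l, hl, hlm⟩ := h.col j h2 (by omega)
      refine ⟨l, hl, ?_⟩
      rw [if_neg h1, if_neg (by omega)]
      exact hlm

/-- The case in which the last edge is not attached to the last but one vertex and the shared
colour is unused. -/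
theorem step_last [Finite V] [Fintype κ] {e0 : E} {n : ℕ} {y : ℕ → V} {f : ℕ → E}
    (hm : ∀ c : E → κ, G.Proper e0 c → ∀ v, 2 ≤ (G.missSet e0 c v).card)
    (hE : ∀ m, 1 ≤ m → m < n → ∀ c' : E → κ, G.Proper e0 c' → G.IsTT e0 c' m y f →
      G.Elem e0 c' m y)
    (hEp : ∀ n' < n, ∀ (c' : E → κ) (y' : ℕ → V) (f' : ℕ → E), G.Proper e0 c' →
      G.IsTT e0 c' n' y' f' → G.Tail (n - 1) n' y' f' → G.Elem e0 c' n' y')
    (hn2 : 2 ≤ n) {r : ℕ} (hr : r < n - 1) (hfr : G.ends (f n) = s(y r, y n))
    {c : E → κ} (hc : G.Proper e0 c) (hT : G.IsTT e0 c n y f) {i : ℕ} (hi : i < n) {δ : κ}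
    (hiδ : G.Miss e0 c (y i) δ) (hnδ : G.Miss e0 c (y n) δ)
    (hun : ∀ j, 2 ≤ j → j ≤ n → c (f j) ≠ δ) : False := by
  have hfn := hT.ne n (by omega) le_rfl
  have hmr : y r ∈ G.ends (f n) := G.mem_ends_left hfr
  have hmn : y n ∈ G.ends (f n) := G.mem_ends_right hfr
  have hTn1 : ∀ c : E → κ, G.IsTT e0 c n y f → G.IsTT e0 c (n - 1) y f :=
    fun c h => h.restrict (by omega) (by omega)
  -- the colour `c (f n)` is missing at a vertex before `n - 1` unless it is missing at `n - 1`
  have hcoln : ∀ c : E → κ, G.IsTT e0 c n y f → ¬ G.Miss e0 c (y (n - 1)) (c (f n)) →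
      ∃ l < n - 1, G.Miss e0 c (y l) (c (f n)) := by
    intro c hT hno
    obtain ⟨l, hl, hlm⟩ := hT.col n (by omega) le_rfl
    have : l ≠ n - 1 := by
      rintro rfl; exact hno hlm
    exact ⟨l, by omega, hlm⟩
  have hn3 : ∀ c : E → κ, G.IsTT e0 c n y f → ¬ G.Miss e0 c (y (n - 1)) (c (f n)) → 3 ≤ n := by
    intro c hT hno
    obtain ⟨l, hl, hlm⟩ := hcoln c hT hno
    have hlr : l ≠ r := by
      rintro rfl
      exact hlm (f n) hfn hmr rfl
    omega
  -- dropping `y (n-1)` gives an elementary sequence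
  have hdrop : ∀ c : E → κ, G.Proper e0 c → G.IsTT e0 c n y f →
      ¬ G.Miss e0 c (y (n - 1)) (c (f n)) → ∀ l < n - 1, ∀ a, G.Miss e0 c (y l) a →
      ¬ G.Miss e0 c (y n) a := by
    intro c hc hT hno l hl a hla hna
    have h3 := hT.drop (hn3 c hT hno) hr hfr (hcoln c hT hno)
    have hel := hEp (n - 1) (by omega) c _ _ hc h3 (fun j h1 _ h2 => absurd h2 (by omega))
    have := hel l (n - 1) (by omega) le_rfl a (by beta_reduce; rw [if_neg (by omega)]; exact hla)
      (by beta_reduce; rw [if_pos rfl]; exact hna)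
    omega
  -- case (a)
  have caseA : ∀ c : E → κ, G.Proper e0 c → G.IsTT e0 c n y f →
      ¬ G.Miss e0 c (y (n - 1)) (c (f n)) → ∀ δ, G.Miss e0 c (y (n - 1)) δ →
      G.Miss e0 c (y n) δ → (∀ j, 2 ≤ j → j ≤ n → c (f j) ≠ δ) → False := by
    intro c hc hT hno δ hi hn hun
    have h3 := hn3 c hT hno
    have hEl := hE (n - 1) (by omega) (by omega) c hc (hTn1 c hT)
    obtain ⟨l, hl, γ, hγ, hγun⟩ := free_col' (f := f) (hm c hc)
      (hEl.restrict (m := n - 2) (by omega)) n (by omega)
    have hpair := pair_not_mem hE hc hT (i := n - 1) (l := l) (by omega) (by omega) hi hγ hn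
      (fun j h2 hj => hun j h2 (by omega)) (fun j h2 hj => hγun j h2 (by omega))
    have hKc := G.comp_closed e0 c δ γ (y n)
    have hnK := G.mem_comp_self e0 c δ γ (y n)
    have hT' : G.IsTT e0 (G.swapCol c δ γ (G.comp e0 c δ γ (y n))) n y f :=
      hT.swap_keep hKc n (fun j h2 hj _ => ⟨hun j h2 hj, hγun j h2 hj⟩)
        (fun h => absurd h (lt_irrefl _))
    have hcol' : G.swapCol c δ γ (G.comp e0 c δ γ (y n)) (f n) = c (f n) :=
      swapCol_eq_of_ne G (hun n (by omega) le_rfl) (hγun n (by omega) le_rfl)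
    refine hdrop _ (G.swapCol_proper hc hKc) hT' ?_ l (by omega) γ
      ((miss_swap_not_mem G hKc hpair.2).2 hγ) (miss_swap_right G hnK hn)
    rw [hcol', miss_swap_ne G hKc (hun n (by omega) le_rfl) (hγun n (by omega) le_rfl)]
    exact hno
  -- case (b1)
  have caseB1 : ∀ c : E → κ, G.Proper e0 c → G.IsTT e0 c n y f →
      G.Miss e0 c (y (n - 1)) (c (f n)) → ∀ i, i < n - 1 → ∀ δ, G.Miss e0 c (y i) δ →
      G.Miss e0 c (y n) δ → (∀ j, 2 ≤ j → j ≤ n → c (f j) ≠ δ) → False := by
    intro c hc hT hyes i hi δ hiδ hn hun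
    have hEl := hE (n - 1) (by omega) (by omega) c hc (hTn1 c hT)
    have hεun : ∀ j, 2 ≤ j → j ≤ n - 1 → c (f j) ≠ c (f n) := by
      intro j h2 hj hh
      obtain ⟨l, hl, hlm⟩ := hT.col j h2 (by omega)
      rw [hh] at hlm
      have := hEl l (n - 1) (by omega) (by omega) _ hlm hyes
      omega
    have hpair := pair_not_mem hE hc hT (i := i) (l := n - 1) (by omega) (by omega) hiδ hyes hn
      (fun j h2 hj => hun j h2 (by omega)) (fun j h2 hj => hεun j h2 (by omega))
    have hKc := G.comp_closed e0 c δ (c (f n)) (y n)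
    have hnK := G.mem_comp_self e0 c δ (c (f n)) (y n)
    have hT' : G.IsTT e0 (G.swapCol c δ (c (f n)) (G.comp e0 c δ (c (f n)) (y n))) n y f :=
      hT.swap_keep hKc (n - 1)
        (fun j h2 hj _ => ⟨hun j h2 (by omega), hεun j h2 hj⟩)
        (fun _ => ⟨⟨i, by omega, (miss_swap_not_mem G hKc hpair.1).2 hiδ⟩,
          ⟨n - 1, le_rfl, (miss_swap_not_mem G hKc hpair.2).2 hyes⟩⟩)
    have hcol' : G.swapCol c δ (c (f n)) (G.comp e0 c δ (c (f n)) (y n)) (f n) = δ := by
      classical
      rw [swapCol_eq_of_mem G hmn hnK, Equiv.swap_apply_right]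
    have hδε : δ ≠ c (f n) := (hun n (by omega) le_rfl).symm
    refine caseA _ (G.swapCol_proper hc hKc) hT' ?_ (c (f n))
      ((miss_swap_not_mem G hKc hpair.2).2 hyes) (miss_swap_right G hnK hn) ?_
    · rw [hcol', miss_swap_not_mem G hKc hpair.2]
      intro hδ
      have := hEl i (n - 1) (by omega) (by omega) δ hiδ hδ
      omega
    · intro j h2 hj
      by_cases hjn : j = n
      · subst hjn
        rw [hcol']; exact hδε
      · rw [swapCol_eq_of_ne G (hun j h2 hj) (hεun j h2 (by omega))]
        exact hεun j h2 (by omega)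
  by_cases hno : G.Miss e0 c (y (n - 1)) (c (f n))
  · by_cases hin : i = n - 1
    · -- case (b2)
      subst hin
      have hEl := hE (n - 1) (by omega) (by omega) c hc (hTn1 c hT)
      obtain ⟨l, hl, γ, hγ, hγun⟩ := free_col' (f := f) (hm c hc)
        (hEl.restrict (m := n - 2) (by omega)) n (by omega)
      have hpair := pair_not_mem hE hc hT (i := n - 1) (l := l) (by omega) (by omega) hiδ hγ hnδ
        (fun j h2 hj => hun j h2 (by omega)) (fun j h2 hj => hγun j h2 (by omega))
      have hKc := G.comp_closed e0 c δ γ (y n)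
      have hnK := G.mem_comp_self e0 c δ γ (y n)
      have hT' : G.IsTT e0 (G.swapCol c δ γ (G.comp e0 c δ γ (y n))) n y f :=
        hT.swap_keep hKc n (fun j h2 hj _ => ⟨hun j h2 hj, hγun j h2 hj⟩)
          (fun h => absurd h (lt_irrefl _))
      have hcol' : ∀ j, 2 ≤ j → j ≤ n →
          G.swapCol c δ γ (G.comp e0 c δ γ (y n)) (f j) = c (f j) :=
        fun j h2 hj => swapCol_eq_of_ne G (hun j h2 hj) (hγun j h2 hj)
      refine caseB1 _ (G.swapCol_proper hc hKc) hT' ?_ l ?_ γ
        ((miss_swap_not_mem G hKc hpair.2).2 hγ) (miss_swap_right G hnK hnδ) ?_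
      · rw [hcol' n (by omega) le_rfl,
          miss_swap_ne G hKc (hun n (by omega) le_rfl) (hγun n (by omega) le_rfl)]
        exact hno
      · -- l < n - 1
        by_cases hn2' : n = 2
        · subst hn2'
          have : l = 0 := by omega
          omega
        · omega
      · intro j h2 hj
        rw [hcol' j h2 hj]
        exact hγun j h2 hj
    · exact caseB1 c hc hT hno i (by omega) δ hiδ hnδ hun
  · by_cases hin : i = n - 1
    · subst hin
      exact caseA c hc hT hno δ hiδ hnδ hun
    · exact hdrop c hc hT hno i (by omega) δ hiδ hnδ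

/-- The main step: no shared colour at all. -/
theorem step_main [Finite V] [Fintype κ] {e0 : E} {n p : ℕ} {y : ℕ → V} {f : ℕ → E}
    (hdisj : ∀ c : E → κ, G.Proper e0 c → ∀ u v, G.ends e0 = s(u, v) →
      ∀ a, G.Miss e0 c u a → ¬ G.Miss e0 c v a)
    (hm : ∀ c : E → κ, G.Proper e0 c → ∀ v, 2 ≤ (G.missSet e0 c v).card)
    (hp2 : 2 ≤ p) (hpn : p ≤ n) (hTail : G.Tail p n y f)
    (hE : ∀ m, 1 ≤ m → m < n → ∀ c' : E → κ, G.Proper e0 c' → G.IsTT e0 c' m y f →
      G.Elem e0 c' m y)
    (hEp : ∀ p' < p, ∀ n', ∀ (c' : E → κ) (y' : ℕ → V) (f' : ℕ → E), G.Proper e0 c' →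
      G.IsTT e0 c' n' y' f' → G.Tail p' n' y' f' → G.Elem e0 c' n' y')
    {r : ℕ} (hr : r < p - 1) (hfr : G.ends (f p) = s(y r, y p))
    {c : E → κ} (hc : G.Proper e0 c) (hT : G.IsTT e0 c n y f) {i : ℕ} (hi : i < n) {δ : κ}
    (hiδ : G.Miss e0 c (y i) δ) (hnδ : G.Miss e0 c (y n) δ) : False := by
  have hne : ∀ c : E → κ, G.Proper e0 c → ∀ v, ∃ a, G.Miss e0 c v a := by
    intro c hc v
    have := hm c hc v
    obtain ⟨a, ha⟩ := Finset.card_pos.1 (by omega : 0 < (G.missSet e0 c v).card)
    exact ⟨a, mem_missSet.1 ha⟩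
  have hfp := hT.ne p hp2 hpn
  have hmr : y r ∈ G.ends (f p) := G.mem_ends_left hfr
  have hmp : y p ∈ G.ends (f p) := G.mem_ends_right hfr
  have C1 : ∀ c : E → κ, G.Proper e0 c → G.IsTT e0 c n y f → ∀ i, p ≤ i → i < n → ∀ δ,
      G.Miss e0 c (y i) δ → G.Miss e0 c (y n) δ → False := fun c hc hT i hpi hin δ h1 h2 =>
    caseI hdisj hne hTail hE _ i rfl hpi hin c hc hT δ h1 h2
  have hElem : ∀ c : E → κ, G.Proper e0 c → G.IsTT e0 c n y f → G.Elem e0 c (n - 1) y :=
    fun c hc hT => hE (n - 1) (by omega) (by omega) c hc (hT.restrict (by omega) (by omega))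
  -- colour unused on the first `p` edges
  have Q0 : ∀ c : E → κ, G.Proper e0 c → G.IsTT e0 c n y f → ∀ i, i < p → i < n → ∀ δ,
      G.Miss e0 c (y i) δ → G.Miss e0 c (y n) δ → (∀ j, 2 ≤ j → j ≤ p → c (f j) ≠ δ) →
      False := by
    intro c hc hT i hip hin δ hiA hnA hun
    by_cases hpn' : p < n
    · obtain ⟨ε, hε⟩ := hne c hc (y p)
      have hεun : ∀ j, 2 ≤ j → j ≤ p → c (f j) ≠ ε := by
        intro j h2 hj hh
        obtain ⟨l, hl, hlm⟩ := hT.col j h2 (by omega)
        rw [hh] at hlm
        have := hElem c hc hT l p (by omega) (by omega) ε hlm hε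
        omega
      have hpair := pair_not_mem hE hc hT (i := i) (l := p) hin hpn' hiA hε hnA
        (fun j h2 hj => hun j h2 (by omega)) (fun j h2 hj => hεun j h2 (by omega))
      have hKc := G.comp_closed e0 c δ ε (y n)
      have hnK := G.mem_comp_self e0 c δ ε (y n)
      have hT' : G.IsTT e0 (G.swapCol c δ ε (G.comp e0 c δ ε (y n))) n y f :=
        hT.swap_keep hKc p (fun j h2 hj _ => ⟨hun j h2 hj, hεun j h2 hj⟩)
          (fun _ => ⟨⟨i, by omega, (miss_swap_not_mem G hKc hpair.1).2 hiA⟩,
            ⟨p, le_rfl, (miss_swap_not_mem G hKc hpair.2).2 hε⟩⟩)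
      exact C1 _ (G.swapCol_proper hc hKc) hT' p le_rfl hpn' ε
        ((miss_swap_not_mem G hKc hpair.2).2 hε) (miss_swap_right G hnK hnA)
    · have hpn'' : p = n := by omega
      subst hpn''
      exact step_last hm hE (fun n' _ c' y' f' => hEp (p - 1) (by omega) n' c' y' f')
        hp2 hr hfr hc hT hin hiA hnA hun
  -- Kempe component of the last vertex meets the initial part: contradiction
  have meet : ∀ c : E → κ, G.Proper e0 c → G.IsTT e0 c n y f → ∀ J, 1 ≤ J → J + 1 < p →
      ∀ i l, i ≤ J → l ≤ J → ∀ δ γ, G.Miss e0 c (y i) δ → G.Miss e0 c (y l) γ →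
      G.Miss e0 c (y n) δ → ∀ q ≤ J, y q ∉ G.comp e0 c δ γ (y n) := by
    intro c hc hT J hJ1 hJp i l hi hl δ γ hiδ hlγ hnδ q hq hmem
    obtain ⟨n', y', f', hn', hT', hy', hyn', htail'⟩ :=
      ext_path (hT.restrict hJ1 (by omega)) (w := y n)
        (fun i hi h => by have := hT.inj i n (by omega) le_rfl h; omega) hq
        (SimpleGraph.Reachable.symm hmem) ⟨i, hi, hiδ⟩ ⟨l, hl, hlγ⟩
    have := hEp (J + 1) hJp n' c y' f' hc hT' htail' i n' (by omega) le_rfl δ
      (by rw [hy' i hi]; exact hiδ) (by rw [hyn']; exact hnδ)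
    omega
  -- first use of the colour at `p`, shared with a vertex before `p - 1`
  have P1 : ∀ c : E → κ, G.Proper e0 c → G.IsTT e0 c n y f → ∀ i, i + 1 < p → ∀ δ,
      G.Miss e0 c (y i) δ → G.Miss e0 c (y n) δ → (∀ j, 2 ≤ j → j < p → c (f j) ≠ δ) →
      c (f p) = δ → p < n → False := by
    intro c hc hT i hip δ hi hn hun hcp hpn'
    have hir : i ≠ r := by
      rintro rfl
      exact hi (f p) hfp hmr hcp
    have hp3 : 3 ≤ p := by omega
    obtain ⟨l, hl, γ, hγ, hγun⟩ := free_col' (f := f) (hm c hc)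
      ((hElem c hc hT).restrict (m := p - 2) (by omega)) p (by omega)
    have hγδ : γ ≠ δ := by
      rintro rfl; exact hγun p hp2 le_rfl hcp
    have hpair := pair_not_mem hE hc hT (i := i) (l := l) (by omega) (by omega) hi hγ hn
      (fun j h2 hj => hun j h2 (by omega)) (fun j h2 hj => hγun j h2 (by omega))
    have hKc := G.comp_closed e0 c δ γ (y n)
    have hnK := G.mem_comp_self e0 c δ γ (y n)
    have hrK : y r ∉ G.comp e0 c δ γ (y n) :=
      meet c hc hT (p - 2) (by omega) (by omega) i l (by omega) (by omega) δ γ hi hγ hn r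
        (by omega)
    have hT' : G.IsTT e0 (G.swapCol c δ γ (G.comp e0 c δ γ (y n))) n y f :=
      hT.swap_keep hKc (p - 1) (fun j h2 hj _ => ⟨hun j h2 (by omega), hγun j h2 (by omega)⟩)
        (fun _ => ⟨⟨i, by omega, (miss_swap_not_mem G hKc hpair.1).2 hi⟩,
          ⟨l, by omega, (miss_swap_not_mem G hKc hpair.2).2 hγ⟩⟩)
    refine Q0 _ (G.swapCol_proper hc hKc) hT' l (by omega) (by omega) γ
      ((miss_swap_not_mem G hKc hpair.2).2 hγ) (miss_swap_right G hnK hn) ?_
    intro j h2 hj
    by_cases hjp : j = p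
    · subst hjp
      rw [swapCol_eq_of_not_mem G hKc hfp hmr hrK, hcp]
      exact hγδ.symm
    · rw [swapCol_eq_of_ne G (hun j h2 (by omega)) (hγun j h2 hj)]
      exact hγun j h2 hj
  -- first use of the colour at `p`, shared with `p - 1`
  have P2 : ∀ c : E → κ, G.Proper e0 c → G.IsTT e0 c n y f → ∀ δ,
      G.Miss e0 c (y (p - 1)) δ → G.Miss e0 c (y n) δ → (∀ j, 2 ≤ j → j < p → c (f j) ≠ δ) →
      c (f p) = δ → p < n → False := by
    intro c hc hT δ hi hn hun hcp hpn'
    obtain ⟨l, hl, γ, hγ, hγun⟩ := free_col' (f := f) (hm c hc)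
      ((hElem c hc hT).restrict (m := p - 2) (by omega)) p (by omega)
    have hγδ : γ ≠ δ := by
      rintro rfl; exact hγun p hp2 le_rfl hcp
    have hlp : l < p - 1 := by omega
    have hreach : (G.KG e0 c δ γ).Reachable (y l) (y (p - 1)) :=
      KReach_comm (claimA (hE (p - 1) (by omega) (by omega)) hc
        (hT.restrict (by omega) (by omega)) hlp hγ hi (fun j h2 hj => hγun j h2 (by omega)))
    have hpair := pair_not_mem hE hc hT (i := p - 1) (l := l) (by omega) (by omega) hi hγ hn
      (fun j h2 hj => hun j h2 (by omega)) (fun j h2 hj => hγun j h2 (by omega))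
    by_cases hrK0 : y r ∈ G.comp e0 c δ γ (y l)
    · -- swap the component of `y n`
      have hKc := G.comp_closed e0 c δ γ (y n)
      have hnK := G.mem_comp_self e0 c δ γ (y n)
      have hrK : y r ∉ G.comp e0 c δ γ (y n) := by
        intro h
        apply hpair.2
        exact SimpleGraph.Reachable.trans h (SimpleGraph.Reachable.symm hrK0)
      have hT' : G.IsTT e0 (G.swapCol c δ γ (G.comp e0 c δ γ (y n))) n y f :=
        hT.swap_keep hKc (p - 1)
          (fun j h2 hj _ => ⟨hun j h2 (by omega), hγun j h2 (by omega)⟩)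
          (fun _ => ⟨⟨p - 1, le_rfl, (miss_swap_not_mem G hKc hpair.1).2 hi⟩,
            ⟨l, by omega, (miss_swap_not_mem G hKc hpair.2).2 hγ⟩⟩)
      refine Q0 _ (G.swapCol_proper hc hKc) hT' l (by omega) (by omega) γ
        ((miss_swap_not_mem G hKc hpair.2).2 hγ) (miss_swap_right G hnK hn) ?_
      intro j h2 hj
      by_cases hjp : j = p
      · subst hjp
        rw [swapCol_eq_of_not_mem G hKc hfp hmr hrK, hcp]
        exact hγδ.symm
      · rw [swapCol_eq_of_ne G (hun j h2 (by omega)) (hγun j h2 hj)]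
        exact hγun j h2 hj
    · -- swap the component of `y l`
      have hKc := G.comp_closed e0 c δ γ (y l)
      have hlK := G.mem_comp_self e0 c δ γ (y l)
      have hp1K : y (p - 1) ∈ G.comp e0 c δ γ (y l) := hreach
      have hnK : y n ∉ G.comp e0 c δ γ (y l) := fun h =>
        hpair.2 (SimpleGraph.Reachable.symm h)
      have hlδ := miss_swap_left (a := δ) (b := γ) G hlK hγ
      have hpγ := miss_swap_right (a := δ) (b := γ) G hp1K hi
      have hT' : G.IsTT e0 (G.swapCol c δ γ (G.comp e0 c δ γ (y l))) n y f :=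
        hT.swap_keep hKc (p - 1)
          (fun j h2 hj _ => ⟨hun j h2 (by omega), hγun j h2 (by omega)⟩)
          (fun _ => ⟨⟨l, by omega, hlδ⟩, ⟨p - 1, le_rfl, hpγ⟩⟩)
      refine P1 _ (G.swapCol_proper hc hKc) hT' l (by omega) δ hlδ
        ((miss_swap_not_mem G hKc hnK).2 hn) ?_ ?_ hpn'
      · intro j h2 hj
        rw [swapCol_eq_of_ne G (hun j h2 hj) (hγun j h2 (by omega))]
        exact hun j h2 hj
      · rw [swapCol_eq_of_not_mem G hKc hfp hmr hrK0, hcp]
  -- induction on the first use
  have Q : ∀ m, ∀ c : E → κ, G.Proper e0 c → G.IsTT e0 c n y f → ∀ i, i < p → i < n → ∀ δ,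
      G.Miss e0 c (y i) δ → G.Miss e0 c (y n) δ →
      (∀ j, 2 ≤ j → j ≤ p → j + m ≤ p → c (f j) ≠ δ) → False := by
    intro m
    induction m with
    | zero =>
      intro c hc hT i hip hin δ hi hn hun
      exact Q0 c hc hT i hip hin δ hi hn (fun j h2 hj => hun j h2 hj (by omega))
    | succ m ih =>
      intro c hc hT i hip hin δ hi hn hun
      by_cases hj0 : 2 ≤ p - m ∧ c (f (p - m)) = δ
      · obtain ⟨hj2, hcj⟩ := hj0
        have hun' : ∀ j, 2 ≤ j → j < p - m → c (f j) ≠ δ :=
          fun j h2 hj => hun j h2 (by omega) (by omega)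
        -- `i < p - m`
        have hij : i < p - m := by
          obtain ⟨l, hl, hlm⟩ := hT.col (p - m) hj2 (by omega)
          rw [hcj] at hlm
          have := hElem c hc hT l i (by omega) (by omega) δ hlm hi
          omega
        have hjn : p - m < n := by
          by_contra hh
          have h1 : p - m = n := by omega
          rw [h1] at hcj
          exact hn (f n) (hT.ne n (by omega) le_rfl) (hT.mem_ends (by omega) le_rfl) hcj
        by_cases hm0 : m = 0
        · subst hm0
          by_cases hip1 : i + 1 < p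
          · exact P1 c hc hT i hip1 δ hi hn hun' hcj hjn
          · have : i = p - 1 := by omega
            subst this
            exact P2 c hc hT δ hi hn hun' hcj hjn
        · obtain ⟨l, hl, γ, hγ, hγun⟩ := free_col' (f := f) (hm c hc)
            ((hElem c hc hT).restrict (m := p - m - 1) (by omega)) (p - m) (by omega)
          have hγδ : γ ≠ δ := by
            rintro rfl; exact hγun (p - m) hj2 le_rfl hcj
          have hpair := pair_not_mem hE hc hT (i := i) (l := l) (by omega) (by omega) hi hγ hn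
            (fun j h2 hj => hun' j h2 (by omega)) (fun j h2 hj => hγun j h2 (by omega))
          have hKc := G.comp_closed e0 c δ γ (y n)
          have hnK := G.mem_comp_self e0 c δ γ (y n)
          obtain ⟨r', hr', hfr'⟩ := hT.att (p - m) hj2 (by omega)
          have hrK : y r' ∉ G.comp e0 c δ γ (y n) :=
            meet c hc hT (p - m - 1) (by omega) (by omega) i l (by omega) (by omega) δ γ hi hγ
              hn r' (by omega)
          have hT' : G.IsTT e0 (G.swapCol c δ γ (G.comp e0 c δ γ (y n))) n y f :=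
            hT.swap_keep hKc (p - m - 1)
              (fun j h2 hj _ => ⟨hun' j h2 (by omega), hγun j h2 (by omega)⟩)
              (fun _ => ⟨⟨i, by omega, (miss_swap_not_mem G hKc hpair.1).2 hi⟩,
                ⟨l, by omega, (miss_swap_not_mem G hKc hpair.2).2 hγ⟩⟩)
          refine ih _ (G.swapCol_proper hc hKc) hT' l (by omega) (by omega) γ
            ((miss_swap_not_mem G hKc hpair.2).2 hγ) (miss_swap_right G hnK hn) ?_
          intro j h2 hj hjm
          by_cases hjp : j = p - m
          · subst hjp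
            rw [swapCol_eq_of_not_mem G hKc (hT.ne _ hj2 (by omega)) (G.mem_ends_left hfr') hrK,
              hcj]
            exact hγδ.symm
          · rw [swapCol_eq_of_ne G (hun' j h2 (by omega)) (hγun j h2 (by omega))]
            exact hγun j h2 (by omega)
      · refine ih c hc hT i hip hin δ hi hn fun j h2 hj hjm hcj => ?_
        by_cases hjp : j = p - m
        · subst hjp
          exact hj0 ⟨h2, hcj⟩
        · exact hun j h2 hj (by omega) hcj
  by_cases hip : i < p
  · exact Q p c hc hT i hip hi δ hiδ hnδ (fun j h2 hj hjm => by omega)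
  · exact C1 c hc hT i (by omega) hi δ hiδ hnδ

/-- **Tashkinov's theorem** (in the range where every vertex misses two colours): Tashkinov
sequences are elementary. -/
theorem tashkinov [Finite V] [Fintype κ] {e0 : E}
    (hnc : ∀ c : E → κ, ¬ G.ProperColouring c)
    (hm : ∀ c : E → κ, G.Proper e0 c → ∀ v, 2 ≤ (G.missSet e0 c v).card) :
    ∀ (p n : ℕ) (c : E → κ) (y : ℕ → V) (f : ℕ → E), G.Proper e0 c → G.IsTT e0 c n y f →
      G.Tail p n y f → G.Elem e0 c n y := by
  have hdisj : ∀ c : E → κ, G.Proper e0 c → ∀ u v, G.ends e0 = s(u, v) →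
      ∀ a, G.Miss e0 c u a → ¬ G.Miss e0 c v a := by
    intro c hc u v he a hu hv
    apply hnc (recol c e0 a)
    intro e g heg w hwe hwg
    have hw0 : ∀ w ∈ G.ends e0, G.Miss e0 c w a := by
      intro w hw
      rw [he, Sym2.mem_iff] at hw
      rcases hw with rfl | rfl
      · exact hu
      · exact hv
    by_cases h1 : e = e0
    · subst h1
      rw [recol_self, recol_ne c a (Ne.symm heg)]
      exact fun h => hw0 w hwe g (Ne.symm heg) hwg h.symm
    · rw [recol_ne c a h1]
      by_cases h2 : g = e0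
      · subst h2
        rw [recol_self]
        exact hw0 w hwg e h1 hwe
      · rw [recol_ne c a h2]
        exact hc e g h1 h2 heg w hwe hwg
  have hne : ∀ c : E → κ, G.Proper e0 c → ∀ v, ∃ a, G.Miss e0 c v a := by
    intro c hc v
    have := hm c hc v
    obtain ⟨a, ha⟩ := Finset.card_pos.1 (by omega : 0 < (G.missSet e0 c v).card)
    exact ⟨a, mem_missSet.1 ha⟩
  intro p
  induction p using Nat.strong_induction_on with
  | _ p ihp =>
    intro n
    induction n using Nat.strong_induction_on with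
    | _ n ihn =>
      intro c y f hc hT hTail
      have hE : ∀ m, 1 ≤ m → m < n → ∀ c' : E → κ, G.Proper e0 c' → G.IsTT e0 c' m y f →
          G.Elem e0 c' m y := fun m _ hmn c' hc' hT' =>
        ihn m hmn c' y f hc' hT' (hTail.restrict hmn.le)
      have hn1 := hT.one_le
      have key : ∀ i < n, ∀ a, G.Miss e0 c (y i) a → G.Miss e0 c (y n) a → False := by
        intro i hi a hia hna
        by_cases hpn : p ≤ n
        · by_cases hp2 : 2 ≤ p
          · obtain ⟨r, hr, hfr⟩ := hT.att p hp2 hpn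
            by_cases hr1 : r = p - 1
            · subst hr1
              have hTail' : G.Tail (p - 1) n y f := by
                intro j h1 h2 h3
                by_cases hjp : j = p
                · subst hjp; exact hfr
                · exact hTail j (by omega) h2 h3
              have := ihp (p - 1) (by omega) n c y f hc hT hTail' i n hi.le le_rfl a hia hna
              omega
            · exact step_main hdisj hm hp2 hpn hTail hE (fun p' hp' n' c' y' f' =>
                ihp p' hp' n' c' y' f') (r := r) (by omega) hfr hc hT hi hia hna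
          · have hTail0 : G.Tail 0 n y f := fun j h1 h2 h3 => hTail j (by omega) h2 h3
            exact caseI hdisj hne hTail0 hE _ i rfl (Nat.zero_le _) hi c hc hT a hia hna
        · have := ihp n (by omega) n c y f hc hT (fun j h1 _ h3 => by omega) i n hi.le le_rfl a
            hia hna
          omega
      intro i j hi hj a hia hja
      by_cases hin : i = n <;> by_cases hjn : j = n
      · rw [hin, hjn]
      · exact (key j (by omega) a hja (hin ▸ hia)).elim
      · exact (key i (by omega) a hia (hjn ▸ hja)).elim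
      · by_cases hn1' : n = 1
        · omega
        · exact hE (n - 1) (by omega) (by omega) c hc (hT.restrict (by omega) (by omega)) i j
            (by omega) (by omega) a hia hja

end Multigraph

end Pool.Agent.Lib.MP_7ce1ef_co
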