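import Mathlib
import Pool.Agent.Lib.MP_7ce1ef_co.Tashkinov
import Pool.Agent.Lib.MP_7ce1ef_co.Girth

/-!
# A longest Tashkinov sequence spans a ring
-/

set_option linter.unusedSectionVars false

namespace Pool.Agent.Lib.MP_7ce1ef_co

namespace Multigraph

variable {V E κ : Type} [Fintype V] [Fintype E] [Fintype κ] {G : Multigraph V E} {e0 : E}

open Classical in
/-- number of edges at `v` -/
noncomputable def dgr (G : Multigraph V E) (v : V) : ℕ :=
  (Finset.univ.filter fun e => v ∈ G.ends e).card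

open Classical in
/-- number of edges joining `u` and `v` -/
noncomputable def mlt (G : Multigraph V E) (u v : V) : ℕ :=
  (Finset.univ.filter fun e => G.ends e = s(u, v)).card

open Classical in
theorem missSet_card_ge {r : ℕ} (hdeg : ∀ v, G.dgr v + r ≤ Fintype.card κ) (c : E → κ) (v : V) :
    r + (if v ∈ G.ends e0 then 1 else 0) ≤ (G.missSet e0 c v).card := by
  have h1 : Fintype.card κ ≤ (G.missSet e0 c v).card
      + (Finset.univ.filter fun e => e ≠ e0 ∧ v ∈ G.ends e).card := by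
    have h2 : (Finset.univ : Finset κ) ⊆ G.missSet e0 c v
        ∪ (Finset.univ.filter fun e => e ≠ e0 ∧ v ∈ G.ends e).image c := by
      intro a _
      rw [Finset.mem_union, mem_missSet]
      by_cases hm : G.Miss e0 c v a
      · exact Or.inl hm
      · right
        unfold Miss at hm
        push Not at hm
        obtain ⟨e, he, hve, hce⟩ := hm
        rw [Finset.mem_image]
        exact ⟨e, Finset.mem_filter.2 ⟨Finset.mem_univ _, he, hve⟩, hce⟩
    calc Fintype.card κ = (Finset.univ : Finset κ).card := Finset.card_univ.symm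
      _ ≤ _ := Finset.card_le_card h2
      _ ≤ _ := Finset.card_union_le _ _
      _ ≤ _ := Nat.add_le_add_left Finset.card_image_le _
  have h3 := hdeg v
  unfold dgr at h3
  split_ifs with hv
  · have h4 : (Finset.univ.filter fun e => e ≠ e0 ∧ v ∈ G.ends e)
        = (Finset.univ.filter fun e => v ∈ G.ends e).erase e0 := by
      ext e
      simp only [Finset.mem_filter, Finset.mem_univ, true_and, Finset.mem_erase]
    have h5 : e0 ∈ (Finset.univ.filter fun e => v ∈ G.ends e) :=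
      Finset.mem_filter.2 ⟨Finset.mem_univ _, hv⟩
    rw [h4, Finset.card_erase_of_mem h5] at h1
    have : 0 < (Finset.univ.filter fun e => v ∈ G.ends e).card := Finset.card_pos.2 ⟨e0, h5⟩
    omega
  · have h4 : (Finset.univ.filter fun e => e ≠ e0 ∧ v ∈ G.ends e).card
        ≤ (Finset.univ.filter fun e => v ∈ G.ends e).card := by
      apply Finset.card_le_card
      intro e he
      rw [Finset.mem_filter] at he ⊢
      exact ⟨he.1, he.2.2⟩
    omega

/-- a Tashkinov sequence of maximum length over all colourings -/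
structure MaxTT (G : Multigraph V E) (e0 : E) (c : E → κ) (n : ℕ) (y : ℕ → V) (f : ℕ → E) :
    Prop where
  proper : G.Proper e0 c
  tt : G.IsTT e0 c n y f
  max : ∀ (n' : ℕ) (c' : E → κ) (y' : ℕ → V) (f' : ℕ → E), G.Proper e0 c' →
    G.IsTT e0 c' n' y' f' → n' ≤ n

theorem IsTT.lt_card {c : E → κ} {n : ℕ} {y : ℕ → V} {f : ℕ → E} (h : G.IsTT e0 c n y f) :
    n < Fintype.card V := by
  have h1 : (Finset.range (n + 1)).card ≤ (Finset.univ : Finset V).card := by
    refine Finset.card_le_card_of_injOn y (fun _ _ => Finset.mem_coe.2 (Finset.mem_univ _)) ?_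
    intro i hi j hj hh
    rw [Finset.mem_coe, Finset.mem_range] at hi hj
    exact h.inj i j (by omega) (by omega) hh
  rw [Finset.card_range, Finset.card_univ] at h1
  omega

theorem exists_maxTT {c : E → κ} (hc : G.Proper e0 c) :
    ∃ (n : ℕ) (c : E → κ) (y : ℕ → V) (f : ℕ → E), G.MaxTT e0 c n y f := by
  classical
  let P : ℕ → Prop := fun n => ∃ (c : E → κ) (y : ℕ → V) (f : ℕ → E), G.Proper e0 c ∧
    G.IsTT e0 c n y f
  have hP1 : P 1 := by
    obtain ⟨u, v, huv⟩ : ∃ u v, G.ends e0 = s(u, v) := by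
      induction h : G.ends e0 with
      | _ u v => exact ⟨u, v, rfl⟩
    have hne := G.ne_of_ends huv
    refine ⟨c, fun t => if t = 0 then u else v, fun _ => e0, hc, le_rfl, ?_, ?_, ?_, ?_, ?_⟩
    · intro i j hi hj hh
      by_cases h1 : i = 0 <;> by_cases h2 : j = 0
      · omega
      · rw [if_pos h1, if_neg h2] at hh; exact absurd hh hne
      · rw [if_neg h1, if_pos h2] at hh; exact absurd hh.symm hne
      · omega
    · simpa using huv
    · intro j h2 h1; omega
    · intro j h2 h1; omega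
    · intro j h2 h1; omega
  have hbd : ∀ n, P n → n ≤ Fintype.card V := by
    rintro n ⟨c, y, f, _, hT⟩
    exact hT.lt_card.le
  have hspec : P (Nat.findGreatest P (Fintype.card V)) :=
    Nat.findGreatest_spec (hbd 1 hP1) hP1
  obtain ⟨c', y, f, hc', hT⟩ := hspec
  refine ⟨_, c', y, f, hc', hT, ?_⟩
  intro n' c'' y' f' hc'' hT'
  exact Nat.le_findGreatest (hbd n' ⟨c'', y', f', hc'', hT'⟩) ⟨c'', y', f', hc'', hT'⟩

open Classical in
/-- vertex set of a sequence -/
noncomputable def XS (n : ℕ) (y : ℕ → V) : Finset V := (Finset.range (n + 1)).image y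

theorem mem_XS {n : ℕ} {y : ℕ → V} {v : V} : v ∈ XS n y ↔ ∃ i ≤ n, y i = v := by
  classical
  unfold XS
  rw [Finset.mem_image]
  constructor
  · rintro ⟨i, hi, hh⟩
    exact ⟨i, by have := Finset.mem_range.1 hi; omega, hh⟩
  · rintro ⟨i, hi, hh⟩
    exact ⟨i, Finset.mem_range.2 (by omega), hh⟩

theorem IsTT.card_XS {c : E → κ} {n : ℕ} {y : ℕ → V} {f : ℕ → E} (h : G.IsTT e0 c n y f) :
    (XS n y).card = n + 1 := by
  classical
  unfold XS
  rw [Finset.card_image_of_injOn, Finset.card_range]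
  intro i hi j hj hh
  rw [Finset.mem_coe, Finset.mem_range] at hi hj
  exact h.inj i j (by omega) (by omega) hh

/-- adding one vertex -/
theorem IsTT.extend {c : E → κ} {n : ℕ} {y : ℕ → V} {f : ℕ → E} (h : G.IsTT e0 c n y f)
    {e : E} (he : e ≠ e0) {u v : V} (hends : G.ends e = s(u, v)) (hu : u ∈ XS n y)
    (hv : v ∉ XS n y) (hm : ∃ x ∈ XS n y, G.Miss e0 c x (c e)) :
    G.IsTT e0 c (n + 1) (fun t => if t = n + 1 then v else y t)
      (fun t => if t = n + 1 then e else f t) := by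
  rw [mem_XS] at hu
  obtain ⟨i0, hi0, hi0u⟩ := hu
  obtain ⟨x, hx, hxm⟩ := hm
  rw [mem_XS] at hx
  obtain ⟨l0, hl0, hl0x⟩ := hx
  have hv' : ∀ i ≤ n, y i ≠ v := fun i hi hh => hv (mem_XS.2 ⟨i, hi, hh⟩)
  have h1 := h.one_le
  refine ⟨by omega, ?_, ?_, ?_, ?_, ?_⟩
  · intro i j hi hj hh
    by_cases h1 : i = n + 1 <;> by_cases h2 : j = n + 1
    · omega
    · rw [if_pos h1, if_neg h2] at hh
      exact absurd hh.symm (hv' j (by omega))
    · rw [if_neg h1, if_pos h2] at hh
      exact absurd hh (hv' i (by omega))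
    · rw [if_neg h1, if_neg h2] at hh
      exact h.inj i j (by omega) (by omega) hh
  · rw [if_neg (by omega), if_neg (by omega)]
    exact h.base
  · intro j h2 hj
    by_cases h1 : j = n + 1
    · rw [if_pos h1]; exact he
    · rw [if_neg h1]; exact h.ne j h2 (by omega)
  · intro j h2 hj
    by_cases h1 : j = n + 1
    · refine ⟨i0, by omega, ?_⟩
      rw [if_pos h1, if_pos h1, if_neg (by omega), hi0u]
      exact hends
    · obtain ⟨r', hr', hrj⟩ := h.att j h2 (by omega)
      refine ⟨r', hr', ?_⟩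
      rw [if_neg h1, if_neg h1, if_neg (by omega)]
      exact hrj
  · intro j h2 hj
    by_cases h1 : j = n + 1
    · refine ⟨l0, by omega, ?_⟩
      rw [if_pos h1, if_neg (by omega), hl0x]
      exact hxm
    · obtain ⟨l, hl, hlm⟩ := h.col j h2 (by omega)
      refine ⟨l, hl, ?_⟩
      rw [if_neg h1, if_neg (by omega)]
      exact hlm

/-- the vertex set of a longest sequence is closed -/
theorem MaxTT.closed {c : E → κ} {n : ℕ} {y : ℕ → V} {f : ℕ → E} (h : G.MaxTT e0 c n y f)
    {e : E} (he : e ≠ e0) {u v : V} (hends : G.ends e = s(u, v)) (hu : u ∈ XS n y)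
    (hm : ∃ x ∈ XS n y, G.Miss e0 c x (c e)) : v ∈ XS n y := by
  by_contra hv
  have := h.max _ _ _ _ h.proper (h.tt.extend he hends hu hv hm)
  omega

/-- what we use about the vertex set `X` of a longest sequence -/
structure Good (G : Multigraph V E) (e0 : E) (c : E → κ) (X : Finset V) : Prop where
  proper : G.Proper e0 c
  closed : ∀ e, e ≠ e0 → ∀ u v, G.ends e = s(u, v) → u ∈ X → (∃ x ∈ X, G.Miss e0 c x (c e)) →
    v ∈ X
  elem : ∀ u ∈ X, ∀ v ∈ X, ∀ a, G.Miss e0 c u a → G.Miss e0 c v a → u = v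
  base : ∀ v ∈ G.ends e0, v ∈ X

open Classical in
/-- number of edges from `v` to `X` -/
noncomputable def DX (G : Multigraph V E) (X : Finset V) (v : V) : ℕ :=
  (Finset.univ.filter fun e => ∃ u ∈ X, G.ends e = s(v, u)).card

theorem Good.card_DX {c : E → κ} {X : Finset V} (h : G.Good e0 c X) {r : ℕ}
    (hdeg : ∀ v, G.dgr v + r ≤ Fintype.card κ) {v : V} (hv : v ∈ X) :
    r * X.card + 2 ≤ G.DX X v + r := by
  classical
  obtain ⟨u0, v0, h0⟩ : ∃ u v, G.ends e0 = s(u, v) := by
    induction h : G.ends e0 with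
    | _ u v => exact ⟨u, v, rfl⟩
  have hne0 := G.ne_of_ends h0
  -- the sum of the weights
  have hsum : ∑ u ∈ X, (r + (if u ∈ G.ends e0 then 1 else 0)) = r * X.card + 2 := by
    rw [Finset.sum_add_distrib, Finset.sum_const, smul_eq_mul, mul_comm, ← Finset.card_filter]
    congr 1
    have : (X.filter fun u => u ∈ G.ends e0) = {u0, v0} := by
      ext u
      rw [Finset.mem_filter, Finset.mem_insert, Finset.mem_singleton, h0, Sym2.mem_iff]
      constructor
      · exact fun h => h.2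
      · intro hu
        refine ⟨h.base u ?_, hu⟩
        rw [h0, Sym2.mem_iff]; exact hu
    rw [this, Finset.card_pair hne0]
  have hsum2 := Finset.sum_erase_add X (fun u => r + (if u ∈ G.ends e0 then 1 else 0)) hv
  rw [hsum] at hsum2
  -- the colours missing elsewhere
  have hdis : ((X.erase v : Finset V) : Set V).PairwiseDisjoint (fun u => G.missSet e0 c u) := by
    intro u hu w hw huw
    rw [Function.onFun, Finset.disjoint_left]
    intro a hau haw
    rw [mem_missSet] at hau haw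
    exact huw (h.elem u (Finset.mem_of_mem_erase (Finset.mem_coe.1 hu)) w
      (Finset.mem_of_mem_erase (Finset.mem_coe.1 hw)) a hau haw)
  have hM : ∑ u ∈ X.erase v, (r + (if u ∈ G.ends e0 then 1 else 0))
      ≤ ((X.erase v).biUnion fun u => G.missSet e0 c u).card := by
    rw [Finset.card_biUnion hdis]
    exact Finset.sum_le_sum fun u _ => missSet_card_ge hdeg c u
  have hM2 : ((X.erase v).biUnion fun u => G.missSet e0 c u).card
      ≤ (Finset.univ.filter fun e => e ≠ e0 ∧ ∃ u ∈ X, G.ends e = s(v, u)).card := by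
    have : ((X.erase v).biUnion fun u => G.missSet e0 c u)
        ⊆ (Finset.univ.filter fun e => e ≠ e0 ∧ ∃ u ∈ X, G.ends e = s(v, u)).image c := by
      intro a ha
      rw [Finset.mem_biUnion] at ha
      obtain ⟨u, hu, hau⟩ := ha
      rw [mem_missSet] at hau
      have hnv : ¬ G.Miss e0 c v a := by
        intro hva
        have := h.elem u (Finset.mem_of_mem_erase hu) v hv a hau hva
        exact (Finset.ne_of_mem_erase hu) this
      unfold Miss at hnv
      push Not at hnv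
      obtain ⟨e, he, hve, hce⟩ := hnv
      obtain ⟨w, hw⟩ := Sym2.mem_iff_exists.1 hve
      rw [Finset.mem_image]
      refine ⟨e, Finset.mem_filter.2 ⟨Finset.mem_univ _, he, w, ?_, hw⟩, hce⟩
      exact h.closed e he v w hw hv ⟨u, Finset.mem_of_mem_erase hu, by rw [hce]; exact hau⟩
    exact (Finset.card_le_card this).trans Finset.card_image_le
  have hD : (Finset.univ.filter fun e => e ≠ e0 ∧ ∃ u ∈ X, G.ends e = s(v, u)).card
      + (if v ∈ G.ends e0 then 1 else 0) ≤ G.DX X v := by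
    unfold DX
    split_ifs with hv0
    · obtain ⟨w, hw⟩ := Sym2.mem_iff_exists.1 hv0
      have hwX : w ∈ X := h.base w (by rw [hw]; exact Sym2.mem_mk_right v w)
      have hmem : e0 ∈ (Finset.univ.filter fun e => ∃ u ∈ X, G.ends e = s(v, u)) :=
        Finset.mem_filter.2 ⟨Finset.mem_univ _, w, hwX, hw⟩
      have heq : (Finset.univ.filter fun e => e ≠ e0 ∧ ∃ u ∈ X, G.ends e = s(v, u))
          = (Finset.univ.filter fun e => ∃ u ∈ X, G.ends e = s(v, u)).erase e0 := by
        ext e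
        simp only [Finset.mem_filter, Finset.mem_univ, true_and, Finset.mem_erase]
      rw [heq, Finset.card_erase_of_mem hmem]
      have : 0 < (Finset.univ.filter fun e => ∃ u ∈ X, G.ends e = s(v, u)).card :=
        Finset.card_pos.2 ⟨e0, hmem⟩
      omega
    · rw [Nat.add_zero]
      apply Finset.card_le_card
      intro e he
      rw [Finset.mem_filter] at he ⊢
      exact ⟨he.1, he.2.2⟩
  omega

open Classical in
/-- neighbours of `v` in `X` -/
noncomputable def NX (G : Multigraph V E) (X : Finset V) (v : V) : Finset V :=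
  X.filter fun u => ∃ e, G.ends e = s(v, u)

theorem DX_le {X : Finset V} {μ : ℕ} (hμ : ∀ u v, G.mlt u v ≤ μ) (v : V) :
    G.DX X v ≤ (G.NX X v).card * μ := by
  classical
  unfold DX
  have h1 : (Finset.univ.filter fun e => ∃ u ∈ X, G.ends e = s(v, u))
      ⊆ (G.NX X v).biUnion fun u => Finset.univ.filter fun e => G.ends e = s(v, u) := by
    intro e he
    rw [Finset.mem_filter] at he
    obtain ⟨_, u, hu, hue⟩ := he
    rw [Finset.mem_biUnion]
    exact ⟨u, Finset.mem_filter.2 ⟨hu, e, hue⟩, Finset.mem_filter.2 ⟨Finset.mem_univ _, hue⟩⟩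
  refine (Finset.card_le_card h1).trans (Finset.card_biUnion_le.trans ?_)
  calc _ ≤ ∑ _u ∈ G.NX X v, μ := Finset.sum_le_sum fun u _ => hμ v u
    _ = _ := by rw [Finset.sum_const, smul_eq_mul]

/-- the simple graph induced on `X` -/
def SX (G : Multigraph V E) (X : Finset V) : SimpleGraph V where
  Adj u v := u ∈ X ∧ v ∈ X ∧ ∃ e, G.ends e = s(u, v)
  symm := ⟨fun u v ⟨h1, h2, e, he⟩ => ⟨h2, h1, e, by rw [he, Sym2.eq_swap]⟩⟩
  loopless := ⟨fun u ⟨_, _, e, he⟩ => G.loopless e (by rw [he]; exact Sym2.diag_isDiag u)⟩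

theorem SX_le (X : Finset V) : G.SX X ≤ G.simple := fun _ _ h => h.2.2

theorem girthGT_mono {Γ Γ' : SimpleGraph V} (h : Γ ≤ Γ') {s : ℕ} (hg : GirthGT Γ' s) :
    GirthGT Γ s := by
  intro v c hc
  have := hg v (c.mapLe h) ((SimpleGraph.Walk.isCycle_mapLe h).2 hc)
  simpa [SimpleGraph.Walk.mapLe] using this

theorem mem_NX {X : Finset V} {u v : V} : u ∈ G.NX X v ↔ u ∈ X ∧ ∃ e, G.ends e = s(v, u) := by
  classical
  unfold NX
  rw [Finset.mem_filter]

theorem MaxTT.good {c : E → κ} {n : ℕ} {y : ℕ → V} {f : ℕ → E} (h : G.MaxTT e0 c n y f)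
    (hnc : ∀ c : E → κ, ¬ G.ProperColouring c)
    (hm : ∀ c : E → κ, G.Proper e0 c → ∀ v, 2 ≤ (G.missSet e0 c v).card) :
    G.Good e0 c (XS n y) where
  proper := h.proper
  closed e he u v hends hu hx := h.closed he hends hu hx
  elem u hu v hv a ha hb := by
    rw [mem_XS] at hu hv
    obtain ⟨i, hi, rfl⟩ := hu
    obtain ⟨j, hj, rfl⟩ := hv
    have := tashkinov hnc hm n n c y f h.proper h.tt (fun j h1 _ h2 => by omega) i j hi hj a ha hb
    rw [this]
  base v hv := by
    rw [h.tt.base, Sym2.mem_iff] at hv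
    have h1 := h.tt.one_le
    rw [mem_XS]
    rcases hv with rfl | rfl
    · exact ⟨0, by omega, rfl⟩
    · exact ⟨1, h1, rfl⟩

/-- all simple degrees inside `X` are two -/
theorem Good.degrees {c : E → κ} {X : Finset V} (h : G.Good e0 c X) {r s μ : ℕ} (hr : 2 ≤ r)
    (hs : 2 ≤ s) (hdeg : ∀ v, G.dgr v + r ≤ Fintype.card κ) (hμ : ∀ u v, G.mlt u v ≤ μ)
    (hμs : μ ≤ (r + 1) * s) (hg : GirthGT G.simple s) (hX : 2 * s + 1 ≤ X.card) :
    (∀ v ∈ X, (G.NX X v).card = 2) ∧ r * X.card + 2 ≤ 2 * μ + r := by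
  classical
  have hgX : GirthGT (G.SX X) s := girthGT_mono (SX_le X) hg
  have hD : ∀ v ∈ X, r * X.card + 2 ≤ (G.NX X v).card * μ + r := by
    intro v hv
    have h1 := h.card_DX hdeg hv
    have h2 := DX_le (X := X) hμ v
    omega
  have hadj : ∀ w u, (G.SX X).Adj w u ↔ w ∈ X ∧ u ∈ G.NX X w := by
    intro w u
    rw [mem_NX]
    exact Iff.rfl
  have hXn : ∀ w u, (G.SX X).Adj w u → w ∈ X := fun w u h => h.1
  -- minimum degree two
  have hd2 : ∀ v ∈ X, 2 ≤ (G.NX X v).card := by
    intro v hv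
    by_contra hlt
    push Not at hlt
    have h1 := hD v hv
    have h2 : (G.NX X v).card * μ ≤ 1 * μ := Nat.mul_le_mul_right _ (by omega)
    have h3 : r * (2 * s + 1) ≤ r * X.card := Nat.mul_le_mul_left _ hX
    have h4 : 2 * s ≤ r * s := Nat.mul_le_mul_right _ hr
    nlinarith
  have h2 : ∀ w u, (G.SX X).Adj w u → ∃ x, x ≠ u ∧ (G.SX X).Adj w x := by
    intro w u hwu
    have h1c : 1 < (G.NX X w).card := by have := hd2 w hwu.1; omega
    obtain ⟨x, hx, hxu⟩ := Finset.exists_mem_ne h1c u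
    exact ⟨x, hxu, (hadj w x).2 ⟨hwu.1, hx⟩⟩
  -- some degree is two
  have hex : ∃ v ∈ X, (G.NX X v).card = 2 := by
    by_contra hno
    push Not at hno
    have hd3 : ∀ v ∈ X, 3 ≤ (G.NX X v).card := by
      intro v hv
      have := hd2 v hv
      have := hno v hv
      omega
    have h3 : ∀ w u, (G.SX X).Adj w u → ∃ x x', x ≠ x' ∧ x ≠ u ∧ x' ≠ u ∧
        (G.SX X).Adj w x ∧ (G.SX X).Adj w x' := by
      intro w u hwu
      have h4 : 1 < ((G.NX X w).erase u).card := by
        have h5 := Finset.pred_card_le_card_erase (s := G.NX X w) (a := u)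
        have := hd3 w hwu.1
        omega
      rw [Finset.one_lt_card] at h4
      obtain ⟨x, hx, x', hx', hne⟩ := h4
      rw [Finset.mem_erase] at hx hx'
      exact ⟨x, x', hne, hx.1, hx'.1, (hadj w x).2 ⟨hwu.1, hx.2⟩, (hadj w x').2 ⟨hwu.1, hx'.2⟩⟩
    obtain ⟨v, hv⟩ := Finset.card_pos.1 (by omega : 0 < X.card)
    have h4 := card_ge_three (by omega : 1 ≤ s) hgX h3 X hXn hv (G.NX X v)
      (fun a ha => (hadj v a).2 ⟨hv, ha⟩)
    have h5 := hD v hv
    set d := (G.NX X v).card with hd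
    obtain ⟨s', rfl⟩ : ∃ s', s = s' + 2 := ⟨s - 2, by omega⟩
    obtain ⟨r', rfl⟩ : ∃ r', r = r' + 2 := ⟨r - 2, by omega⟩
    have e1 : 2 * (s' + 2) - 1 = 2 * s' + 3 := by omega
    rw [e1] at h4
    have h6 : (r' + 2) * (d * (2 * s' + 3) + 1) ≤ (r' + 2) * X.card := Nat.mul_le_mul_left _ h4
    have h7 : d * μ ≤ d * ((r' + 2 + 1) * (s' + 2)) := Nat.mul_le_mul_left _ hμs
    have h8 : (r' + 2 + 1) * (s' + 2) ≤ (r' + 2) * (2 * s' + 3) := by nlinarith
    have h9 : d * ((r' + 2 + 1) * (s' + 2)) ≤ d * ((r' + 2) * (2 * s' + 3)) :=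
      Nat.mul_le_mul_left _ h8
    nlinarith
  obtain ⟨v1, hv1, hv1d⟩ := hex
  have hN := hD v1 hv1
  rw [hv1d] at hN
  refine ⟨fun v hv => ?_, hN⟩
  have h3 := hd2 v hv
  by_contra hne
  have h4 : 3 ≤ (G.NX X v).card := by omega
  have h5 := card_ge_two hgX h2 X hXn hv (G.NX X v) (fun a ha => (hadj v a).2 ⟨hv, ha⟩)
  have h6 : 3 * s ≤ (G.NX X v).card * s := Nat.mul_le_mul_right _ h4
  have h7 : r * (3 * s + 1) ≤ r * X.card := Nat.mul_le_mul_left _ (by omega)
  have h8 : 2 * s ≤ r * s := Nat.mul_le_mul_right _ hr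
  nlinarith

/-- the two-coloured odd cycle through `e0` -/
structure TwoCol (G : Multigraph V E) (e0 : E) (c : E → κ) (X : Finset V) (α β : κ) (L : ℕ)
    (z : ℕ → V) (g : ℕ → E) : Prop where
  two_le : 2 ≤ L
  missα : G.Miss e0 c (z 0) α
  missβ : G.Miss e0 c (z L) β
  base : G.ends e0 = s(z 0, z L)
  ne : ∀ i < L, g i ≠ e0
  col : ∀ i < L, c (g i) = α ∨ c (g i) = β
  ends : ∀ i < L, G.ends (g i) = s(z i, z (i + 1))
  inj : ∀ i j, i ≤ L → j ≤ L → z i = z j → i = j
  mem : ∀ i ≤ L, z i ∈ X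

theorem MaxTT.exists_twoCol {c : E → κ} {n : ℕ} {y : ℕ → V} {f : ℕ → E}
    (h : G.MaxTT e0 c n y f) (hnc : ∀ c : E → κ, ¬ G.ProperColouring c)
    (hm : ∀ c : E → κ, G.Proper e0 c → ∀ v, 2 ≤ (G.missSet e0 c v).card)
    {s : ℕ} (hg : GirthGT G.simple s) :
    ∃ α β L z g, G.TwoCol e0 c (XS n y) α β L z g ∧ 2 * s ≤ L := by
  have hgood := h.good hnc hm
  have h1 := h.tt.one_le
  obtain ⟨α, hα⟩ := Finset.card_pos.1 (by have := hm c h.proper (y 0); omega :
    0 < (G.missSet e0 c (y 0)).card)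
  obtain ⟨β, hβ⟩ := Finset.card_pos.1 (by have := hm c h.proper (y 1); omega :
    0 < (G.missSet e0 c (y 1)).card)
  rw [mem_missSet] at hα hβ
  have hreach : (G.KG e0 c α β).Reachable (y 0) (y 1) :=
    claimA (fun c' hc' hT' => tashkinov hnc hm 1 1 c' y f hc' hT' (fun j h1 _ h2 => by omega))
      h.proper (h.tt.restrict le_rfl h1) (by omega) hα hβ (fun j h2 hj => by omega)
  obtain ⟨p, hp⟩ := hreach.exists_isPath
  have hy01 : y 0 ≠ y 1 := G.ne_of_ends h.tt.base
  have hnadj : ¬ (G.KG e0 c α β).Adj (y 0) (y 1) := by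
    rintro ⟨e, he, hce, hends⟩
    rcases hce with hce | hce
    · exact hα e he (G.mem_ends_left hends) hce
    · exact hβ e he (G.mem_ends_right hends) hce
  have hedge : ∀ t, t < p.length → ∃ e, e ≠ e0 ∧ (c e = α ∨ c e = β) ∧
      G.ends e = s(p.getVert t, p.getVert (t + 1)) := fun t ht => p.adj_getVert_succ ht
  have : Nonempty E := ⟨e0⟩
  choose! g hg' using hedge
  have hX0 : y 0 ∈ XS n y := mem_XS.2 ⟨0, by omega, rfl⟩
  have hX1 : y 1 ∈ XS n y := mem_XS.2 ⟨1, h1, rfl⟩
  have hmem : ∀ i, i ≤ p.length → p.getVert i ∈ XS n y := by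
    intro i
    induction i with
    | zero => intro _; rw [SimpleGraph.Walk.getVert_zero]; exact hX0
    | succ i ih =>
      intro hi
      obtain ⟨he, hce, hends⟩ := hg' i (by omega)
      refine hgood.closed _ he _ _ hends (ih (by omega)) ?_
      rcases hce with hce | hce
      · exact ⟨y 0, hX0, by rw [hce]; exact hα⟩
      · exact ⟨y 1, hX1, by rw [hce]; exact hβ⟩
  have hlen0 : p.length ≠ 0 := by
    intro h0
    rw [SimpleGraph.Walk.length_eq_zero_iff] at h0
    exact hy01 h0.eq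
  have hlen1 : p.length ≠ 1 := by
    intro h0
    exact hnadj (SimpleGraph.Walk.adj_of_length_eq_one h0)
  -- the cycle
  have hKle : G.KG e0 c α β ≤ G.simple := by
    rintro a b ⟨e, _, _, he⟩
    exact ⟨e, he⟩
  have hadj10 : G.simple.Adj (y 1) (y 0) := ⟨e0, by rw [h.tt.base, Sym2.eq_swap]⟩
  have hcyc : (SimpleGraph.Walk.cons hadj10 (p.mapLe hKle)).IsCycle := by
    rw [SimpleGraph.Walk.cons_isCycle_iff]
    refine ⟨(SimpleGraph.Walk.isPath_mapLe hKle).2 hp, fun hmem => ?_⟩
    rw [SimpleGraph.Walk.edges_mapLe_eq_edges] at hmem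
    exact hnadj (p.adj_of_mem_edges hmem).symm
  have hlen := hg _ _ hcyc
  rw [SimpleGraph.Walk.length_cons, SimpleGraph.Walk.mapLe, SimpleGraph.Walk.length_map] at hlen
  refine ⟨α, β, p.length, p.getVert, g, ⟨by omega, ?_, ?_, ?_, ?_, ?_, ?_, ?_, ?_⟩, by omega⟩
  · rw [SimpleGraph.Walk.getVert_zero]; exact hα
  · rw [SimpleGraph.Walk.getVert_length]; exact hβ
  · rw [SimpleGraph.Walk.getVert_zero, SimpleGraph.Walk.getVert_length]; exact h.tt.base
  · exact fun i hi => (hg' i hi).1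
  · exact fun i hi => (hg' i hi).2.1
  · exact fun i hi => (hg' i hi).2.2
  · intro i j hi hj hh
    have m1 : i ∈ {t : ℕ | t ≤ p.length} := hi
    have m2 : j ∈ {t : ℕ | t ≤ p.length} := hj
    exact hp.getVert_injOn m1 m2 hh
  · exact hmem

end Multigraph

end Pool.Agent.Lib.MP_7ce1ef_co
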