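import Mathlib
import Pool.Agent.Lib.MP_7ce1ef_co.Closed

/-!
# Every colour covers all but one vertex of the ring
-/

set_option linter.unusedSectionVars false

namespace Pool.Agent.Lib.MP_7ce1ef_co

/-- cyclic adjacency on `0, …, L` -/
def CAdj (L i j : ℕ) : Prop := j = i + 1 ∨ i = j + 1 ∨ (i = 0 ∧ j = L) ∨ (i = L ∧ j = 0)

/-- a finite set with a fixed-point-free involution has even size -/
theorem even_card_of_inv {V : Type} (S : Finset V) (p : V → V) (h1 : ∀ v ∈ S, p v ∈ S)
    (h2 : ∀ v ∈ S, p v ≠ v) (h3 : ∀ v ∈ S, p (p v) = v) : Even S.card := by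
  have h : ∑ _v ∈ S, (1 : ZMod 2) = 0 := by
    refine Finset.sum_involution (fun v _ => p v) ?_ ?_ ?_ ?_
    · intro a _; decide
    · intro a ha _; exact h2 a ha
    · intro a ha; exact h1 a ha
    · intro a ha; exact h3 a ha
  rw [Finset.sum_const, nsmul_eq_mul, mul_one] at h
  rw [← ZMod.natCast_eq_zero_iff_even]
  exact h

namespace Multigraph

variable {V E κ : Type} [Fintype V] [Fintype E] [Fintype κ] {G : Multigraph V E} {e0 : E}

/-- two neighbours on the cycle -/
theorem TwoCol.two_nbrs {c : E → κ} {X : Finset V} {α β : κ} {L : ℕ} {z : ℕ → V} {g : ℕ → E}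
    (h : G.TwoCol e0 c X α β L z g) {i : ℕ} (hi : i ≤ L) :
    ∃ a ≤ L, ∃ b ≤ L, a ≠ b ∧ (∀ j, j ≤ L → (CAdj L i j ↔ j = a ∨ j = b)) ∧
      (∃ e, G.ends e = s(z i, z a)) ∧ (∃ e, G.ends e = s(z i, z b)) := by
  have h2 := h.two_le
  unfold CAdj
  by_cases h0 : i = 0
  · subst h0
    refine ⟨1, by omega, L, le_rfl, by omega, fun j hj => by omega, ⟨g 0, h.ends 0 (by omega)⟩,
      ⟨e0, h.base⟩⟩
  · by_cases hL : i = L
    · subst hL
      refine ⟨i - 1, by omega, 0, by omega, by omega, fun j hj => by omega, ⟨g (i - 1), ?_⟩,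
        ⟨e0, by rw [h.base, Sym2.eq_swap]⟩⟩
      have := h.ends (i - 1) (by omega)
      rw [show i - 1 + 1 = i by omega] at this
      rw [this, Sym2.eq_swap]
    · refine ⟨i - 1, by omega, i + 1, by omega, by omega, fun j hj => by omega,
        ⟨g (i - 1), ?_⟩, ⟨g i, h.ends i (by omega)⟩⟩
      have := h.ends (i - 1) (by omega)
      rw [show i - 1 + 1 = i by omega] at this
      rw [this, Sym2.eq_swap]

theorem TwoCol.NX_eq {c : E → κ} {X : Finset V} {α β : κ} {L : ℕ} {z : ℕ → V} {g : ℕ → E}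
    (h : G.TwoCol e0 c X α β L z g) (hd : ∀ v ∈ X, (G.NX X v).card = 2) {i : ℕ} (hi : i ≤ L)
    {u : V} : u ∈ G.NX X (z i) ↔ ∃ j ≤ L, CAdj L i j ∧ z j = u := by
  classical
  obtain ⟨a, ha, b, hb, hab, hadj, ea, eb⟩ := h.two_nbrs hi
  have hsub : ({z a, z b} : Finset V) ⊆ G.NX X (z i) := by
    intro x hx
    rw [Finset.mem_insert, Finset.mem_singleton] at hx
    rw [mem_NX]
    rcases hx with rfl | rfl
    · exact ⟨h.mem a ha, ea⟩
    · exact ⟨h.mem b hb, eb⟩
  have hne : z a ≠ z b := fun hh => hab (h.inj a b ha hb hh)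
  have heq := Finset.eq_of_subset_of_card_le hsub
    (by rw [Finset.card_pair hne, hd _ (h.mem i hi)])
  rw [← heq, Finset.mem_insert, Finset.mem_singleton]
  constructor
  · rintro (rfl | rfl)
    · exact ⟨a, ha, (hadj a ha).2 (Or.inl rfl), rfl⟩
    · exact ⟨b, hb, (hadj b hb).2 (Or.inr rfl), rfl⟩
  · rintro ⟨j, hj, hc, rfl⟩
    rcases (hadj j hj).1 hc with rfl | rfl
    · exact Or.inl rfl
    · exact Or.inr rfl

/-- the longest sequence lives on the cycle -/
theorem TwoCol.span {c : E → κ} {α β : κ} {L : ℕ} {z : ℕ → V} {g : ℕ → E}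
    {n : ℕ} {y : ℕ → V} {f : ℕ → E} (hT : G.IsTT e0 c n y f)
    (h : G.TwoCol e0 c (XS n y) α β L z g) (hd : ∀ v ∈ XS n y, (G.NX (XS n y) v).card = 2) :
    (∀ j ≤ n, ∃ i ≤ L, z i = y j) ∧ n = L := by
  classical
  have hall : ∀ j, j ≤ n → ∃ i ≤ L, z i = y j := by
    intro j
    induction j using Nat.strong_induction_on with
    | _ j ih =>
      intro hj
      by_cases h2 : 2 ≤ j
      · obtain ⟨r, hr, hends⟩ := hT.att j h2 hj
        obtain ⟨i, hi, hir⟩ := ih r hr (by omega)
        have hmem : y j ∈ G.NX (XS n y) (z i) := by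
          rw [mem_NX, hir]
          exact ⟨mem_XS.2 ⟨j, hj, rfl⟩, f j, hends⟩
        obtain ⟨j', hj', -, hz⟩ := (h.NX_eq hd hi).1 hmem
        exact ⟨j', hj', hz⟩
      · have hmem : y j ∈ G.ends e0 := by
          rw [hT.base, Sym2.mem_iff]
          rcases (by omega : j = 0 ∨ j = 1) with rfl | rfl
          · exact Or.inl rfl
          · exact Or.inr rfl
        rw [h.base, Sym2.mem_iff] at hmem
        rcases hmem with hm | hm
        · exact ⟨0, by omega, hm.symm⟩
        · exact ⟨L, le_rfl, hm.symm⟩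
  refine ⟨hall, ?_⟩
  have h1 : (XS n y).card = n + 1 := hT.card_XS
  have h2 : XS n y = (Finset.range (L + 1)).image z := by
    ext v
    rw [mem_XS, Finset.mem_image]
    constructor
    · rintro ⟨j, hj, rfl⟩
      obtain ⟨i, hi, hh⟩ := hall j hj
      exact ⟨i, Finset.mem_range.2 (by omega), hh⟩
    · rintro ⟨i, hi, rfl⟩
      exact mem_XS.1 (h.mem i (by have := Finset.mem_range.1 hi; omega))
  rw [h2, Finset.card_image_of_injOn, Finset.card_range] at h1
  · omega
  · intro i hi j hj hh
    rw [Finset.mem_coe, Finset.mem_range] at hi hj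
    exact h.inj i j (by omega) (by omega) hh

/-! ### covered vertices -/

open Classical in
/-- edges of colour `a` inside `X`, without `e0` -/
noncomputable def InE (G : Multigraph V E) (e0 : E) (c : E → κ) (X : Finset V) (a : κ) :
    Finset E := Finset.univ.filter fun e => e ≠ e0 ∧ c e = a ∧ ∀ v ∈ G.ends e, v ∈ X

open Classical in
/-- vertices of `X` covered by an edge of colour `a` inside `X` -/
noncomputable def Cov (G : Multigraph V E) (e0 : E) (c : E → κ) (X : Finset V) (a : κ) :
    Finset V := X.filter fun v => ∃ e ∈ G.InE e0 c X a, v ∈ G.ends e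

theorem mem_InE {c : E → κ} {X : Finset V} {a : κ} {e : E} :
    e ∈ G.InE e0 c X a ↔ e ≠ e0 ∧ c e = a ∧ ∀ v ∈ G.ends e, v ∈ X := by
  classical
  unfold InE
  rw [Finset.mem_filter]
  exact ⟨fun h => h.2, fun h => ⟨Finset.mem_univ _, h⟩⟩

theorem mem_Cov {c : E → κ} {X : Finset V} {a : κ} {v : V} :
    v ∈ G.Cov e0 c X a ↔ v ∈ X ∧ ∃ e ∈ G.InE e0 c X a, v ∈ G.ends e := by
  classical
  unfold Cov
  rw [Finset.mem_filter]

theorem ends_toFinset_card [DecidableEq V] (e : E) : (G.ends e).toFinset.card = 2 :=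
  Sym2.card_toFinset_of_not_isDiag _ (G.loopless e)

theorem card_Cov {c : E → κ} (hc : G.Proper e0 c) (X : Finset V) (a : κ) :
    (G.Cov e0 c X a).card = 2 * (G.InE e0 c X a).card := by
  classical
  have h1 : G.Cov e0 c X a = (G.InE e0 c X a).biUnion fun e => (G.ends e).toFinset := by
    ext v
    rw [mem_Cov, Finset.mem_biUnion]
    constructor
    · rintro ⟨_, e, he, hv⟩
      exact ⟨e, he, Sym2.mem_toFinset.2 hv⟩
    · rintro ⟨e, he, hv⟩
      rw [Sym2.mem_toFinset] at hv
      exact ⟨(mem_InE.1 he).2.2 v hv, e, he, hv⟩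
  rw [h1, Finset.card_biUnion]
  · rw [Finset.sum_congr rfl fun e _ => ends_toFinset_card (G := G) e, Finset.sum_const,
      smul_eq_mul, mul_comm]
  · intro e he f hf hef
    rw [Function.onFun, Finset.disjoint_left]
    intro v hve hvf
    rw [Sym2.mem_toFinset] at hve hvf
    have he' := mem_InE.1 he
    have hf' := mem_InE.1 hf
    exact hc e f he'.1 hf'.1 hef v hve hvf (he'.2.1.trans hf'.2.1.symm)

/-- a colour missing at a vertex of `X` covers everything else -/
theorem Good.cov_of_miss {c : E → κ} {X : Finset V} (h : G.Good e0 c X) {x : V} (hx : x ∈ X)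
    {a : κ} (ha : G.Miss e0 c x a) : ∀ v ∈ X, v ≠ x → v ∈ G.Cov e0 c X a := by
  intro v hv hvx
  have hnv : ¬ G.Miss e0 c v a := fun hva => hvx (h.elem v hv x hx a hva ha)
  unfold Miss at hnv
  push Not at hnv
  obtain ⟨e, he, hve, hce⟩ := hnv
  obtain ⟨w, hw⟩ := Sym2.mem_iff_exists.1 hve
  rw [mem_Cov]
  refine ⟨hv, e, mem_InE.2 ⟨he, hce, ?_⟩, hve⟩
  intro u hu
  rw [hw, Sym2.mem_iff] at hu
  rcases hu with rfl | rfl
  · exact hv
  · exact h.closed e he v u hw hv ⟨x, hx, by rw [hce]; exact ha⟩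

theorem Good.odd_card {c : E → κ} {X : Finset V} (h : G.Good e0 c X) {x : V} (hx : x ∈ X)
    {a : κ} (ha : G.Miss e0 c x a) : ∃ m, X.card = 2 * m + 1 := by
  classical
  have h1 : G.Cov e0 c X a = X.erase x := by
    ext v
    rw [Finset.mem_erase]
    constructor
    · intro hv
      rw [mem_Cov] at hv
      refine ⟨?_, hv.1⟩
      rintro rfl
      obtain ⟨_, e, he, hve⟩ := hv
      have he' := mem_InE.1 he
      exact ha e he'.1 hve he'.2.1
    · rintro ⟨hvx, hv⟩
      exact h.cov_of_miss hx ha v hv hvx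
  have h2 := card_Cov (G := G) h.proper X a
  rw [h1, Finset.card_erase_of_mem hx] at h2
  have : 0 < X.card := Finset.card_pos.2 ⟨x, hx⟩
  exact ⟨(G.InE e0 c X a).card, by omega⟩

/-- index shift used to walk around the cycle starting with `e0` -/
def sg (L t : ℕ) : ℕ := if t = 0 then 0 else if t = 1 then L else t - 1

/-- walking along the cycle is a Tashkinov sequence for every colouring which agrees with `c` on
the two colours -/
theorem TwoCol.isTT {c c' : E → κ} {X : Finset V} {α β : κ} {L : ℕ} {z : ℕ → V} {g : ℕ → E}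
    (h : G.TwoCol e0 c X α β L z g) (hcol : ∀ i < L, c' (g i) = c (g i))
    (hα : G.Miss e0 c' (z 0) α) (hβ : G.Miss e0 c' (z L) β) :
    G.IsTT e0 c' L (fun t => z (sg L t)) (fun t => g (t - 2)) := by
  have h2 := h.two_le
  refine ⟨by omega, ?_, ?_, ?_, ?_, ?_⟩
  · intro i j hi hj hh
    have h1 := h.inj (sg L i) (sg L j) (by unfold sg; split_ifs <;> omega)
      (by unfold sg; split_ifs <;> omega) hh
    unfold sg at h1
    split_ifs at h1 <;> omega
  · have e1 : sg L 0 = 0 := by unfold sg; rw [if_pos rfl]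
    have e2 : sg L 1 = L := by unfold sg; rw [if_neg (by omega), if_pos rfl]
    simp only [e1, e2]
    exact h.base
  · intro j h2 hj
    exact h.ne (j - 2) (by omega)
  · intro j h2 hj
    have hends := h.ends (j - 2) (by omega)
    have e1 : sg L j = j - 2 + 1 := by
      unfold sg; rw [if_neg (by omega), if_neg (by omega)]; omega
    by_cases h3 : j = 2
    · refine ⟨0, by omega, ?_⟩
      have e2 : sg L 0 = j - 2 := by unfold sg; rw [if_pos rfl]; omega
      simp only [e1, e2]
      exact hends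
    · refine ⟨j - 1, by omega, ?_⟩
      have e2 : sg L (j - 1) = j - 2 := by
        unfold sg; rw [if_neg (by omega), if_neg (by omega)]; omega
      simp only [e1, e2]
      exact hends
  · intro j h2 hj
    have hlt : j - 2 < L := by omega
    rcases h.col (j - 2) hlt with hc | hc
    · refine ⟨0, by omega, ?_⟩
      have e1 : sg L 0 = 0 := by unfold sg; rw [if_pos rfl]
      simp only [e1, hcol _ hlt, hc]
      exact hα
    · refine ⟨1, by omega, ?_⟩
      have e1 : sg L 1 = L := by unfold sg; rw [if_neg (by omega), if_pos rfl]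
      simp only [e1, hcol _ hlt, hc]
      exact hβ

theorem XS_sg {L : ℕ} {z : ℕ → V} (hL : 2 ≤ L) {v : V} :
    v ∈ XS L (fun t => z (sg L t)) ↔ ∃ i ≤ L, z i = v := by
  rw [mem_XS]
  constructor
  · rintro ⟨t, ht, hh⟩
    exact ⟨sg L t, by unfold sg; split_ifs <;> omega, hh⟩
  · rintro ⟨i, hi, hh⟩
    by_cases h0 : i = 0
    · refine ⟨0, by omega, ?_⟩
      have e1 : sg L 0 = i := by unfold sg; rw [if_pos rfl]; omega
      simp only [e1]; exact hh
    · by_cases h1 : i = L
      · refine ⟨1, by omega, ?_⟩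
        have e1 : sg L 1 = i := by unfold sg; rw [if_neg (by omega), if_pos rfl]; omega
        simp only [e1]; exact hh
      · refine ⟨i + 1, by omega, ?_⟩
        have e1 : sg L (i + 1) = i := by
          unfold sg; rw [if_neg (by omega), if_neg (by omega)]; omega
        simp only [e1]; exact hh

/-- the graph of the colours `a`, `b` outside `X` -/
def KO (G : Multigraph V E) (e0 : E) (c : E → κ) (a b : κ) (X : Finset V) : SimpleGraph V where
  Adj u v := u ∉ X ∧ v ∉ X ∧ (G.KG e0 c a b).Adj u v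
  symm := ⟨fun _ _ ⟨h1, h2, h3⟩ => ⟨h2, h1, h3.symm⟩⟩
  loopless := ⟨fun u ⟨_, _, h⟩ => (G.KG e0 c a b).loopless.irrefl u h⟩

theorem KO_reach_not_mem {c : E → κ} {a b : κ} {X : Finset V} {u v : V}
    (h : (G.KO e0 c a b X).Reachable u v) (hu : u ∉ X) : v ∉ X := by
  obtain ⟨p⟩ := h
  induction p with
  | nil => exact hu
  | cons hadj _ ih => exact ih hadj.2.1

/-- **every colour covers all but at most one vertex** -/
theorem MaxTT.cov_card {c : E → κ} {n : ℕ} {y : ℕ → V} {f : ℕ → E}
    (h : G.MaxTT e0 c n y f) (hgood : G.Good e0 c (XS n y)) {α β : κ} {L : ℕ} {z : ℕ → V}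
    {g : ℕ → E} (htc : G.TwoCol e0 c (XS n y) α β L z g)
    (hd : ∀ v ∈ XS n y, (G.NX (XS n y) v).card = 2)
    (hm : ∀ v, 2 ≤ (G.missSet e0 c v).card) (δ : κ) :
    (XS n y).card ≤ (G.Cov e0 c (XS n y) δ).card + 1 := by
  classical
  obtain ⟨hspan, hnL⟩ := htc.span h.tt hd
  set X := XS n y with hX
  have hL2 := htc.two_le
  have hz0 : z 0 ∈ X := htc.mem 0 (by omega)
  have hzL : z L ∈ X := htc.mem L le_rfl
  by_cases hδ : ∃ x ∈ X, G.Miss e0 c x δ
  · obtain ⟨x, hx, hxδ⟩ := hδ
    have h1 : X.erase x ⊆ G.Cov e0 c X δ := by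
      intro v hv
      rw [Finset.mem_erase] at hv
      exact hgood.cov_of_miss hx hxδ v hv.2 hv.1
    have h2 := Finset.card_le_card h1
    rw [Finset.card_erase_of_mem hx] at h2
    omega
  push Not at hδ
  by_contra hlt
  push Not at hlt
  obtain ⟨m, hm2⟩ := hgood.odd_card hz0 htc.missα
  have hcov := card_Cov (G := G) hgood.proper X δ
  have hsub : G.Cov e0 c X δ ⊆ X := fun v hv => (mem_Cov.1 hv).1
  have hcardD : (X \ G.Cov e0 c X δ).card = X.card - (G.Cov e0 c X δ).card :=
    Finset.card_sdiff_of_subset hsub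
  set D := X \ G.Cov e0 c X δ with hD
  have hodd : ¬ Even D.card := by
    rw [hcardD, hcov, hm2, Nat.not_even_iff_odd]
    rw [hcov, hm2] at hlt
    exact ⟨m - (G.InE e0 c X δ).card, by omega⟩
  -- outer edges
  have hout : ∀ v ∈ D, ∃ (e : E) (w : V), e ≠ e0 ∧ c e = δ ∧ G.ends e = s(v, w) ∧ w ∉ X := by
    intro v hv
    rw [hD, Finset.mem_sdiff] at hv
    have hnv := hδ v hv.1
    unfold Miss at hnv
    push Not at hnv
    obtain ⟨e, he, hve, hce⟩ := hnv
    obtain ⟨w, hw⟩ := Sym2.mem_iff_exists.1 hve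
    refine ⟨e, w, he, hce, hw, fun hwX => hv.2 ?_⟩
    rw [mem_Cov]
    refine ⟨hv.1, e, mem_InE.2 ⟨he, hce, ?_⟩, hve⟩
    intro u hu
    rw [hw, Sym2.mem_iff] at hu
    rcases hu with rfl | rfl
    · exact hv.1
    · exact hwX
  have : Nonempty E := ⟨e0⟩
  have : Nonempty V := ⟨z 0⟩
  choose! ed w hed0 hedc hede hwX using hout
  have hDX : ∀ v ∈ D, v ∈ X := fun v hv => (Finset.mem_sdiff.1 hv).1
  -- uniqueness of the outer edge
  have huniq : ∀ v ∈ D, ∀ e, e ≠ e0 → c e = δ → ∀ x, x ∈ G.ends e → x ∈ G.ends (ed v) →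
      e = ed v := by
    intro v hv e he hce x hxe hxv
    by_contra hne
    exact hgood.proper e (ed v) he (hed0 v hv) hne x hxe hxv (hce.trans (hedc v hv).symm)
  have hinj : ∀ v ∈ D, ∀ v' ∈ D, w v = w v' → v = v' := by
    intro v hv v' hv' hw
    have h1 : ed v' = ed v := huniq v hv (ed v') (hed0 v' hv') (hedc v' hv') (w v)
      (by rw [hw]; exact G.mem_ends_right (hede v' hv')) (G.mem_ends_right (hede v hv))
    have h2 := hede v hv
    rw [← h1, hede v' hv', hw, Sym2.eq_swap] at h2
    have h3 : s(w v', v') = s(w v', v) := by rw [h2, Sym2.eq_swap]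
    exact (Sym2.congr_right.1 h3).symm
  -- the auxiliary colour γ
  obtain ⟨γ, hγ, hγα⟩ := Finset.exists_mem_ne
    (by have := hm (z 0); omega : 1 < (G.missSet e0 c (z 0)).card) α
  rw [mem_missSet] at hγ
  have hz0L : z 0 ≠ z L := fun hh => by have := htc.inj 0 L (by omega) le_rfl hh; omega
  have hγβ : γ ≠ β := by
    rintro rfl
    exact hz0L (hgood.elem _ hz0 _ hzL _ hγ htc.missβ)
  have hδγ : δ ≠ γ := by rintro rfl; exact hδ _ hz0 hγ
  have hδα : δ ≠ α := by rintro rfl; exact hδ _ hz0 htc.missα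
  have hδβ : δ ≠ β := by rintro rfl; exact hδ _ hzL htc.missβ
  -- some outer component is hit exactly once
  have hone : ∃ u ∈ D, ∀ v ∈ D, v ≠ u → ¬ (G.KO e0 c γ δ X).Reachable (w u) (w v) := by
    by_contra hno
    push Not at hno
    choose! p hpD hpne hpr using hno
    apply hodd
    refine even_card_of_inv D p hpD hpne ?_
    intro v hv
    by_contra hne
    have hpv := hpD v hv
    have hppv := hpD _ hpv
    have hend : ∀ x ∈ D, ∀ a b, (G.KO e0 c γ δ X).Adj (w x) a → (G.KO e0 c γ δ X).Adj (w x) b →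
        a = b := by
      intro x hx a b ha hb
      obtain ⟨-, haX, e1, he1, hc1, hends1⟩ := ha
      obtain ⟨-, hbX, e2, he2, hc2, hends2⟩ := hb
      have key : ∀ (e : E) (a : V), a ∉ X → e ≠ e0 → (c e = γ ∨ c e = δ) →
          G.ends e = s(w x, a) → c e = γ := by
        intro e a haX he hce hends
        rcases hce with h | h
        · exact h
        · exfalso
          have h1 := huniq x hx e he h (w x) (G.mem_ends_left hends)
            (G.mem_ends_right (hede x hx))
          rw [h1, hede x hx, Sym2.eq_swap] at hends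
          have h2 := Sym2.congr_right.1 hends
          exact haX (h2 ▸ hDX x hx)
      have k1 := key e1 a haX he1 hc1 hends1
      have k2 := key e2 b hbX he2 hc2 hends2
      have he12 : e1 = e2 := by
        by_contra hne
        exact hgood.proper e1 e2 he1 he2 hne (w x) (G.mem_ends_left hends1)
          (G.mem_ends_left hends2) (k1.trans k2.symm)
      subst he12
      rw [hends1] at hends2
      exact Sym2.congr_right.1 hends2
    refine no_three_endpoints (G.KO e0 c γ δ X)
      (fun _ _ _ _ ha hb hc => G.KG_three hgood.proper ha.2.2 hb.2.2 hc.2.2)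
      (u := w v) (v := w (p v)) (w := w (p (p v))) ?_ ?_ ?_ (hend v hv) (hend _ hpv)
      (hend _ hppv) (hpr v hv) ((hpr v hv).trans (hpr _ hpv))
    · exact fun hh => hpne v hv (hinj _ hv _ hpv hh).symm
    · exact fun hh => hne (hinj _ hv _ hppv hh).symm
    · exact fun hh => hpne _ hpv (hinj _ hpv _ hppv hh).symm
  obtain ⟨u, huD, hu1⟩ := hone
  have huX := hDX u huD
  -- a colour missing at `u`
  have hexα' : ∃ α', G.Miss e0 c u α' ∧ α' ≠ α ∧ α' ≠ β := by
    by_cases hua : G.Miss e0 c u α
    · obtain ⟨a', ha', hne⟩ := Finset.exists_mem_ne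
        (by have := hm u; omega : 1 < (G.missSet e0 c u).card) α
      rw [mem_missSet] at ha'
      refine ⟨a', ha', hne, ?_⟩
      rintro rfl
      have h1 := hgood.elem _ huX _ hz0 _ hua htc.missα
      have h2 := hgood.elem _ huX _ hzL _ ha' htc.missβ
      exact hz0L (h1.symm.trans h2)
    · obtain ⟨a', ha', hne⟩ := Finset.exists_mem_ne
        (by have := hm u; omega : 1 < (G.missSet e0 c u).card) β
      rw [mem_missSet] at ha'
      exact ⟨a', ha', fun hh => hua (hh ▸ ha'), hne⟩
  obtain ⟨α', hα'u, hα'α, hα'β⟩ := hexα'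
  have hδα' : δ ≠ α' := by rintro rfl; exact hδ _ huX hα'u
  -- first change
  have hK1 : G.KClosed e0 c γ α' {v | v ∉ X} := by
    intro e he hce a b hends ha hb
    apply ha
    refine hgood.closed e he b a (by rw [hends, Sym2.eq_swap]) hb ?_
    rcases hce with hce | hce
    · exact ⟨z 0, hz0, by rw [hce]; exact hγ⟩
    · exact ⟨u, huX, by rw [hce]; exact hα'u⟩
  set c1 := G.swapCol c γ α' {v | v ∉ X} with hc1
  have hp1 : G.Proper e0 c1 := G.swapCol_proper hgood.proper hK1
  have hu1α' : G.Miss e0 c1 u α' :=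
    (G.miss_swap_not_mem hK1 (fun hh => hh huX)).2 hα'u
  -- colour of outer edges under the first change
  have hc1δ : ∀ e, c1 e = δ → c e = δ := by
    intro e hce
    by_cases h1 : c e = γ
    · have := G.swapCol_in (c := c) (a := γ) (b := α') (K := {v | v ∉ X}) (e := e) (Or.inl h1)
      rw [← hc1, hce] at this
      rcases this with h | h
      · exact absurd h hδγ
      · exact absurd h hδα'
    · by_cases h2 : c e = α'
      · have := G.swapCol_in (c := c) (a := γ) (b := α') (K := {v | v ∉ X}) (e := e) (Or.inr h2)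
        rw [← hc1, hce] at this
        rcases this with h | h
        · exact absurd h hδγ
        · exact absurd h hδα'
      · rw [← hce, hc1, G.swapCol_eq_of_ne h1 h2]
  have hc1δ' : ∀ e, c e = δ → c1 e = δ := by
    intro e hce
    rw [hc1, G.swapCol_eq_of_ne (by rw [hce]; exact hδγ) (by rw [hce]; exact hδα'), hce]
  set B : Set V := {x | (G.KO e0 c γ δ X).Reachable (w u) x} with hB
  have hBX : ∀ x ∈ B, x ∉ X := fun x hx => KO_reach_not_mem hx (hwX u huD)
  have hK2 : G.KClosed e0 c1 α' δ (insert u B) := by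
    intro e he hce a b hends ha
    rcases ha with rfl | ha
    · -- from `u`
      rcases hce with hce | hce
      · exact absurd hce (hu1α' e he (G.mem_ends_left hends))
      · have h1 := hc1δ e hce
        have h2 := huniq a huD e he h1 a (G.mem_ends_left hends)
          (G.mem_ends_left (hede a huD))
        rw [h2, hede a huD] at hends
        have h3 := Sym2.congr_right.1 hends
        right
        rw [← h3]
        exact SimpleGraph.Reachable.refl _
    · have haX := hBX a ha
      by_cases hbX : b ∈ X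
      · -- the edge enters `X`
        rcases hce with hce | hce
        · exfalso
          have h1 : c e = γ := by
            have h2 : c1 e = Equiv.swap γ α' (c e) :=
              G.swapCol_eq_of_mem (G.mem_ends_left hends) haX
            rw [hce] at h2
            have h3 := congrArg (Equiv.swap γ α') h2
            rwa [Equiv.swap_apply_self, Equiv.swap_apply_right, eq_comm] at h3
          exact haX (hgood.closed e he b a (by rw [hends, Sym2.eq_swap]) hbX
            ⟨z 0, hz0, by rw [h1]; exact hγ⟩)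
        · have h1 := hc1δ e hce
          have hbD : b ∈ D := by
            rw [hD, Finset.mem_sdiff]
            refine ⟨hbX, fun hcv => ?_⟩
            obtain ⟨-, e', he', hbe'⟩ := mem_Cov.1 hcv
            have he'' := mem_InE.1 he'
            have : e = e' := by
              by_contra hne
              exact hgood.proper e e' he he''.1 hne b (G.mem_ends_right hends) hbe'
                (h1.trans he''.2.1.symm)
            subst this
            exact haX (he''.2.2 a (G.mem_ends_left hends))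
          have h2 := huniq b hbD e he h1 b (G.mem_ends_right hends)
            (G.mem_ends_left (hede b hbD))
          rw [h2, hede b hbD, Sym2.eq_swap] at hends
          have h3 : w b = a := (Sym2.congr_left.1 hends)
          left
          by_contra hbu
          exact hu1 b hbD hbu (by rw [h3]; exact ha)
      · -- stays outside
        right
        have h1 : c e = γ ∨ c e = δ := by
          rcases hce with hce | hce
          · left
            have h2 : c1 e = Equiv.swap γ α' (c e) :=
              G.swapCol_eq_of_mem (G.mem_ends_left hends) haX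
            rw [hce] at h2
            have h3 := congrArg (Equiv.swap γ α') h2
            rwa [Equiv.swap_apply_self, Equiv.swap_apply_right, eq_comm] at h3
          · exact Or.inr (hc1δ e hce)
        have hadj : (G.KO e0 c γ δ X).Adj a b := ⟨haX, hbX, e, he, h1, hends⟩
        exact SimpleGraph.Reachable.trans ha hadj.reachable
  set c2 := G.swapCol c1 α' δ (insert u B) with hc2
  have hp2 : G.Proper e0 c2 := G.swapCol_proper hp1 hK2
  have hmiss2 : ∀ (v : V) (a : κ), v ∈ X → a ≠ α' → a ≠ δ → G.Miss e0 c v a →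
      G.Miss e0 c2 v a := by
    intro v a hv h1 h2 h3
    rw [hc2, G.miss_swap_ne hK2 h1 h2]
    exact (G.miss_swap_not_mem hK1 (fun hh => hh hv)).2 h3
  have hkeep : ∀ i < L, c2 (g i) = c (g i) := by
    intro i hi
    have h1 : c (g i) ≠ γ ∧ c (g i) ≠ α' ∧ c (g i) ≠ δ := by
      rcases htc.col i hi with h | h
      · rw [h]; exact ⟨hγα.symm, hα'α.symm, hδα.symm⟩
      · rw [h]; exact ⟨hγβ.symm, hα'β.symm, hδβ.symm⟩
    have h2 : c1 (g i) = c (g i) := G.swapCol_eq_of_ne h1.1 h1.2.1
    rw [hc2, G.swapCol_eq_of_ne (by rw [h2]; exact h1.2.1) (by rw [h2]; exact h1.2.2), h2]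
  have hTT : G.IsTT e0 c2 L (fun t => z (sg L t)) (fun t => g (t - 2)) :=
    htc.isTT hkeep (hmiss2 _ _ hz0 hα'α.symm hδα.symm htc.missα)
      (hmiss2 _ _ hzL hα'β.symm hδβ.symm htc.missβ)
  have hXX : ∀ v, v ∈ XS L (fun t => z (sg L t)) ↔ v ∈ X := by
    intro v
    rw [XS_sg hL2]
    constructor
    · rintro ⟨i, hi, rfl⟩; exact htc.mem i hi
    · intro hv
      rw [hX, mem_XS] at hv
      obtain ⟨j, hj, rfl⟩ := hv
      exact hspan j hj
  -- a second outer edge
  have hD1 : 1 < D.card := by rw [hcardD]; omega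
  obtain ⟨v, hvD, hvu⟩ := Finset.exists_mem_ne hD1 u
  have hvX := hDX v hvD
  have hc2v : c2 (ed v) = δ := by
    have h1 : c1 (ed v) = δ := hc1δ' _ (hedc v hvD)
    have hvK : v ∉ insert u B := by
      rintro (hh | hh)
      · exact hvu hh
      · exact hBX v hh hvX
    rw [hc2, G.swapCol_eq_of_not_mem hK2 (hed0 v hvD) (G.mem_ends_left (hede v hvD)) hvK, h1]
  have hmu : G.Miss e0 c2 u δ := G.miss_swap_right (Set.mem_insert u B) hu1α'
  have hext := hTT.extend (hed0 v hvD) (hede v hvD) ((hXX v).2 hvX)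
    (fun hh => hwX v hvD ((hXX _).1 hh)) ⟨u, (hXX u).2 huX, by rw [hc2v]; exact hmu⟩
  have := h.max _ _ _ _ hp2 hext
  omega

end Multigraph

end Pool.Agent.Lib.MP_7ce1ef_co
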