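import Mathlib
import Pool.Agent.Lib.MP_7ce1ef_co.Exit

/-!
# A ring subgraph which needs as many colours as the whole graph
-/

set_option linter.unusedSectionVars false

namespace Pool.Agent.Lib.MP_7ce1ef_co

namespace Multigraph

section

variable {V E κ : Type} [Fintype V] [Fintype E] [Fintype κ] {G : Multigraph V E} {e0 : E}

theorem ring_of_critical {c0 : E → κ} (hc0 : G.Proper e0 c0)
    (hnc : ∀ c : E → κ, ¬ G.ProperColouring c) {r s μ : ℕ}
    (hr : 2 ≤ r) (hs : 2 ≤ s) (hdeg : ∀ v, G.dgr v + r ≤ Fintype.card κ)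
    (hμ : ∀ u v, G.mlt u v ≤ μ) (hμs : μ ≤ (r + 1) * s) (hg : GirthGT G.simple s) :
    ∃ (L : ℕ) (z : ℕ → V), 2 * s ≤ L ∧ r * L + 2 ≤ 2 * μ ∧ Even L ∧
      (∀ i j, i ≤ L → j ≤ L → z i = z j → i = j) ∧
      (∀ i j, i ≤ L → j ≤ L → ((∃ e, G.ends e = s(z i, z j)) ↔ CAdj L i j)) ∧
      (∀ i ≤ L, ∀ T : Finset E, (∀ e, e ∈ T ↔ z i ∈ G.ends e ∧ ∀ v ∈ G.ends e, ∃ i ≤ L, z i = v) →
        r * L + 2 ≤ T.card) ∧
      ∀ T : Finset E, (∀ e, e ∈ T ↔ ∀ v ∈ G.ends e, ∃ i ≤ L, z i = v) →
        Fintype.card κ * L + 2 ≤ 2 * T.card := by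
  classical
  have hm : ∀ c : E → κ, G.Proper e0 c → ∀ v, 2 ≤ (G.missSet e0 c v).card := by
    intro c _ v
    have := missSet_card_ge (e0 := e0) hdeg c v
    omega
  obtain ⟨n, c, y, f, hmax⟩ := exists_maxTT hc0
  have hgood := hmax.good hnc hm
  obtain ⟨α, β, L, z, g, htc, hLs⟩ := hmax.exists_twoCol hnc hm hg
  have hcardge : 2 * s + 1 ≤ (XS n y).card := by
    have h1 : ((Finset.range (L + 1)).image z).card = L + 1 := by
      rw [Finset.card_image_of_injOn, Finset.card_range]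
      intro i hi j hj hh
      rw [Finset.mem_coe, Finset.mem_range] at hi hj
      exact htc.inj i j (by omega) (by omega) hh
    have h2 : (Finset.range (L + 1)).image z ⊆ XS n y := by
      intro v hv
      rw [Finset.mem_image] at hv
      obtain ⟨i, hi, rfl⟩ := hv
      exact htc.mem i (by have := Finset.mem_range.1 hi; omega)
    have := Finset.card_le_card h2
    omega
  obtain ⟨hd, hbound⟩ := hgood.degrees hr hs hdeg hμ hμs hg hcardge
  obtain ⟨hspan, hnL⟩ := htc.span hmax.tt hd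
  have hXcard : (XS n y).card = L + 1 := by rw [hmax.tt.card_XS, hnL]
  have hz0 : z 0 ∈ XS n y := htc.mem 0 (by omega)
  obtain ⟨m, hm2⟩ := hgood.odd_card hz0 htc.missα
  have hXz : ∀ v, v ∈ XS n y ↔ ∃ i ≤ L, z i = v := by
    intro v
    constructor
    · intro hv
      rw [mem_XS] at hv
      obtain ⟨j, hj, rfl⟩ := hv
      exact hspan j hj
    · rintro ⟨i, hi, rfl⟩; exact htc.mem i hi
  refine ⟨L, z, hLs, ?_, ⟨m, by omega⟩, htc.inj, ?_, ?_, ?_⟩
  · rw [hXcard] at hbound
    have : r * (L + 1) = r * L + r := by ring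
    omega
  · intro i j hi hj
    have h1 := htc.NX_eq hd hi (u := z j)
    rw [mem_NX] at h1
    constructor
    · intro he
      obtain ⟨j', hj', hc, hz⟩ := h1.1 ⟨htc.mem j hj, he⟩
      rw [← htc.inj j' j hj' hj hz]
      exact hc
    · intro hc
      exact (h1.2 ⟨j, hj, hc, rfl⟩).2
  · intro i hi T hT
    have h1 := hgood.card_DX hdeg (htc.mem i hi)
    rw [hXcard] at h1
    have h2 : r * (L + 1) = r * L + r := by ring
    have h3 : G.DX (XS n y) (z i) ≤ T.card := by
      unfold DX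
      apply Finset.card_le_card
      intro e he
      rw [Finset.mem_filter] at he
      obtain ⟨-, u, hu, hends⟩ := he
      rw [hT]
      refine ⟨G.mem_ends_left hends, fun v hv => ?_⟩
      rw [hends, Sym2.mem_iff] at hv
      rcases hv with rfl | rfl
      · exact ⟨i, hi, rfl⟩
      · exact (hXz v).1 hu
    omega
  · intro T hT
    have h1 : ∀ a : κ, L ≤ 2 * (G.InE e0 c (XS n y) a).card := by
      intro a
      have h2 := hmax.cov_card hgood htc hd (hm c hmax.proper) a
      rw [card_Cov hgood.proper, hXcard] at h2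
      omega
    have h2 : ((Finset.univ : Finset κ).biUnion fun a => G.InE e0 c (XS n y) a).card
        = ∑ a : κ, (G.InE e0 c (XS n y) a).card := by
      apply Finset.card_biUnion
      intro a _ b _ hab
      rw [Function.onFun, Finset.disjoint_left]
      intro e hea heb
      exact hab ((mem_InE.1 hea).2.1.symm.trans (mem_InE.1 heb).2.1)
    have h3 : ((Finset.univ : Finset κ).biUnion fun a => G.InE e0 c (XS n y) a) ⊆ T.erase e0 := by
      intro e he
      rw [Finset.mem_biUnion] at he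
      obtain ⟨a, -, hea⟩ := he
      have hea' := mem_InE.1 hea
      rw [Finset.mem_erase]
      exact ⟨hea'.1, (hT e).2 fun v hv => (hXz v).1 (hea'.2.2 v hv)⟩
    have h4 : e0 ∈ T := (hT e0).2 fun v hv => (hXz v).1 (hgood.base v hv)
    have h5 := Finset.card_le_card h3
    rw [Finset.card_erase_of_mem h4, h2] at h5
    have h6 : ∑ _a : κ, L ≤ ∑ a : κ, 2 * (G.InE e0 c (XS n y) a).card :=
      Finset.sum_le_sum fun a _ => h1 a
    rw [Finset.sum_const, Finset.card_univ, smul_eq_mul, ← Finset.mul_sum] at h6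
    have h7 : 0 < T.card := Finset.card_pos.2 ⟨e0, h4⟩
    omega

/-- a properly coloured set of edges inside a set of odd size -/
theorem card_le_of_coloured {T : Finset E} {c : E → κ} {X : Finset V} {m : ℕ}
    (hX : X.card = 2 * m + 1) (hT : ∀ e ∈ T, ∀ v ∈ G.ends e, v ∈ X)
    (hc : ∀ e ∈ T, ∀ f ∈ T, e ≠ f → ∀ v, v ∈ G.ends e → v ∈ G.ends f → c e ≠ c f) :
    T.card ≤ Fintype.card κ * m := by
  classical
  have h1 : ∀ a : κ, (T.filter fun e => c e = a).card ≤ m := by
    intro a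
    have h2 : ((T.filter fun e => c e = a).biUnion fun e => (G.ends e).toFinset).card
        = 2 * (T.filter fun e => c e = a).card := by
      rw [Finset.card_biUnion]
      · rw [Finset.sum_congr rfl fun e _ => ends_toFinset_card (G := G) e, Finset.sum_const,
          smul_eq_mul, mul_comm]
      · intro e he f hf hef
        rw [Function.onFun, Finset.disjoint_left]
        intro v hve hvf
        rw [Sym2.mem_toFinset] at hve hvf
        have he' := Finset.mem_filter.1 he
        have hf' := Finset.mem_filter.1 hf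
        exact hc e he'.1 f hf'.1 hef v hve hvf (he'.2.trans hf'.2.symm)
    have h3 : ((T.filter fun e => c e = a).biUnion fun e => (G.ends e).toFinset) ⊆ X := by
      intro v hv
      rw [Finset.mem_biUnion] at hv
      obtain ⟨e, he, hve⟩ := hv
      rw [Sym2.mem_toFinset] at hve
      exact hT e (Finset.mem_filter.1 he).1 v hve
    have h4 := Finset.card_le_card h3
    omega
  have h2 : T.card = ∑ a : κ, (T.filter fun e => c e = a).card :=
    Finset.card_eq_sum_card_fiberwise fun e _ => Finset.mem_coe.2 (Finset.mem_univ _)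
  rw [h2]
  calc _ ≤ ∑ _a : κ, m := Finset.sum_le_sum fun a _ => h1 a
    _ = _ := by rw [Finset.sum_const, Finset.card_univ, smul_eq_mul]

end

theorem dgr_sub_le {V E : Type} [Fintype E] (G : Multigraph V E) (F : Set E) [Fintype F]
    (v : V) : (G.sub F).dgr v ≤ G.dgr v := by
  classical
  unfold dgr
  refine Finset.card_le_card_of_injOn (fun e : F => (e : E)) ?_ ?_
  · intro e he
    rw [Finset.mem_coe, Finset.mem_filter] at he ⊢
    exact ⟨Finset.mem_univ _, he.2⟩
  · intro a _ b _ h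
    exact Subtype.ext h

theorem mlt_sub_le {V E : Type} [Fintype E] (G : Multigraph V E) (F : Set E) [Fintype F]
    (u v : V) : (G.sub F).mlt u v ≤ G.mlt u v := by
  classical
  unfold mlt
  refine Finset.card_le_card_of_injOn (fun e : F => (e : E)) ?_ ?_
  · intro e he
    rw [Finset.mem_coe, Finset.mem_filter] at he ⊢
    exact ⟨Finset.mem_univ _, he.2⟩
  · intro a _ b _ h
    exact Subtype.ext h

theorem simple_sub_le {V E : Type} (G : Multigraph V E) (F : Set E) :
    (G.sub F).simple ≤ G.simple := by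
  rintro u v ⟨e, he⟩
  exact ⟨e, he⟩

theorem exists_ring {V E : Type} [Fintype V] [Fintype E] (G : Multigraph V E)
    {C r s μ : ℕ} (hnc : ∀ c : E → Fin C, ¬ G.ProperColouring c)
    (hr : 2 ≤ r) (hs : 2 ≤ s) (hdeg : ∀ v, G.dgr v + r ≤ C)
    (hμ : ∀ u v, G.mlt u v ≤ μ) (hμs : μ ≤ (r + 1) * s) (hg : GirthGT G.simple s) :
    ∃ (F : Set E) (L : ℕ) (z : ℕ → V), 2 * s ≤ L ∧ r * L + 2 ≤ 2 * μ ∧ Even L ∧
      (∀ i j, i ≤ L → j ≤ L → z i = z j → i = j) ∧
      (∀ e ∈ F, ∀ v ∈ G.ends e, ∃ i ≤ L, z i = v) ∧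
      (∀ i j, i ≤ L → j ≤ L → ((∃ e ∈ F, G.ends e = s(z i, z j)) ↔ CAdj L i j)) ∧
      (∀ i ≤ L, r * L + 2 ≤ (G.sub F).degree (z i)) ∧ C * L + 2 ≤ 2 * Nat.card F ∧
      ∀ c : F → Fin C, ¬ (G.sub F).ProperColouring c := by
  classical
  obtain ⟨F0, hF0, hmin⟩ := (wellFounded_lt (α := Set E)).has_min
    {F | ∀ c : F → Fin C, ¬ (G.sub F).ProperColouring c}
    ⟨Set.univ, fun c hc => hnc (fun e => c ⟨e, Set.mem_univ e⟩) (by
      intro e f hef v hve hvf
      exact hc ⟨e, Set.mem_univ e⟩ ⟨f, Set.mem_univ f⟩ (fun h => hef (congrArg Subtype.val h)) v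
        hve hvf)⟩
  have hF0' : ∀ c : F0 → Fin C, ¬ (G.sub F0).ProperColouring c := hF0
  have hne : F0.Nonempty := by
    by_contra hemp
    rw [Set.not_nonempty_iff_eq_empty] at hemp
    subst hemp
    exact hF0' (fun e => absurd e.2 (Set.notMem_empty _)) fun e => absurd e.2 (Set.notMem_empty _)
  obtain ⟨e0, he0⟩ := hne
  -- colour the rest
  have hlt : F0 \ {e0} < F0 := by
    refine ⟨Set.sdiff_subset, fun h => ?_⟩
    exact (h he0).2 rfl
  have hcol : ∃ c : (F0 \ {e0} : Set E) → Fin C, (G.sub (F0 \ {e0})).ProperColouring c := by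
    by_contra hno
    push Not at hno
    exact hmin _ hno hlt
  obtain ⟨c1, hc1⟩ := hcol
  obtain ⟨u0, v0, h0⟩ : ∃ u v, G.ends e0 = s(u, v) := by
    induction h : G.ends e0 with
    | _ u v => exact ⟨u, v, rfl⟩
  have hCpos : 0 < C := by have := hdeg u0; omega
  let d0 : Fin C := ⟨0, hCpos⟩
  let c0 : F0 → Fin C := fun e => if h : (e : E) ∈ F0 \ {e0} then c1 ⟨e, h⟩ else d0
  have hfin : Fintype F0 := Fintype.ofFinite _
  have hc0 : (G.sub F0).Proper ⟨e0, he0⟩ c0 := by
    intro e f he hf hef v hve hvf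
    have h1 : (e : E) ∈ F0 \ {e0} := ⟨e.2, fun h => he (Subtype.ext h)⟩
    have h2 : (f : E) ∈ F0 \ {e0} := ⟨f.2, fun h => hf (Subtype.ext h)⟩
    have e1 : c0 e = c1 ⟨e, h1⟩ := dif_pos h1
    have e2 : c0 f = c1 ⟨f, h2⟩ := dif_pos h2
    rw [e1, e2]
    exact hc1 ⟨e, h1⟩ ⟨f, h2⟩ (fun h => hef (Subtype.ext (Subtype.mk.inj h))) v hve hvf
  have hdeg' : ∀ v, (G.sub F0).dgr v + r ≤ Fintype.card (Fin C) := by
    intro v
    rw [Fintype.card_fin]
    have := dgr_sub_le G F0 v
    have := hdeg v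
    omega
  obtain ⟨L, z, hL, hrL, heven, hinj, hadj, hdegz, hcount⟩ := ring_of_critical hc0 hF0' hr hs hdeg'
    (fun u v => (mlt_sub_le G F0 u v).trans (hμ u v)) hμs (girthGT_mono (simple_sub_le G F0) hg)
  let F : Set E := {e | e ∈ F0 ∧ ∀ v ∈ G.ends e, ∃ i ≤ L, z i = v}
  refine ⟨F, L, z, hL, hrL, heven, hinj, fun e he => he.2, ?_, ?_, ?_, ?_⟩
  · intro i j hi hj
    rw [← hadj i j hi hj]
    constructor
    · rintro ⟨e, he, hends⟩
      exact ⟨⟨e, he.1⟩, hends⟩
    · rintro ⟨e, hends⟩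
      have hends' : G.ends (e : E) = s(z i, z j) := hends
      refine ⟨e, ⟨e.2, fun v hv => ?_⟩, hends'⟩
      rw [hends', Sym2.mem_iff] at hv
      rcases hv with rfl | rfl
      · exact ⟨i, hi, rfl⟩
      · exact ⟨j, hj, rfl⟩
  · intro i hi
    let T : Finset F0 := Finset.univ.filter fun e => z i ∈ G.ends (e : E) ∧
      ∀ v ∈ G.ends (e : E), ∃ i ≤ L, z i = v
    have hT : ∀ e, e ∈ T ↔ z i ∈ (G.sub F0).ends e ∧ ∀ v ∈ (G.sub F0).ends e,
        ∃ i ≤ L, z i = v := by
      intro e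
      rw [Finset.mem_filter]
      exact ⟨fun h => h.2, fun h => ⟨Finset.mem_univ _, h⟩⟩
    have h1 := hdegz i hi T hT
    refine h1.trans ?_
    unfold degree
    rw [← Fintype.card_coe, ← Nat.card_eq_fintype_card]
    refine Nat.card_le_card_of_injective
      (fun e : T => (⟨⟨(e : F0), ⟨(e : F0).2, ((hT e).1 e.2).2⟩⟩, ((hT e).1 e.2).1⟩ :
        {e : F // z i ∈ (G.sub F).ends e})) ?_
    intro a b hab
    exact Subtype.ext (Subtype.ext (Subtype.mk.inj (Subtype.mk.inj hab)))
  · let T : Finset F0 := Finset.univ.filter fun e => ∀ v ∈ G.ends (e : E), ∃ i ≤ L, z i = v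
    have hT : ∀ e, e ∈ T ↔ ∀ v ∈ (G.sub F0).ends e, ∃ i ≤ L, z i = v := by
      intro e
      rw [Finset.mem_filter]
      exact ⟨fun h => h.2, fun h => ⟨Finset.mem_univ _, h⟩⟩
    have h1 := hcount T hT
    rw [Fintype.card_fin] at h1
    refine h1.trans (Nat.mul_le_mul_left 2 ?_)
    rw [← Fintype.card_coe, ← Nat.card_eq_fintype_card]
    refine Nat.card_le_card_of_injective
      (fun e : T => (⟨(e : F0), ⟨(e : F0).2, (hT e).1 e.2⟩⟩ : F)) ?_
    intro a b hab
    exact Subtype.ext (Subtype.ext (Subtype.mk.inj hab))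
  · intro c hc
    let c2 : F0 → Fin C := fun e => if h : (e : E) ∈ F then c ⟨e, h⟩ else d0
    let T : Finset F0 := Finset.univ.filter fun e => ∀ v ∈ G.ends (e : E), ∃ i ≤ L, z i = v
    have hT : ∀ e, e ∈ T ↔ ∀ v ∈ (G.sub F0).ends e, ∃ i ≤ L, z i = v := by
      intro e
      rw [Finset.mem_filter]
      exact ⟨fun h => h.2, fun h => ⟨Finset.mem_univ _, h⟩⟩
    have h1 := hcount T hT
    obtain ⟨m, hm⟩ := heven
    have hX : ((Finset.range (L + 1)).image z).card = 2 * m + 1 := by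
      rw [Finset.card_image_of_injOn, Finset.card_range]
      · omega
      · intro i hi j hj hh
        rw [Finset.mem_coe, Finset.mem_range] at hi hj
        exact hinj i j (by omega) (by omega) hh
    have h2 := card_le_of_coloured (G := G.sub F0) (T := T) (c := c2) hX
      (by
        intro e he v hv
        obtain ⟨i, hi, hiv⟩ := (hT e).1 he v hv
        rw [Finset.mem_image]
        exact ⟨i, Finset.mem_range.2 (by omega), hiv⟩)
      (by
        intro e he f hf hef v hve hvf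
        have h1 : (e : E) ∈ F := ⟨e.2, (hT e).1 he⟩
        have h2 : (f : E) ∈ F := ⟨f.2, (hT f).1 hf⟩
        have e1 : c2 e = c ⟨e, h1⟩ := dif_pos h1
        have e2 : c2 f = c ⟨f, h2⟩ := dif_pos h2
        rw [e1, e2]
        exact hc ⟨e, h1⟩ ⟨f, h2⟩ (fun h => hef (Subtype.ext (Subtype.mk.inj h))) v hve hvf)
    rw [Fintype.card_fin] at h1 h2
    have h3 : C * L = 2 * (C * m) := by rw [hm]; ring
    omega

end Multigraph

end Pool.Agent.Lib.MP_7ce1ef_co
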