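import Mathlib
import Pool.Agent.Lib.MP_7ce1ef_co.Ring

/-!
# Basic facts on degrees, multiplicities, chromatic index and cycles
-/

namespace Pool.Agent.Lib.MP_7ce1ef_co

/-- every vertex of `S` has two neighbours in `S` -/
def Two {V : Type} (Γ : SimpleGraph V) (S : Set V) : Prop :=
  ∀ v ∈ S, ∃ x ∈ S, ∃ y ∈ S, x ≠ y ∧ Γ.Adj v x ∧ Γ.Adj v y

theorem cycle_two {V : Type} {Γ : SimpleGraph V} {v : V} {p : Γ.Walk v v} (hp : p.IsCycle) :
    Two Γ {x | x ∈ p.support} ∧ {x | x ∈ p.support}.ncard ≤ p.length := by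
  classical
  constructor
  · intro w hw
    have h2 := hp.ncard_neighborSet_toSubgraph_eq_two hw
    rw [Set.ncard_eq_two] at h2
    obtain ⟨x, y, hxy, hn⟩ := h2
    have hx : x ∈ p.toSubgraph.neighborSet w := by rw [hn]; exact Set.mem_insert x _
    have hy : y ∈ p.toSubgraph.neighborSet w := by
      rw [hn]; exact Set.mem_insert_of_mem _ rfl
    have hx' : p.toSubgraph.Adj w x := hx
    have hy' : p.toSubgraph.Adj w y := hy
    exact ⟨x, p.mem_verts_toSubgraph.1 hx'.snd_mem, y, p.mem_verts_toSubgraph.1 hy'.snd_mem, hxy,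
      hx'.adj_sub, hy'.adj_sub⟩
  · have hsub : {x | x ∈ p.support} ⊆ ((Finset.Icc 1 p.length).image p.getVert : Finset V) := by
      intro x hx
      have hx' : x ∈ p.support := hx
      rw [SimpleGraph.Walk.mem_support_iff_exists_getVert] at hx'
      obtain ⟨i, hi, hil⟩ := hx'
      rw [Finset.mem_coe, Finset.mem_image]
      have h3 := hp.three_le_length
      by_cases h0 : i = 0
      · refine ⟨p.length, Finset.mem_Icc.2 ⟨by omega, le_rfl⟩, ?_⟩
        rw [← hi, h0, SimpleGraph.Walk.getVert_zero, SimpleGraph.Walk.getVert_length]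
      · exact ⟨i, Finset.mem_Icc.2 ⟨by omega, hil⟩, hi⟩
    refine (Set.ncard_le_ncard hsub (Finset.finite_toSet _)).trans ?_
    rw [Set.ncard_coe_finset]
    refine Finset.card_image_le.trans ?_
    rw [Nat.card_Icc]; omega

theorem ceil_div_le_iff {μ s m : ℕ} (hs : 0 < s) : ⌈(μ : ℚ) / (s : ℚ)⌉₊ ≤ m ↔ μ ≤ m * s := by
  rw [Nat.ceil_le, div_le_iff₀ (by exact_mod_cast hs)]
  norm_cast

theorem cyc_adj {L : ℕ} (hL : 2 ≤ L) (a b : Fin (L + 1)) :
    (SimpleGraph.cycleGraph (L + 1)).Adj a b ↔ CAdj L a b := by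
  rw [SimpleGraph.cycleGraph_adj']
  have key : ∀ a b : Fin (L + 1), (a - b).val = 1 ↔
      (a.val = b.val + 1 ∨ (a.val = 0 ∧ b.val = L)) := by
    intro a b
    have ha := a.isLt
    have hb := b.isLt
    by_cases h : b ≤ a
    · rw [Fin.sub_val_of_le h]
      have h' : b.val ≤ a.val := h
      omega
    · have h' : a < b := not_le.1 h
      rw [Fin.coe_sub_iff_lt.2 h']
      have h'' : a.val < b.val := h'
      omega
  rw [key a b, key b a]
  unfold CAdj
  have ha := a.isLt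
  have hb := b.isLt
  omega

namespace Multigraph

variable {V E : Type} (G : Multigraph V E)

theorem degree_le_maxDegree [Finite V] (v : V) : G.degree v ≤ G.maxDegree :=
  le_csSup (Set.finite_range _).bddAbove ⟨v, rfl⟩

theorem maxDegree_le {d : ℕ} (h : ∀ v, G.degree v ≤ d) : G.maxDegree ≤ d := by
  apply csSup_le'
  rintro _ ⟨v, rfl⟩
  exact h v

theorem mult_le_maxMult [Finite V] (p : Sym2 V) : G.mult p ≤ G.maxMult :=
  le_csSup (Set.finite_range _).bddAbove ⟨p, rfl⟩

theorem maxMult_le {d : ℕ} (h : ∀ p, G.mult p ≤ d) : G.maxMult ≤ d := by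
  apply csSup_le'
  rintro _ ⟨v, rfl⟩
  exact h v

theorem dgr_eq_degree [Fintype V] [Fintype E] (v : V) : G.dgr v = G.degree v := by
  classical
  unfold dgr degree
  rw [Nat.card_eq_fintype_card, Fintype.card_subtype]

theorem mlt_eq_mult [Fintype V] [Fintype E] (u v : V) : G.mlt u v = G.mult s(u, v) := by
  classical
  unfold mlt mult
  rw [Nat.card_eq_fintype_card, Fintype.card_subtype]

theorem chromIndex_le {n : ℕ} {c : E → Fin n} (hc : G.ProperColouring c) : G.chromIndex ≤ n :=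
  Nat.sInf_le ⟨c, hc⟩

theorem chromIndex_le_card [Finite E] : G.chromIndex ≤ Nat.card E := by
  refine G.chromIndex_le (c := Finite.equivFin E) ?_
  intro e f hef v _ _ h
  exact hef ((Finite.equivFin E).injective h)

theorem exists_colouring [Finite E] : ∃ c : E → Fin G.chromIndex, G.ProperColouring c := by
  have h : G.chromIndex ∈ {n : ℕ | ∃ c : E → Fin n, G.ProperColouring c} := by
    apply Nat.sInf_mem
    refine ⟨Nat.card E, Finite.equivFin E, ?_⟩
    intro e f hef v _ _ h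
    exact hef ((Finite.equivFin E).injective h)
  exact h

theorem le_chromIndex [Finite E] {m : ℕ}
    (h : ∀ (n : ℕ) (c : E → Fin n), G.ProperColouring c → m ≤ n) : m ≤ G.chromIndex := by
  obtain ⟨c, hc⟩ := G.exists_colouring
  exact h _ c hc

theorem lt_chromIndex [Finite E] {C : ℕ} (h : ∀ c : E → Fin C, ¬ G.ProperColouring c) :
    C < G.chromIndex := by
  by_contra hle
  push Not at hle
  obtain ⟨c, hc⟩ := G.exists_colouring
  refine h (fun e => Fin.castLE hle (c e)) ?_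
  intro e f hef v hve hvf hh
  exact hc e f hef v hve hvf (Fin.castLE_injective hle hh)

theorem chromIndex_sub_le [Finite E] (F : Set E) : (G.sub F).chromIndex ≤ G.chromIndex := by
  obtain ⟨c, hc⟩ := G.exists_colouring
  refine (G.sub F).chromIndex_le (c := fun e => c e) ?_
  intro e f hef v hve hvf
  exact hc e f (fun h => hef (Subtype.ext h)) v hve hvf

theorem girthGT_of_girth {s : ℕ} (h : 2 * s < G.girth) : GirthGT G.simple s := by
  intro v c hc
  have := SimpleGraph.girth_le_length hc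
  unfold girth at h
  omega

theorem exists_cycle_of_girth {g : ℕ} (hg : 3 ≤ g) (h : G.girth = g) :
    ∃ (v : V) (p : G.simple.Walk v v), p.IsCycle ∧ p.length = g := by
  have h1 : ¬ G.simple.IsAcyclic := by
    intro hac
    have := SimpleGraph.girth_eq_zero.2 hac
    unfold girth at h
    omega
  obtain ⟨v, p, hp, hl⟩ := SimpleGraph.exists_girth_eq_length.2 h1
  exact ⟨v, p, hp, by rw [← hl]; exact h⟩

theorem girth_eq_of {g : ℕ} (h1 : ∃ (v : V) (p : G.simple.Walk v v), p.IsCycle ∧ p.length = g)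
    (h2 : ∀ S : Set V, S.Nonempty → Two G.simple S → g ≤ S.ncard) : G.girth = g := by
  obtain ⟨v, p, hp, hl⟩ := h1
  apply le_antisymm
  · rw [← hl]; exact SimpleGraph.girth_le_length hp
  · have h3 : ¬ G.simple.IsAcyclic := fun hac => hac p hp
    obtain ⟨w, q, hq, hql⟩ := SimpleGraph.exists_girth_eq_length.2 h3
    unfold girth
    rw [hql]
    obtain ⟨h4, h5⟩ := cycle_two hq
    exact (h2 _ ⟨w, q.start_mem_support⟩ h4).trans h5

/-- the ring found on the vertices `z 0, …, z L` -/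
theorem isRing_of {F : Set E} {L : ℕ} {z : ℕ → V} (hL : 2 ≤ L)
    (hinj : ∀ i j, i ≤ L → j ≤ L → z i = z j → i = j)
    (hF : ∀ e ∈ F, ∀ v ∈ G.ends e, ∃ i ≤ L, z i = v)
    (hadj : ∀ i j, i ≤ L → j ≤ L → ((∃ e ∈ F, G.ends e = s(z i, z j)) ↔ CAdj L i j)) :
    (G.sub F).IsRing (L + 1) := by
  refine ⟨⟨fun i => z i, fun a b hab => Fin.ext
    (hinj a b (Nat.lt_succ_iff.1 a.isLt) (Nat.lt_succ_iff.1 b.isLt) hab)⟩, ?_⟩
  ext u v
  rw [SimpleGraph.map_adj]
  constructor
  · rintro ⟨e, he⟩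
    have he' : G.ends (e : E) = s(u, v) := he
    obtain ⟨i, hi, rfl⟩ := hF e e.2 u (G.mem_ends_left he')
    obtain ⟨j, hj, rfl⟩ := hF e e.2 v (G.mem_ends_right he')
    refine ⟨⟨i, by omega⟩, ⟨j, by omega⟩, ?_, rfl, rfl⟩
    rw [cyc_adj hL]
    exact (hadj i j hi hj).1 ⟨e, e.2, he'⟩
  · rintro ⟨a, b, hab, rfl, rfl⟩
    rw [cyc_adj hL] at hab
    obtain ⟨e, heF, he⟩ := (hadj a b (Nat.lt_succ_iff.1 a.isLt) (Nat.lt_succ_iff.1 b.isLt)).2 hab
    exact ⟨⟨e, heF⟩, he⟩

end Multigraph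

end Pool.Agent.Lib.MP_7ce1ef_co
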