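import Mathlib
import Pool.Agent.Lib.MP_7ce1ef_co.Facts

/-!
# Graphs attaining Steffen's bound without a ring subgraph: necessary conditions
-/

namespace Pool.Agent.Lib.MP_7ce1ef_co

theorem closed_univ {V : Type} {Γ : SimpleGraph V} (hconn : Γ.Connected) {S : Set V}
    (hne : S.Nonempty) (hcl : ∀ v ∈ S, ∀ w, Γ.Adj v w → w ∈ S) (w : V) : w ∈ S := by
  obtain ⟨v, hv⟩ := hne
  obtain ⟨p⟩ := hconn.preconnected v w
  induction p with
  | nil => exact hv
  | cons hadj _ ih => exact ih (hcl _ hv _ hadj)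

namespace Multigraph

variable {V E : Type} (G : Multigraph V E)

/-- the number of edges of a ring of order `L + 1` -/
theorem card_ring_le [Finite V] [Finite E] {F : Set E} {L μ : ℕ} {z : ℕ → V}
    (hμ : ∀ p, G.mult p ≤ μ)
    (hF : ∀ e ∈ F, ∀ v ∈ G.ends e, ∃ i ≤ L, z i = v)
    (hadj : ∀ i j, i ≤ L → j ≤ L → ((∃ e ∈ F, G.ends e = s(z i, z j)) ↔ CAdj L i j)) :
    Nat.card F ≤ (L + 1) * μ := by
  classical
  have : Fintype V := Fintype.ofFinite V
  have : Fintype E := Fintype.ofFinite E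
  let nx : ℕ → ℕ := fun i => if i = L then 0 else i + 1
  have hsub : (Finset.univ.filter fun e => e ∈ F) ⊆ (Finset.range (L + 1)).biUnion
      fun i => Finset.univ.filter fun e => G.ends e = s(z i, z (nx i)) := by
    intro e he
    rw [Finset.mem_filter] at he
    obtain ⟨u, v, huv⟩ : ∃ u v, G.ends e = s(u, v) := by
      induction h : G.ends e with
      | _ u v => exact ⟨u, v, rfl⟩
    obtain ⟨i, hi, rfl⟩ := hF e he.2 u (G.mem_ends_left huv)
    obtain ⟨j, hj, rfl⟩ := hF e he.2 v (G.mem_ends_right huv)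
    have hc := (hadj i j hi hj).1 ⟨e, he.2, huv⟩
    rw [Finset.mem_biUnion]
    have hcase : (j = nx i) ∨ (i = nx j) := by
      simp only [nx]
      unfold CAdj at hc
      split_ifs <;> omega
    rcases hcase with h | h
    · refine ⟨i, Finset.mem_range.2 (by omega), Finset.mem_filter.2 ⟨Finset.mem_univ _, ?_⟩⟩
      rw [huv, h]
    · refine ⟨j, Finset.mem_range.2 (by omega), Finset.mem_filter.2 ⟨Finset.mem_univ _, ?_⟩⟩
      rw [huv, h, Sym2.eq_swap]
  have h1 : Nat.card F = (Finset.univ.filter fun e => e ∈ F).card := by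
    rw [Nat.card_eq_fintype_card]
    exact Fintype.card_subtype _
  rw [h1]
  refine (Finset.card_le_card hsub).trans (Finset.card_biUnion_le.trans ?_)
  calc _ ≤ ∑ _i ∈ Finset.range (L + 1), μ := by
        refine Finset.sum_le_sum fun i _ => ?_
        have := G.mlt_eq_mult (z i) (z (nx i))
        unfold mlt at this
        rw [this]
        exact hμ _
    _ = _ := by rw [Finset.sum_const, Finset.card_range, smul_eq_mul]

theorem necessary [Finite V] [Finite E] {s μ k : ℕ} (hs : 2 ≤ s)
    (hμ : 2 * s + 1 ≤ μ) (hk : k = ⌈(μ : ℚ) / (s : ℚ)⌉₊) (hg : G.girth = 2 * s + 1)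
    (hm : G.maxMult = μ) (hSt : G.AttainsSteffen) (hno : ¬ G.HasRingSubgraph (2 * s + 1)) :
    (k - 1) * (s + 1) + 1 ≤ μ ∧ (G.simple.Connected → (k - 1) * (s + 1) + 2 ≤ μ) := by
  classical
  have : Fintype V := Fintype.ofFinite V
  have : Fintype E := Fintype.ofFinite E
  -- the parameter `k`
  have hk1 : μ ≤ k * s := (ceil_div_le_iff (by omega)).1 hk.ge
  have hk3 : 3 ≤ k := by
    by_contra hlt
    push Not at hlt
    have : k * s ≤ 2 * s := Nat.mul_le_mul_right _ (by omega)
    omega
  obtain ⟨r, rfl⟩ : ∃ r, k = r + 1 := ⟨k - 1, by omega⟩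
  rw [Nat.add_sub_cancel]
  -- the bound
  have hχ : G.chromIndex = G.maxDegree + (r + 1) := by
    unfold AttainsSteffen at hSt
    rw [hSt, hm, hg, hk]
    congr 4
    omega
  have hnc : ∀ c : E → Fin (G.maxDegree + r), ¬ G.ProperColouring c := by
    intro c hc
    have := G.chromIndex_le hc
    omega
  obtain ⟨F, L, z, hL, hrL, heven, hinj, hF, hadj, hdegF, hcount, hFnc⟩ :=
    exists_ring G hnc (by omega : 2 ≤ r) hs
      (fun v => by rw [G.dgr_eq_degree]; have := G.degree_le_maxDegree v; omega)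
      (fun u v => by rw [G.mlt_eq_mult, ← hm]; exact G.mult_le_maxMult _) hk1
      (G.girthGT_of_girth (by omega))
  have hL1 : L ≠ 2 * s := by
    rintro rfl
    apply hno
    refine ⟨F, G.isRing_of (by omega) hinj hF hadj, ?_⟩
    have h1 := G.chromIndex_sub_le F
    have h2 := (G.sub F).lt_chromIndex hFnc
    omega
  obtain ⟨t, ht⟩ := heven
  have hLt : L = 2 * t := by omega
  have hts : s + 1 ≤ t := by omega
  subst hLt
  have hrt : r * (s + 1) ≤ r * t := Nat.mul_le_mul_left _ hts
  have e1 : r * (2 * t) = 2 * (r * t) := by ring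
  refine ⟨by omega, fun hconn => ?_⟩
  by_cases hex : ∃ i ≤ 2 * t, (G.sub F).degree (z i) < G.degree (z i)
  · obtain ⟨i, hi, hlt⟩ := hex
    have h1 := hdegF i hi
    have h2 := G.degree_le_maxDegree (z i)
    have h3 : G.maxDegree ≤ 2 * μ := by
      by_contra hgt
      push Not at hgt
      have h4 : Nat.card F ≤ (2 * t + 1) * μ :=
        G.card_ring_le (fun p => by rw [← hm]; exact G.mult_le_maxMult p) hF hadj
      have h5 : (2 * μ + 1 + r) * (2 * t) ≤ (G.maxDegree + r) * (2 * t) :=
        Nat.mul_le_mul_right _ (by omega)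
      have h6 : (2 * μ + 1 + r) * (2 * t) = 2 * (2 * (μ * t) + (r + 1) * t) := by ring
      have h7 : (2 * t + 1) * μ = 2 * (μ * t) + μ := by ring
      have h8 : (r + 1) * s ≤ (r + 1) * t := Nat.mul_le_mul_left _ (by omega)
      omega
    omega
  · exfalso
    push Not at hex
    -- all edges at the ring belong to it
    have hall : ∀ i ≤ 2 * t, ∀ e, z i ∈ G.ends e → e ∈ F := by
      intro i hi e hie
      have hle := hex i hi
      unfold degree at hle
      let φ : {e : F // z i ∈ (G.sub F).ends e} → {e : E // z i ∈ G.ends e} :=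
        fun e => ⟨(e : F), e.2⟩
      have hφ : Function.Injective φ := by
        intro a b hab
        exact Subtype.ext (Subtype.ext (Subtype.mk.inj hab))
      have hbij : Function.Bijective φ := (Nat.bijective_iff_injective_and_card φ).2
        ⟨hφ, le_antisymm (Nat.card_le_card_of_injective φ hφ) hle⟩
      obtain ⟨e', he'⟩ := hbij.2 ⟨e, hie⟩
      have h1 : ((e' : F) : E) = e := congrArg Subtype.val he'
      rw [← h1]
      exact (e' : F).2
    have hnbr : ∀ i ≤ 2 * t, ∀ w, G.simple.Adj (z i) w → ∃ j ≤ 2 * t, CAdj (2 * t) i j ∧ z j = w := by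
      rintro i hi w ⟨e, he⟩
      have heF := hall i hi e (G.mem_ends_left he)
      obtain ⟨j, hj, rfl⟩ := hF e heF w (G.mem_ends_right he)
      exact ⟨j, hj, (hadj i j hi hj).1 ⟨e, heF, he⟩, rfl⟩
    have hX : ∀ v : V, ∃ i ≤ 2 * t, z i = v := by
      intro v
      refine closed_univ hconn (S := {v | ∃ i ≤ 2 * t, z i = v}) ⟨z 0, 0, by omega, rfl⟩ ?_ v
      rintro _ ⟨i, hi, rfl⟩ w hw
      obtain ⟨j, hj, -, hjw⟩ := hnbr i hi w hw
      exact ⟨j, hj, hjw⟩
    obtain ⟨v, p, hp, hpl⟩ := G.exists_cycle_of_girth (by omega) hg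
    obtain ⟨h2, hcard⟩ := cycle_two hp
    have hS : ∀ w : V, w ∈ {x | x ∈ p.support} := by
      refine closed_univ hconn ⟨v, p.start_mem_support⟩ ?_
      intro x hx w hw
      obtain ⟨a, ha, b, hb, hab, hxa, hxb⟩ := h2 x hx
      obtain ⟨i, hi, rfl⟩ := hX x
      obtain ⟨j, hj, hcj, rfl⟩ := hnbr i hi w hw
      obtain ⟨ja, hja, hca, rfl⟩ := hnbr i hi a hxa
      obtain ⟨jb, hjb, hcb, rfl⟩ := hnbr i hi b hxb
      have hne : ja ≠ jb := fun h => hab (by rw [h])
      have : j = ja ∨ j = jb := by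
        unfold CAdj at hcj hca hcb
        omega
      rcases this with rfl | rfl
      · exact ha
      · exact hb
    have huniv : {x | x ∈ p.support} = Set.univ := Set.eq_univ_of_forall hS
    rw [huniv, Set.ncard_univ] at hcard
    have hV : 2 * t + 1 ≤ Nat.card V := by
      have : Nat.card (Fin (2 * t + 1)) ≤ Nat.card V := by
        refine Nat.card_le_card_of_injective (fun i : Fin (2 * t + 1) => z i) ?_
        intro a b hab
        exact Fin.ext (hinj a b (Nat.lt_succ_iff.1 a.isLt) (Nat.lt_succ_iff.1 b.isLt) hab)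
      rwa [Nat.card_eq_fintype_card, Fintype.card_fin] at this
    omega

end Multigraph

end Pool.Agent.Lib.MP_7ce1ef_co
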