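import Mathlib
import Pool.Agent.Lib.MP_7ce1ef_co.NonExist

/-!
# A thick ring of order `g + 2` next to a cycle of order `g`, possibly joined by one edge
-/

set_option linter.unusedSectionVars false

namespace Pool.Agent.Lib.MP_7ce1ef_co

namespace Ex

/-- a property of `Fin (n + 1)` which propagates away from non-zero elements holds everywhere -/
theorem fin_all {n : ℕ} (P : Fin (n + 1) → Prop) (h1 : ∀ a, a ≠ 0 → P a → P (a + 1))
    (h2 : ∀ a, a ≠ 0 → P a → P (a - 1)) (h3 : ∃ a, a ≠ 0 ∧ P a) : ∀ b, P b := by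
  obtain ⟨a, ha0, ha⟩ := h3
  have hapos : 0 < a.val := Fin.pos_iff_ne_zero.2 ha0
  have hup : ∀ k, ∀ h : a.val + k < n + 1, P ⟨a.val + k, h⟩ := by
    intro k
    induction k with
    | zero => intro _; exact ha
    | succ k ih =>
      intro h
      have h4 := h1 ⟨a.val + k, by omega⟩ (fun hh => by
        have := congrArg Fin.val hh
        simp only [Fin.val_zero] at this
        omega) (ih (by omega))
      have h5 : (⟨a.val + k, by omega⟩ : Fin (n + 1)) + 1 = ⟨a.val + (k + 1), h⟩ := by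
        apply Fin.ext
        rw [Fin.val_add_one_of_lt]
        · simp only []
          omega
        · rw [Fin.lt_def, Fin.val_last]
          simp only []
          omega
      rwa [h5] at h4
  have hdown : ∀ k, k ≤ a.val → ∀ h : a.val - k < n + 1, P ⟨a.val - k, h⟩ := by
    intro k
    induction k with
    | zero => intro _ _; exact ha
    | succ k ih =>
      intro hk h
      have hlt := a.isLt
      have h4 := h2 ⟨a.val - k, by omega⟩ (fun hh => by
        have := congrArg Fin.val hh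
        simp only [Fin.val_zero] at this
        omega) (ih (by omega) (by omega))
      have h5 : (⟨a.val - k, by omega⟩ : Fin (n + 1)) - 1 = ⟨a.val - (k + 1), h⟩ := by
        have h6 : (⟨a.val - (k + 1), h⟩ : Fin (n + 1)) + 1 = ⟨a.val - k, by omega⟩ := by
          apply Fin.ext
          rw [Fin.val_add_one_of_lt]
          · simp only []
            omega
          · rw [Fin.lt_def, Fin.val_last]
            simp only []
            omega
        rw [← h6, add_sub_cancel_right]
      rwa [h5] at h4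
  intro b
  by_cases hb : a.val ≤ b.val
  · have := hup (b.val - a.val) (by have := b.isLt; omega)
    have h6 : (⟨a.val + (b.val - a.val), by have := b.isLt; omega⟩ : Fin (n + 1)) = b :=
      Fin.ext (by simp only []; omega)
    rwa [h6] at this
  · have := hdown (a.val - b.val) (by omega) (by have := a.isLt; omega)
    have h6 : (⟨a.val - (a.val - b.val), by have := a.isLt; omega⟩ : Fin (n + 1)) = b :=
      Fin.ext (by simp only []; omega)
    rwa [h6] at this

variable (h μ : ℕ) (B : Type)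

/-- edges of the thick ring; one of them is dropped if there is a connecting edge -/
abbrev RE := {p : Fin (h + 5) × Fin μ // Nonempty B → ¬ (p.1 + 1 = 0 ∧ p.2.val = 0)}

/-- vertices -/
abbrev VV := Fin (h + 5) ⊕ Fin (h + 3)

/-- edges -/
abbrev EE := RE h μ B ⊕ (Fin (h + 3) ⊕ B)

variable {h μ B}

/-- ends -/
def en : EE h μ B → Sym2 (VV h)
  | Sum.inl p => s(Sum.inl p.1.1, Sum.inl (p.1.1 + 1))
  | Sum.inr (Sum.inl b) => s(Sum.inr b, Sum.inr (b + 1))
  | Sum.inr (Sum.inr _) => s(Sum.inl 0, Sum.inr 0)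

theorem one_ne {n : ℕ} : (1 : Fin (n + 2)) ≠ 0 := by
  intro hh
  have := congrArg Fin.val hh
  simp at this

theorem two_ne {n : ℕ} : (1 + 1 : Fin (n + 3)) ≠ 0 := by
  intro hh
  have h1 := congrArg Fin.val hh
  rw [Fin.val_add_one_of_lt] at h1
  · simp at h1
  · rw [Fin.lt_def, Fin.val_last, Fin.val_one]
    omega

theorem succ_ne {n : ℕ} (a : Fin (n + 2)) : a ≠ a + 1 := by
  intro hh
  exact one_ne (left_eq_add.1 hh)

theorem succ_succ_ne {n : ℕ} (a : Fin (n + 3)) : a ≠ a + 1 + 1 := by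
  intro hh
  rw [add_assoc] at hh
  exact two_ne (left_eq_add.1 hh)

variable (h μ B) in
/-- the example graph -/
def GG : Multigraph (VV h) (EE h μ B) where
  ends := en
  loopless := by
    rintro (p | b | b) hd
    · exact succ_ne _ (Sum.inl_injective (Sym2.mk_isDiag_iff.1 hd))
    · exact succ_ne _ (Sum.inr_injective (Sym2.mk_isDiag_iff.1 hd))
    · exact Sum.inl_ne_inr (Sym2.mk_isDiag_iff.1 hd)

theorem ends_inl (p : RE h μ B) :
    (GG h μ B).ends (Sum.inl p) = s(Sum.inl p.1.1, Sum.inl (p.1.1 + 1)) := rfl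

theorem ends_inr_inl (b : Fin (h + 3)) :
    (GG h μ B).ends (Sum.inr (Sum.inl b)) = s(Sum.inr b, Sum.inr (b + 1)) := rfl

theorem ends_inr_inr (b : B) :
    (GG h μ B).ends (Sum.inr (Sum.inr b)) = s(Sum.inl 0, Sum.inr 0) := rfl

/-- a ring edge with second coordinate one -/
def re1 (hμ : 2 ≤ μ) (a : Fin (h + 5)) : RE h μ B :=
  ⟨(a, ⟨1, by omega⟩), fun _ hh => by simp at hh⟩

theorem adj_inl {a : Fin (h + 5)} {w : VV h} (hw : (GG h μ B).simple.Adj (Sum.inl a) w) :
    w = Sum.inl (a + 1) ∨ w = Sum.inl (a - 1) ∨ (a = 0 ∧ w = Sum.inr 0) := by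
  obtain ⟨e, he⟩ := hw
  rcases e with p | b | b
  · rw [ends_inl, Sym2.eq_iff] at he
    rcases he with ⟨h1, h2⟩ | ⟨h1, h2⟩
    · left; rw [← h2, Sum.inl_injective h1]
    · right; left; rw [← h1, ← Sum.inl_injective h2, add_sub_cancel_right]
  · rw [ends_inr_inl, Sym2.eq_iff] at he
    rcases he with ⟨h1, h2⟩ | ⟨h1, h2⟩
    · exact absurd h1 Sum.inr_ne_inl
    · exact absurd h2 Sum.inr_ne_inl
  · rw [ends_inr_inr, Sym2.eq_iff] at he
    rcases he with ⟨h1, h2⟩ | ⟨h1, h2⟩
    · right; right; exact ⟨(Sum.inl_injective h1).symm, h2.symm⟩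
    · exact absurd h2 Sum.inr_ne_inl

theorem adj_inr {a : Fin (h + 3)} {w : VV h} (hw : (GG h μ B).simple.Adj (Sum.inr a) w) :
    w = Sum.inr (a + 1) ∨ w = Sum.inr (a - 1) ∨ (a = 0 ∧ w = Sum.inl 0) := by
  obtain ⟨e, he⟩ := hw
  rcases e with p | b | b
  · rw [ends_inl, Sym2.eq_iff] at he
    rcases he with ⟨h1, h2⟩ | ⟨h1, h2⟩
    · exact absurd h1 Sum.inl_ne_inr
    · exact absurd h2 Sum.inl_ne_inr
  · rw [ends_inr_inl, Sym2.eq_iff] at he
    rcases he with ⟨h1, h2⟩ | ⟨h1, h2⟩
    · left; rw [← h2, Sum.inr_injective h1]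
    · right; left; rw [← h1, ← Sum.inr_injective h2, add_sub_cancel_right]
  · rw [ends_inr_inr, Sym2.eq_iff] at he
    rcases he with ⟨h1, h2⟩ | ⟨h1, h2⟩
    · exact absurd h1 Sum.inl_ne_inr
    · right; right; exact ⟨(Sum.inr_injective h2).symm, h1.symm⟩

theorem adj_inl_succ (hμ : 2 ≤ μ) (a : Fin (h + 5)) :
    (GG h μ B).simple.Adj (Sum.inl a) (Sum.inl (a + 1)) :=
  ⟨Sum.inl (re1 hμ a), rfl⟩

theorem adj_inr_succ (a : Fin (h + 3)) :
    (GG h μ B).simple.Adj (Sum.inr a) (Sum.inr (a + 1)) :=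
  ⟨Sum.inr (Sum.inl a), rfl⟩

/-- a set in which everybody has two neighbours contains a whole side -/
theorem core_inl {S : Set (VV h)} (hS : Two (GG h μ B).simple S) (hex : ∃ a, Sum.inl a ∈ S) :
    ∀ a, Sum.inl a ∈ S := by
  have hstep : ∀ a : Fin (h + 5), a ≠ 0 → (Sum.inl a : VV h) ∈ S →
      Sum.inl (a + 1) ∈ S ∧ Sum.inl (a - 1) ∈ S := by
    intro a ha haS
    obtain ⟨x, hx, y, hy, hxy, hax, hay⟩ := hS _ haS
    rcases adj_inl hax with h1 | h1 | h1 <;> rcases adj_inl hay with h2 | h2 | h2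
    · exact absurd (h1.trans h2.symm) hxy
    · exact ⟨h1 ▸ hx, h2 ▸ hy⟩
    · exact absurd h2.1 ha
    · exact ⟨h2 ▸ hy, h1 ▸ hx⟩
    · exact absurd (h1.trans h2.symm) hxy
    · exact absurd h2.1 ha
    · exact absurd h1.1 ha
    · exact absurd h1.1 ha
    · exact absurd h1.1 ha
  refine fin_all (fun a => (Sum.inl a : VV h) ∈ S) (fun a ha haS => (hstep a ha haS).1)
    (fun a ha haS => (hstep a ha haS).2) ?_
  obtain ⟨a, haS⟩ := hex
  by_cases ha : a = 0
  · subst ha
    obtain ⟨x, hx, y, hy, hxy, hax, hay⟩ := hS _ haS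
    have h1 : (0 : Fin (h + 5)) + 1 ≠ 0 := by rw [zero_add]; exact one_ne
    have h2 : (0 : Fin (h + 5)) - 1 ≠ 0 := by
      rw [zero_sub, neg_ne_zero]; exact one_ne
    rcases adj_inl hax with h3 | h3 | h3
    · exact ⟨_, h1, h3 ▸ hx⟩
    · exact ⟨_, h2, h3 ▸ hx⟩
    · rcases adj_inl hay with h4 | h4 | h4
      · exact ⟨_, h1, h4 ▸ hy⟩
      · exact ⟨_, h2, h4 ▸ hy⟩
      · exact absurd (h3.2.trans h4.2.symm) hxy
  · exact ⟨a, ha, haS⟩

theorem core_inr {S : Set (VV h)} (hS : Two (GG h μ B).simple S) (hex : ∃ a, Sum.inr a ∈ S) :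
    ∀ a, Sum.inr a ∈ S := by
  have hstep : ∀ a : Fin (h + 3), a ≠ 0 → (Sum.inr a : VV h) ∈ S →
      Sum.inr (a + 1) ∈ S ∧ Sum.inr (a - 1) ∈ S := by
    intro a ha haS
    obtain ⟨x, hx, y, hy, hxy, hax, hay⟩ := hS _ haS
    rcases adj_inr hax with h1 | h1 | h1 <;> rcases adj_inr hay with h2 | h2 | h2
    · exact absurd (h1.trans h2.symm) hxy
    · exact ⟨h1 ▸ hx, h2 ▸ hy⟩
    · exact absurd h2.1 ha
    · exact ⟨h2 ▸ hy, h1 ▸ hx⟩
    · exact absurd (h1.trans h2.symm) hxy
    · exact absurd h2.1 ha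
    · exact absurd h1.1 ha
    · exact absurd h1.1 ha
    · exact absurd h1.1 ha
  refine fin_all (fun a => (Sum.inr a : VV h) ∈ S) (fun a ha haS => (hstep a ha haS).1)
    (fun a ha haS => (hstep a ha haS).2) ?_
  obtain ⟨a, haS⟩ := hex
  by_cases ha : a = 0
  · subst ha
    obtain ⟨x, hx, y, hy, hxy, hax, hay⟩ := hS _ haS
    have h1 : (0 : Fin (h + 3)) + 1 ≠ 0 := by rw [zero_add]; exact one_ne
    have h2 : (0 : Fin (h + 3)) - 1 ≠ 0 := by
      rw [zero_sub, neg_ne_zero]; exact one_ne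
    rcases adj_inr hax with h3 | h3 | h3
    · exact ⟨_, h1, h3 ▸ hx⟩
    · exact ⟨_, h2, h3 ▸ hx⟩
    · rcases adj_inr hay with h4 | h4 | h4
      · exact ⟨_, h1, h4 ▸ hy⟩
      · exact ⟨_, h2, h4 ▸ hy⟩
      · exact absurd (h3.2.trans h4.2.symm) hxy
  · exact ⟨a, ha, haS⟩

theorem card_of_inl {S : Set (VV h)} (hS : ∀ a, Sum.inl a ∈ S) : h + 5 ≤ S.ncard := by
  have h1 : (Set.range (Sum.inl : Fin (h + 5) → VV h)).ncard = h + 5 := by
    rw [← Nat.card_coe_set_eq, Nat.card_range_of_injective Sum.inl_injective,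
      Nat.card_eq_fintype_card, Fintype.card_fin]
  rw [← h1]
  apply Set.ncard_le_ncard _ (Set.toFinite S)
  rintro _ ⟨a, rfl⟩
  exact hS a

theorem card_of_inr {S : Set (VV h)} (hS : ∀ a, Sum.inr a ∈ S) : h + 3 ≤ S.ncard := by
  have h1 : (Set.range (Sum.inr : Fin (h + 3) → VV h)).ncard = h + 3 := by
    rw [← Nat.card_coe_set_eq, Nat.card_range_of_injective Sum.inr_injective,
      Nat.card_eq_fintype_card, Fintype.card_fin]
  rw [← h1]
  apply Set.ncard_le_ncard _ (Set.toFinite S)
  rintro _ ⟨a, rfl⟩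
  exact hS a

variable (h μ B) in
/-- the second cycle inside the graph -/
def homR : SimpleGraph.cycleGraph (h + 3) →g (GG h μ B).simple where
  toFun := Sum.inr
  map_rel' := by
    intro a b hab
    rw [SimpleGraph.cycleGraph_adj] at hab
    rcases hab with h1 | h1
    · rw [sub_eq_iff_eq_add'] at h1
      rw [h1]
      exact (adj_inr_succ b).symm
    · rw [sub_eq_iff_eq_add'] at h1
      rw [h1]
      exact adj_inr_succ a

/-- the first cycle inside the graph -/
def homL (hμ : 2 ≤ μ) : SimpleGraph.cycleGraph (h + 5) →g (GG h μ B).simple where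
  toFun := Sum.inl
  map_rel' := by
    intro a b hab
    rw [SimpleGraph.cycleGraph_adj] at hab
    rcases hab with h1 | h1
    · rw [sub_eq_iff_eq_add'] at h1
      rw [h1]
      exact (adj_inl_succ hμ b).symm
    · rw [sub_eq_iff_eq_add'] at h1
      rw [h1]
      exact adj_inl_succ hμ a

theorem girth_eq : (GG h μ B).girth = h + 3 := by
  apply Multigraph.girth_eq_of
  · refine ⟨_, (SimpleGraph.cycleGraph.cycle h).map (homR h μ B), ?_, ?_⟩
    · exact (SimpleGraph.Walk.isCycle_map_iff_of_injective Sum.inr_injective).2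
        SimpleGraph.cycleGraph.isCycle_cycle
    · rw [SimpleGraph.Walk.length_map, SimpleGraph.cycleGraph.length_cycle]
  · rintro S ⟨v, hv⟩ hS
    rcases v with a | a
    · have := card_of_inl (core_inl hS ⟨a, hv⟩)
      omega
    · exact card_of_inr (core_inr hS ⟨a, hv⟩)

theorem connected (hμ : 2 ≤ μ) (hB : Nonempty B) : (GG h μ B).simple.Connected := by
  obtain ⟨b⟩ := hB
  have h1 : ∀ v : VV h, (GG h μ B).simple.Reachable v (Sum.inl 0) := by
    have hbr : (GG h μ B).simple.Adj (Sum.inr 0) (Sum.inl 0) :=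
      ⟨Sum.inr (Sum.inr b), by rw [ends_inr_inr, Sym2.eq_swap]⟩
    rintro (a | a)
    · exact (SimpleGraph.cycleGraph_preconnected a 0).map (homL hμ)
    · exact ((SimpleGraph.cycleGraph_preconnected a 0).map (homR h μ B)).trans hbr.reachable
  have : Nonempty (VV h) := ⟨Sum.inl 0⟩
  exact ⟨fun u v => (h1 u).trans (h1 v).symm⟩

/-! ### degrees and multiplicities -/

theorem degree_le [Subsingleton B] [Finite B] (hμ : 2 ≤ μ) (v : VV h) :
    (GG h μ B).degree v ≤ 2 * μ := by
  have hcard : Nat.card (Bool × Fin μ) = 2 * μ := by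
    rw [Nat.card_eq_fintype_card, Fintype.card_prod, Fintype.card_bool, Fintype.card_fin]
  rw [← hcard]
  unfold Multigraph.degree
  rcases v with a | a
  · -- left
    let φ : EE h μ B → Bool × Fin μ := fun e => match e with
      | Sum.inl p => (decide (p.1.1 = a), p.1.2)
      | Sum.inr _ => (false, ⟨0, by omega⟩)
    refine Nat.card_le_card_of_injective (fun e : {e : EE h μ B // Sum.inl a ∈ (GG h μ B).ends e} =>
      φ e.1) ?_
    have hleft : ∀ p : RE h μ B, (Sum.inl a : VV h) ∈ (GG h μ B).ends (Sum.inl p) → p.1.1 ≠ a →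
        a = p.1.1 + 1 := by
      intro p hp hne
      rw [ends_inl, Sym2.mem_iff] at hp
      rcases hp with h1 | h1
      · exact absurd (Sum.inl_injective h1).symm hne
      · exact Sum.inl_injective h1
    have hcyc : ∀ b : Fin (h + 3), (Sum.inl a : VV h) ∉ (GG h μ B).ends (Sum.inr (Sum.inl b)) := by
      intro b hb
      rw [ends_inr_inl, Sym2.mem_iff] at hb
      rcases hb with h1 | h1
      · exact Sum.inl_ne_inr h1
      · exact Sum.inl_ne_inr h1
    have hbr : ∀ b : B, (Sum.inl a : VV h) ∈ (GG h μ B).ends (Sum.inr (Sum.inr b)) → a = 0 := by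
      intro b hb
      rw [ends_inr_inr, Sym2.mem_iff] at hb
      rcases hb with h1 | h1
      · exact Sum.inl_injective h1
      · exact absurd h1 Sum.inl_ne_inr
    have hmix : ∀ (p : RE h μ B) (b : B), (Sum.inl a : VV h) ∈ (GG h μ B).ends (Sum.inl p) →
        (Sum.inl a : VV h) ∈ (GG h μ B).ends (Sum.inr (Sum.inr b)) →
        φ (Sum.inl p) ≠ φ (Sum.inr (Sum.inr b)) := by
      intro p b hp hb hh
      have h1 : decide (p.1.1 = a) = false := congrArg Prod.fst hh
      have h2 : p.1.2 = ⟨0, by omega⟩ := congrArg Prod.snd hh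
      have h3 := hleft p hp (of_decide_eq_false h1)
      refine p.2 ⟨b⟩ ⟨?_, ?_⟩
      · rw [← h3]; exact hbr b hb
      · rw [h2]
    rintro ⟨e, he⟩ ⟨f, hf⟩ hef
    have hef' : φ e = φ f := hef
    rcases e with p | b | b
    · rcases f with q | c | c
      · have h1 : decide (p.1.1 = a) = decide (q.1.1 = a) := congrArg Prod.fst hef'
        have h2' := congrArg Prod.snd hef'
        have h2 : p.1.2 = q.1.2 := h2'
        have h3 : p.1.1 = q.1.1 := by
          by_cases hp : p.1.1 = a
          · rw [decide_eq_true hp] at h1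
            rw [hp, of_decide_eq_true h1.symm]
          · rw [decide_eq_false hp] at h1
            have h4 := hleft p he hp
            have h5 := hleft q hf (of_decide_eq_false h1.symm)
            exact add_right_cancel (h4.symm.trans h5)
        have h4 : p = q := Subtype.ext (Prod.ext h3 h2)
        subst h4
        rfl
      · exact absurd hf (hcyc c)
      · exact absurd hef' (hmix p c he hf)
    · exact absurd he (hcyc b)
    · rcases f with q | c | c
      · exact absurd hef'.symm (hmix q b hf he)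
      · exact absurd hf (hcyc c)
      · have : b = c := Subsingleton.elim b c
        subst this
        rfl
  · -- right
    let φ : EE h μ B → Bool × Fin μ := fun e => match e with
      | Sum.inl _ => (false, ⟨0, by omega⟩)
      | Sum.inr (Sum.inl c) => (decide (c = a), ⟨0, by omega⟩)
      | Sum.inr (Sum.inr _) => (true, ⟨1, by omega⟩)
    refine Nat.card_le_card_of_injective (fun e : {e : EE h μ B // Sum.inr a ∈ (GG h μ B).ends e} =>
      φ e.1) ?_
    have hleft : ∀ p : RE h μ B, (Sum.inr a : VV h) ∉ (GG h μ B).ends (Sum.inl p) := by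
      intro p hp
      rw [ends_inl, Sym2.mem_iff] at hp
      rcases hp with h1 | h1
      · exact Sum.inr_ne_inl h1
      · exact Sum.inr_ne_inl h1
    have hcyc : ∀ b : Fin (h + 3), (Sum.inr a : VV h) ∈ (GG h μ B).ends (Sum.inr (Sum.inl b)) →
        b ≠ a → a = b + 1 := by
      intro b hb hne
      rw [ends_inr_inl, Sym2.mem_iff] at hb
      rcases hb with h1 | h1
      · exact absurd (Sum.inr_injective h1).symm hne
      · exact Sum.inr_injective h1
    have hmix : ∀ (c : Fin (h + 3)) (b : B),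
        φ (Sum.inr (Sum.inl c)) ≠ φ (Sum.inr (Sum.inr b)) := by
      intro c b hh
      have h2 : (⟨0, by omega⟩ : Fin μ) = ⟨1, by omega⟩ := congrArg Prod.snd hh
      have h3 := congrArg Fin.val h2
      simp only at h3
      omega
    rintro ⟨e, he⟩ ⟨f, hf⟩ hef
    have hef' : φ e = φ f := hef
    rcases e with p | b | b
    · exact absurd he (hleft p)
    · rcases f with q | c | c
      · exact absurd hf (hleft q)
      · have h1 : decide (b = a) = decide (c = a) := congrArg Prod.fst hef'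
        have h3 : b = c := by
          by_cases hb : b = a
          · rw [decide_eq_true hb] at h1
            rw [hb, of_decide_eq_true h1.symm]
          · rw [decide_eq_false hb] at h1
            have h4 := hcyc b he hb
            have h5 := hcyc c hf (of_decide_eq_false h1.symm)
            exact add_right_cancel (h4.symm.trans h5)
        subst h3
        rfl
      · exact absurd hef' (hmix b c)
    · rcases f with q | c | c
      · exact absurd hf (hleft q)
      · exact absurd hef'.symm (hmix c b)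
      · have : b = c := Subsingleton.elim b c
        subst this
        rfl

theorem le_degree [Subsingleton B] [Finite B] : 2 * μ ≤ (GG h μ B).degree (Sum.inl 1) := by
  have hcard : Nat.card (Bool × Fin μ) = 2 * μ := by
    rw [Nat.card_eq_fintype_card, Fintype.card_prod, Fintype.card_bool, Fintype.card_fin]
  rw [← hcard]
  unfold Multigraph.degree
  have h1 : (0 : Fin (h + 5)) + 1 ≠ 0 := by rw [zero_add]; exact one_ne
  let ψ : Bool × Fin μ → RE h μ B := fun x =>
    ⟨(if x.1 then 1 else 0, x.2), fun _ hh => by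
      rcases x with ⟨x1, x2⟩
      cases x1
      · exact h1 hh.1
      · exact two_ne hh.1⟩
  have hψ : ∀ x, (Sum.inl 1 : VV h) ∈ (GG h μ B).ends (Sum.inl (ψ x)) := by
    rintro ⟨x1, x2⟩
    rw [ends_inl, Sym2.mem_iff]
    cases x1
    · right
      show (Sum.inl 1 : VV h) = Sum.inl (0 + 1)
      rw [zero_add]
    · left; rfl
  refine Nat.card_le_card_of_injective (fun x => (⟨Sum.inl (ψ x), hψ x⟩ :
    {e : EE h μ B // Sum.inl 1 ∈ (GG h μ B).ends e})) ?_
  intro x y hxy
  have h2 : ψ x = ψ y := Sum.inl_injective (Subtype.mk.inj hxy)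
  have h3 := Subtype.mk.inj h2
  have h4 := congrArg Prod.fst h3
  have h5 := congrArg Prod.snd h3
  simp only at h4 h5
  rcases x with ⟨x1, x2⟩
  rcases y with ⟨y1, y2⟩
  simp only at h4 h5
  subst h5
  have : x1 = y1 := by
    cases x1 <;> cases y1
    · rfl
    · simp at h4
    · simp at h4
    · rfl
  rw [this]

theorem maxDegree_eq [Subsingleton B] [Finite B] (hμ : 2 ≤ μ) :
    (GG h μ B).maxDegree = 2 * μ :=
  le_antisymm ((GG h μ B).maxDegree_le (degree_le hμ))
    (le_degree.trans ((GG h μ B).degree_le_maxDegree _))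

theorem mult_le [Subsingleton B] [Finite B] (hμ : 2 ≤ μ) (p : Sym2 (VV h)) :
    (GG h μ B).mult p ≤ μ := by
  have hcard : Nat.card (Fin μ) = μ := by
    rw [Nat.card_eq_fintype_card, Fintype.card_fin]
  conv_rhs => rw [← hcard]
  unfold Multigraph.mult
  let φ : EE h μ B → Fin μ := fun e => match e with
    | Sum.inl p => p.1.2
    | Sum.inr _ => ⟨0, by omega⟩
  refine Nat.card_le_card_of_injective (fun e : {e : EE h μ B // (GG h μ B).ends e = p} =>
    φ e.1) ?_
  rintro ⟨e, he⟩ ⟨f, hf⟩ hef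
  have hef' : φ e = φ f := hef
  have h0 := he.trans hf.symm
  apply Subtype.ext
  simp only
  rcases e with p | b | b <;> rcases f with q | c | c
  · have h2 : p.1.2 = q.1.2 := hef'
    rw [ends_inl, ends_inl, Sym2.eq_iff] at h0
    have h3 : p.1.1 = q.1.1 := by
      rcases h0 with ⟨h3, -⟩ | ⟨h3, h4⟩
      · exact Sum.inl_injective h3
      · have h5 := Sum.inl_injective h3
        have h6 := Sum.inl_injective h4
        rw [h5] at h6
        exact absurd h6.symm (succ_succ_ne _)
    rw [Subtype.ext (Prod.ext h3 h2)]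
  · rw [ends_inl, ends_inr_inl, Sym2.eq_iff] at h0
    rcases h0 with ⟨h3, -⟩ | ⟨h3, -⟩
    · exact absurd h3 Sum.inl_ne_inr
    · exact absurd h3 Sum.inl_ne_inr
  · rw [ends_inl, ends_inr_inr, Sym2.eq_iff] at h0
    rcases h0 with ⟨-, h3⟩ | ⟨h3, -⟩
    · exact absurd h3 Sum.inl_ne_inr
    · exact absurd h3 Sum.inl_ne_inr
  · rw [ends_inl, ends_inr_inl, Sym2.eq_iff] at h0
    rcases h0 with ⟨h3, -⟩ | ⟨h3, -⟩
    · exact absurd h3 Sum.inr_ne_inl
    · exact absurd h3 Sum.inr_ne_inl
  · rw [ends_inr_inl, ends_inr_inl, Sym2.eq_iff] at h0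
    rcases h0 with ⟨h3, -⟩ | ⟨h3, h4⟩
    · rw [Sum.inr_injective h3]
    · have h5 := Sum.inr_injective h3
      have h6 := Sum.inr_injective h4
      rw [h5] at h6
      exact absurd h6.symm (succ_succ_ne _)
  · rw [ends_inr_inl, ends_inr_inr, Sym2.eq_iff] at h0
    rcases h0 with ⟨h3, -⟩ | ⟨-, h3⟩
    · exact absurd h3 Sum.inr_ne_inl
    · exact absurd h3 Sum.inr_ne_inl
  · rw [ends_inl, ends_inr_inr, Sym2.eq_iff] at h0
    rcases h0 with ⟨-, h3⟩ | ⟨-, h3⟩
    · exact absurd h3 Sum.inr_ne_inl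
    · exact absurd h3 Sum.inr_ne_inl
  · rw [ends_inr_inl, ends_inr_inr, Sym2.eq_iff] at h0
    rcases h0 with ⟨h3, -⟩ | ⟨h3, -⟩
    · exact absurd h3 Sum.inl_ne_inr
    · exact absurd h3 Sum.inl_ne_inr
  · rw [Subsingleton.elim b c]

theorem maxMult_eq [Subsingleton B] [Finite B] (hμ : 2 ≤ μ) :
    (GG h μ B).maxMult = μ := by
  refine le_antisymm ((GG h μ B).maxMult_le (mult_le hμ)) ?_
  refine le_trans ?_ ((GG h μ B).mult_le_maxMult s(Sum.inl 0, Sum.inl (0 + 1)))
  have hcard : Nat.card (Fin μ) = μ := by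
    rw [Nat.card_eq_fintype_card, Fintype.card_fin]
  conv_lhs => rw [← hcard]
  unfold Multigraph.mult
  have h1 : (0 : Fin (h + 5)) + 1 ≠ 0 := by rw [zero_add]; exact one_ne
  let ψ : Fin μ → RE h μ B := fun x => ⟨(0, x), fun _ hh => h1 hh.1⟩
  refine Nat.card_le_card_of_injective (fun x => (⟨Sum.inl (ψ x), ends_inl _⟩ :
    {e : EE h μ B // (GG h μ B).ends e = s(Sum.inl 0, Sum.inl (0 + 1))})) ?_
  intro x y hxy
  have h2 : ψ x = ψ y := Sum.inl_injective (Subtype.mk.inj hxy)
  exact congrArg Prod.snd (Subtype.mk.inj h2)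

end Ex

end Pool.Agent.Lib.MP_7ce1ef_co
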