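import Mathlib
import Pool.Agent.Lib.MP_7ce1ef_co.Example

/-!
# The chromatic index of the example
-/

set_option linter.unusedSectionVars false

namespace Pool.Agent.Lib.MP_7ce1ef_co

namespace Ex

theorem modne {x y j j' C μ : ℕ} (h1 : x + μ ≤ y) (h2 : y + μ ≤ x + C) (hj : j < μ)
    (hj' : j' < μ) : (x + j) % C ≠ (y + j') % C := by
  intro h
  have h3 : C ∣ (y + j') - (x + j) := (Nat.modEq_iff_dvd' (by omega)).1 h
  have := Nat.le_of_dvd (by omega) h3
  omega

theorem modne2 {x j j' C : ℕ} (hj : j < C) (hj' : j' < C) (hne : j ≠ j') :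
    (x + j) % C ≠ (x + j') % C := by
  intro h
  have h3 : j ≡ j' [MOD C] := Nat.ModEq.add_left_cancel' x h
  have h4 : j % C = j' % C := h3
  rw [Nat.mod_eq_of_lt hj, Nat.mod_eq_of_lt hj'] at h4
  exact hne h4

/-- start of the interval of colours -/
def AA (t C i : ℕ) : ℕ := i * (t * C) / (2 * t + 1)

theorem AA_low {t C μ : ℕ} (hC : (2 * t + 1) * μ ≤ t * C) (i : ℕ) :
    AA t C i + μ ≤ AA t C (i + 1) := by
  unfold AA
  rw [← Nat.add_mul_div_right _ _ (by omega : 0 < 2 * t + 1)]
  apply Nat.div_le_div_right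
  have : (i + 1) * (t * C) = i * (t * C) + t * C := by ring
  have : μ * (2 * t + 1) = (2 * t + 1) * μ := by ring
  omega

theorem AA_high {t C μ : ℕ} (hC : (2 * t + 1) * μ ≤ t * C) (i : ℕ) :
    AA t C (i + 1) + μ ≤ AA t C i + C := by
  unfold AA
  rw [← Nat.add_mul_div_right _ _ (by omega : 0 < 2 * t + 1),
    ← Nat.add_mul_div_right _ C (by omega : 0 < 2 * t + 1)]
  apply Nat.div_le_div_right
  have h1 : (i + 1) * (t * C) = i * (t * C) + t * C := by ring
  have h2 : μ * (2 * t + 1) = (2 * t + 1) * μ := by ring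
  have h3 : C * (2 * t + 1) = t * C + t * C + C := by ring
  omega

theorem AA_zero {t C : ℕ} : AA t C 0 = 0 := by
  unfold AA
  rw [Nat.zero_mul, Nat.zero_div]

theorem AA_last {t C : ℕ} : AA t C (2 * t + 1) = t * C := by
  unfold AA
  rw [Nat.mul_div_cancel_left _ (by omega)]

variable {h μ : ℕ} {B : Type}

theorem ring_ne {t C : ℕ} (ht : h + 5 = 2 * t + 1) (hC : (2 * t + 1) * μ ≤ t * C)
    (a : Fin (h + 5)) {j j' : ℕ} (hj : j < μ) (hj' : j' < μ) :
    (AA t C a.val + j) % C ≠ (AA t C (a + 1).val + j') % C := by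
  by_cases ha : a.val + 1 < h + 5
  · have h1 : (a + 1).val = a.val + 1 := by
      apply Fin.val_add_one_of_lt
      rw [Fin.lt_def, Fin.val_last]
      omega
    rw [h1]
    exact modne (AA_low hC _) (AA_high hC _) hj hj'
  · have h1 : a = Fin.last (h + 4) := by
      apply Fin.ext
      rw [Fin.val_last]
      have := a.isLt
      omega
    have h2 : (a + 1).val = 0 := by rw [h1, Fin.last_add_one]; rfl
    have h3 : a.val = 2 * t := by have := a.isLt; omega
    have h4 : (AA t C (a + 1).val + j') % C = (AA t C (2 * t + 1) + j') % C := by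
      rw [h2, AA_zero, AA_last, Nat.zero_add, Nat.add_comm, Nat.add_mul_mod_self_right]
    rw [h4, h3]
    exact modne (AA_low hC _) (AA_high hC _) hj hj'

/-- the colouring -/
def colN (t C : ℕ) : EE h μ B → ℕ
  | Sum.inl p => (AA t C p.1.1.val + p.1.2.val) % C
  | Sum.inr (Sum.inl b) => (AA t C (2 * t) + (1 + b.val)) % C
  | Sum.inr (Sum.inr _) => (AA t C (2 * t) + 0) % C

theorem colN_lt {t C : ℕ} (hC : 0 < C) (e : EE h μ B) : colN t C e < C := by
  rcases e with p | b | b
  · exact Nat.mod_lt _ hC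
  · exact Nat.mod_lt _ hC
  · exact Nat.mod_lt _ hC

theorem eq_last_of {n : ℕ} {a : Fin (n + 1)} (ha : a + 1 = 0) : a.val = n := by
  by_contra hne
  have h1 : a < Fin.last n := by
    rw [Fin.lt_def, Fin.val_last]
    have := a.isLt
    omega
  have h2 := Fin.val_add_one_of_lt h1
  rw [ha] at h2
  simp at h2

theorem proper_aux [Subsingleton B] {t C : ℕ} (ht : h + 5 = 2 * t + 1)
    (hC : (2 * t + 1) * μ ≤ t * C) (hμ : h + 3 ≤ μ) (e f : EE h μ B) (hef : e ≠ f) (v : VV h)
    (hve : v ∈ (GG h μ B).ends e) (hvf : v ∈ (GG h μ B).ends f) :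
    colN t C e ≠ colN t C f := by
  have hμC : 2 * μ ≤ C := by
    by_contra hlt
    push Not at hlt
    have h1 : t * C ≤ t * (2 * μ) := Nat.mul_le_mul_left _ (by omega)
    have h2 : (2 * t + 1) * μ = t * (2 * μ) + μ := by ring
    omega
  have hLL : ∀ p q : RE h μ B, p ≠ q → ∀ v, v ∈ (GG h μ B).ends (Sum.inl p) →
      v ∈ (GG h μ B).ends (Sum.inl q) → colN t C (Sum.inl p : EE h μ B) ≠ colN t C (Sum.inl q : EE h μ B) := by
    intro p q hpq v hvp hvq
    rw [ends_inl, Sym2.mem_iff] at hvp hvq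
    have hcase : p.1.1 = q.1.1 ∨ q.1.1 = p.1.1 + 1 ∨ p.1.1 = q.1.1 + 1 := by
      rcases hvp with h1 | h1 <;> rcases hvq with h2 | h2
      · left; exact Sum.inl_injective (h1.symm.trans h2)
      · right; right; exact Sum.inl_injective (h1.symm.trans h2)
      · right; left; exact (Sum.inl_injective (h1.symm.trans h2)).symm
      · left; exact add_right_cancel (Sum.inl_injective (h1.symm.trans h2))
    have hp2 := p.1.2.isLt
    have hq2 := q.1.2.isLt
    show (AA t C p.1.1.val + p.1.2.val) % C ≠ (AA t C q.1.1.val + q.1.2.val) % C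
    rcases hcase with h1 | h1 | h1
    · rw [h1]
      apply modne2 (by omega) (by omega)
      intro h2
      exact hpq (Subtype.ext (Prod.ext h1 (Fin.ext h2)))
    · rw [h1]
      exact ring_ne ht hC p.1.1 hp2 hq2
    · rw [h1]
      exact (ring_ne ht hC q.1.1 hq2 hp2).symm
  have hLC : ∀ (p : RE h μ B) (b : Fin (h + 3)) (v : VV h), v ∈ (GG h μ B).ends (Sum.inl p) →
      v ∉ (GG h μ B).ends (Sum.inr (Sum.inl b)) := by
    intro p b v hvp hvb
    rw [ends_inl, Sym2.mem_iff] at hvp
    rw [ends_inr_inl, Sym2.mem_iff] at hvb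
    rcases hvp with rfl | rfl <;> rcases hvb with h2 | h2 <;> exact Sum.inl_ne_inr h2
  have hLB : ∀ (p : RE h μ B) (b : B) (v : VV h), v ∈ (GG h μ B).ends (Sum.inl p) →
      v ∈ (GG h μ B).ends (Sum.inr (Sum.inr b)) →
      colN t C (Sum.inl p : EE h μ B) ≠ colN t C (Sum.inr (Sum.inr b) : EE h μ B) := by
    intro p b v hvp hvb
    rw [ends_inl, Sym2.mem_iff] at hvp
    rw [ends_inr_inr, Sym2.mem_iff] at hvb
    have hv : v = Sum.inl 0 := by
      rcases hvb with h2 | h2
      · exact h2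
      · rw [h2] at hvp
        rcases hvp with h3 | h3 <;> exact absurd h3 Sum.inr_ne_inl
    have hp2 := p.1.2.isLt
    show (AA t C p.1.1.val + p.1.2.val) % C ≠ (AA t C (2 * t) + 0) % C
    rcases hvp with h1 | h1
    · have h2 : p.1.1 = 0 := (Sum.inl_injective (hv.symm.trans h1)).symm
      have h3 := ring_ne ht hC (Fin.last (h + 4)) (by omega : 0 < μ) hp2
      have h5 : (0 : Fin (h + 5)).val = 0 := rfl
      have h6 : h + 4 = 2 * t := by omega
      rw [Fin.last_add_one, Fin.val_last, h5, h6] at h3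
      rw [h2, h5]
      exact h3.symm
    · have h2 : p.1.1 + 1 = 0 := (Sum.inl_injective (hv.symm.trans h1)).symm
      have h3 := eq_last_of h2
      rw [h3, show h + 4 = 2 * t by omega]
      apply modne2 (by omega) (by omega)
      intro h4
      exact p.2 ⟨b⟩ ⟨h2, h4⟩
  have hCC : ∀ b c : Fin (h + 3), b ≠ c →
      colN t C (Sum.inr (Sum.inl b) : EE h μ B) ≠ colN t C (Sum.inr (Sum.inl c) : EE h μ B) := by
    intro b c hbc
    have hb := b.isLt
    have hc := c.isLt
    apply modne2 (by omega) (by omega)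
    intro h1
    exact hbc (Fin.ext (by omega))
  have hCB : ∀ (b : Fin (h + 3)) (c : B),
      colN t C (Sum.inr (Sum.inl b) : EE h μ B) ≠ colN t C (Sum.inr (Sum.inr c) : EE h μ B) := by
    intro b c
    have hb := b.isLt
    exact modne2 (by omega) (by omega) (by omega)
  rcases e with p | b | b <;> rcases f with q | c | c
  · exact hLL p q (fun hh => hef (by rw [hh])) v hve hvf
  · exact absurd hvf (hLC p c v hve)
  · exact hLB p c v hve hvf
  · exact absurd hve (hLC q b v hvf)
  · exact hCC b c (fun hh => hef (by rw [hh]))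
  · exact hCB b c
  · exact (hLB q b v hvf hve).symm
  · exact (hCB c b).symm
  · exact absurd (by rw [Subsingleton.elim b c]) hef

theorem chromIndex_le' [Subsingleton B] {t C : ℕ} (ht : h + 5 = 2 * t + 1)
    (hC : (2 * t + 1) * μ ≤ t * C) (hμ : h + 3 ≤ μ) : (GG h μ B).chromIndex ≤ C := by
  have hC0 : 0 < C := by
    rcases Nat.eq_zero_or_pos C with h0 | h0
    · rw [h0, Nat.mul_zero] at hC
      have h1 : 0 < (2 * t + 1) * μ := Nat.mul_pos (by omega) (by omega)
      omega
    · exact h0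
  refine (GG h μ B).chromIndex_le (c := fun e => (⟨colN t C e, colN_lt hC0 e⟩ : Fin C)) ?_
  intro e f hef v hve hvf hh
  exact proper_aux ht hC hμ e f hef v hve hvf (Fin.mk.inj hh)

theorem card_RE [Finite B] (hμ : 0 < μ) :
    (h + 5) * μ ≤ Nat.card (RE h μ B) + 1 ∧ (IsEmpty B → (h + 5) * μ ≤ Nat.card (RE h μ B)) := by
  classical
  have h0 : Nat.card (Fin (h + 5) × Fin μ) = (h + 5) * μ := by
    rw [Nat.card_eq_fintype_card, Fintype.card_prod, Fintype.card_fin, Fintype.card_fin]
  constructor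
  · let p0 : Fin (h + 5) × Fin μ := (Fin.last (h + 4), ⟨0, hμ⟩)
    have h1 : Nat.card {p : Fin (h + 5) × Fin μ // p ≠ p0} ≤ Nat.card (RE h μ B) := by
      refine Nat.card_le_card_of_injective (fun p => (⟨p.1, fun _ hh => p.2 (Prod.ext
        (Fin.ext ?_) (Fin.ext hh.2))⟩ : RE h μ B)) ?_
      · rw [eq_last_of hh.1]; rfl
      · intro a b hab
        exact Subtype.ext (Subtype.mk.inj hab)
    have h2 : Nat.card {p : Fin (h + 5) × Fin μ // p ≠ p0} = (h + 5) * μ - 1 := by
      rw [Nat.card_eq_fintype_card, Fintype.card_subtype_compl, Fintype.card_subtype_eq,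
        ← Nat.card_eq_fintype_card, h0]
    omega
  · intro hB
    rw [← h0]
    refine Nat.card_le_card_of_injective (fun p => (⟨p, fun hb => ?_⟩ : RE h μ B)) ?_
    · exact (not_nonempty_iff.2 hB hb).elim
    · intro a b hab
      exact Subtype.mk.inj hab

theorem colour_count [Finite B] {t N : ℕ} (ht : h + 5 = 2 * t + 1) {c : EE h μ B → Fin N}
    (hc : (GG h μ B).ProperColouring c) : Nat.card (RE h μ B) ≤ N * t := by
  classical
  have : Fintype B := Fintype.ofFinite B
  have h1 := Multigraph.card_le_of_coloured (G := GG h μ B)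
    (T := (Finset.univ : Finset (RE h μ B)).image Sum.inl) (c := c)
    (X := (Finset.univ : Finset (Fin (h + 5))).image Sum.inl) (m := t)
    (by rw [Finset.card_image_of_injective _ Sum.inl_injective, Finset.card_univ,
      Fintype.card_fin, ht])
    (by
      intro e he v hv
      rw [Finset.mem_image] at he
      obtain ⟨p, -, rfl⟩ := he
      rw [ends_inl, Sym2.mem_iff] at hv
      rw [Finset.mem_image]
      rcases hv with rfl | rfl
      · exact ⟨_, Finset.mem_univ _, rfl⟩
      · exact ⟨_, Finset.mem_univ _, rfl⟩)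
    (fun e _ f _ hef v hve hvf => hc e f hef v hve hvf)
  rw [Finset.card_image_of_injective _ Sum.inl_injective, Finset.card_univ, Fintype.card_fin] at h1
  rw [Nat.card_eq_fintype_card]
  exact h1

/-- a ring subgraph of order `h + 3` consists of edges of the thin cycle -/
theorem ring_small [Finite B] {F : Set (EE h μ B)}
    (hF : ((GG h μ B).sub F).IsRing (h + 3)) : ((GG h μ B).sub F).chromIndex ≤ h + 3 := by
  classical
  obtain ⟨f, hf⟩ := hF
  have hadj : ∀ a : Fin (h + 3), (GG h μ B).simple.Adj (f a) (f (a + 1)) := by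
    intro a
    apply Multigraph.simple_sub_le (GG h μ B) F
    rw [hf, SimpleGraph.map_adj]
    refine ⟨a, a + 1, ?_, rfl, rfl⟩
    rw [SimpleGraph.cycleGraph_adj]
    right
    rw [add_sub_cancel_left]
  have hTwo : Two (GG h μ B).simple (Set.range f) := by
    rintro _ ⟨a, rfl⟩
    refine ⟨f (a + 1), ⟨_, rfl⟩, f (a - 1), ⟨_, rfl⟩, ?_, hadj a, ?_⟩
    · intro hh
      have h1 := f.injective hh
      have h2 : a + 1 + 1 = a := by
        rw [h1, sub_add_cancel]
      exact succ_succ_ne a h2.symm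
    · have := hadj (a - 1)
      rw [sub_add_cancel] at this
      exact this.symm
  have hcard : (Set.range f).ncard = h + 3 := by
    rw [← Nat.card_coe_set_eq, Nat.card_range_of_injective f.injective,
      Nat.card_eq_fintype_card, Fintype.card_fin]
  have hno : ∀ a : Fin (h + 5), (Sum.inl a : VV h) ∉ Set.range f := by
    intro a ha
    have := card_of_inl (core_inl hTwo ⟨a, ha⟩)
    omega
  have hall : ∀ e ∈ F, ∃ b : Fin (h + 3), e = Sum.inr (Sum.inl b) := by
    intro e he
    have hmem : ∀ v ∈ (GG h μ B).ends e, v ∈ Set.range f := by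
      intro v hv
      obtain ⟨w, hw⟩ := Sym2.mem_iff_exists.1 hv
      have h1 : ((GG h μ B).sub F).simple.Adj v w := ⟨⟨e, he⟩, hw⟩
      rw [hf, SimpleGraph.map_adj] at h1
      obtain ⟨a, b, -, rfl, -⟩ := h1
      exact ⟨a, rfl⟩
    rcases e with p | b | b
    · exact absurd (hmem _ (by rw [ends_inl]; exact Sym2.mem_mk_left _ _)) (hno _)
    · exact ⟨b, rfl⟩
    · exact absurd (hmem _ (by rw [ends_inr_inr]; exact Sym2.mem_mk_left _ _)) (hno _)
  choose! φ hφ using hall
  refine ((GG h μ B).sub F).chromIndex_le_card.trans ?_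
  have h1 : Nat.card F ≤ Nat.card (Fin (h + 3)) := by
    refine Nat.card_le_card_of_injective (fun e : F => φ e) ?_
    intro a b hab
    have hab' : φ (a : EE h μ B) = φ (b : EE h μ B) := hab
    apply Subtype.ext
    rw [hφ a a.2, hφ b b.2, hab']
  rwa [Nat.card_eq_fintype_card (α := Fin (h + 3)), Fintype.card_fin] at h1

theorem example_ok (s μ k : ℕ) (hμ : 2 * (s + 1) + 1 ≤ μ)
    (hk : k = ⌈(μ : ℚ) / ((s + 1 : ℕ) : ℚ)⌉₊) (B : Type) [Subsingleton B] [Finite B]
    (h1 : (k - 1) * (s + 2) + 1 ≤ μ) (h2 : Nonempty B → (k - 1) * (s + 2) + 2 ≤ μ) :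
    (GG (2 * s) μ B).girth = 2 * (s + 1) + 1 ∧ (GG (2 * s) μ B).maxMult = μ ∧
      (GG (2 * s) μ B).AttainsSteffen ∧ ¬ (GG (2 * s) μ B).HasRingSubgraph (2 * (s + 1) + 1) := by
  have hk1 : μ ≤ k * (s + 1) := (ceil_div_le_iff (by omega)).1 hk.ge
  have hg : (GG (2 * s) μ B).girth = 2 * (s + 1) + 1 := girth_eq
  have hm : (GG (2 * s) μ B).maxMult = μ := maxMult_eq (by omega)
  have hk0 : 1 ≤ k := by
    rcases Nat.eq_zero_or_pos k with h0 | h0
    · rw [h0, Nat.zero_mul] at hk1; omega
    · exact h0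
  have ht : 2 * s + 5 = 2 * (s + 2) + 1 := by omega
  have hup : (GG (2 * s) μ B).chromIndex ≤ 2 * μ + k := by
    refine chromIndex_le' ht ?_ (by omega)
    have e1 : (2 * (s + 2) + 1) * μ = 2 * ((s + 2) * μ) + μ := by ring
    have e2 : (s + 2) * (2 * μ + k) = 2 * ((s + 2) * μ) + (k * (s + 1) + k) := by ring
    omega
  have hlow : 2 * μ + k ≤ (GG (2 * s) μ B).chromIndex := by
    apply Multigraph.le_chromIndex
    intro N c hc
    have h3 := colour_count ht hc
    obtain ⟨h4, h5⟩ := card_RE (h := 2 * s) (μ := μ) (B := B) (by omega)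
    by_contra hlt
    push Not at hlt
    have h6 : N * (s + 2) ≤ (2 * μ + (k - 1)) * (s + 2) := Nat.mul_le_mul_right _ (by omega)
    have e1 : (2 * μ + (k - 1)) * (s + 2) = 2 * ((s + 2) * μ) + (k - 1) * (s + 2) := by ring
    have e2 : (2 * s + 5) * μ = 2 * ((s + 2) * μ) + μ := by ring
    rcases isEmpty_or_nonempty B with hB | hB
    · have := h5 hB
      omega
    · have := h2 hB
      omega
  have hχ : (GG (2 * s) μ B).chromIndex = 2 * μ + k := le_antisymm hup hlow
  refine ⟨hg, hm, ?_, ?_⟩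
  · unfold Multigraph.AttainsSteffen
    rw [hχ, hm, hg, maxDegree_eq (by omega), hk]
    congr 4
    omega
  · rintro ⟨F, hF, hχF⟩
    have h3 := ring_small (h := 2 * s) hF
    omega

end Ex

end Pool.Agent.Lib.MP_7ce1ef_co
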