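import Mathlib
import Pool.Agent.Lib.MP_7ce1ef_co.NonExist

/-!
# The complete graph on five vertices with every edge replaced by `μ` parallel edges
-/

set_option linter.unusedSectionVars false

namespace Pool.Agent.Lib.MP_7ce1ef_co

namespace K5

variable (μ : ℕ)

/-- pairs of distinct vertices -/
abbrev PP := {p : Sym2 (Fin 5) // ¬ p.IsDiag}

/-- the graph -/
def KK : Multigraph (Fin 5) (PP × Fin μ) where
  ends e := e.1.1
  loopless e := e.1.2

variable {μ}

theorem ends_eq (e : PP × Fin μ) : (KK μ).ends e = e.1.1 := rfl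

theorem simple_eq (hμ : 0 < μ) : (KK μ).simple = ⊤ := by
  ext u v
  rw [SimpleGraph.top_adj]
  constructor
  · intro h; exact h.ne
  · intro h
    exact ⟨(⟨s(u, v), fun hd => h (Sym2.mk_isDiag_iff.1 hd)⟩, ⟨0, hμ⟩), rfl⟩

theorem girth_eq (hμ : 0 < μ) : (KK μ).girth = 3 := by
  unfold Multigraph.girth
  rw [simple_eq hμ]
  apply SimpleGraph.girth_top
  rw [ENat.card_eq_coe_fintype_card, Fintype.card_fin]
  norm_num

theorem card_fib (P : PP → Prop) :
    Nat.card {e : PP × Fin μ // P e.1} = Nat.card {p : PP // P p} * μ := by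
  rw [Nat.card_congr (Equiv.prodSubtypeFstEquivSubtypeProd (p := P) (β := Fin μ)),
    Nat.card_prod, Nat.card_eq_fintype_card (α := Fin μ), Fintype.card_fin]

theorem degree_eq (v : Fin 5) : (KK μ).degree v = 4 * μ := by
  unfold Multigraph.degree
  have h2 : Nat.card {p : PP // v ∈ p.1} = 4 := by
    rw [Nat.card_eq_fintype_card]
    revert v
    decide
  have h1 := card_fib (μ := μ) (fun p => v ∈ p.1)
  rw [h2] at h1
  exact h1

theorem mult_le (p : Sym2 (Fin 5)) : (KK μ).mult p ≤ μ := by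
  unfold Multigraph.mult
  have h1 := card_fib (μ := μ) (fun q => q.1 = p)
  have h2 : Nat.card {q : PP // q.1 = p} ≤ 1 := by
    rw [Nat.card_eq_fintype_card, Fintype.card_le_one_iff]
    rintro ⟨a, ha⟩ ⟨b, hb⟩
    exact Subtype.ext (Subtype.ext (ha.trans hb.symm))
  have h3 : Nat.card {e : PP × Fin μ // (KK μ).ends e = p} = Nat.card {q : PP // q.1 = p} * μ := h1
  rw [h3]
  calc _ ≤ 1 * μ := Nat.mul_le_mul_right _ h2
    _ = μ := Nat.one_mul μ

theorem maxDegree_eq : (KK μ).maxDegree = 4 * μ :=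
  le_antisymm ((KK μ).maxDegree_le fun v => (degree_eq v).le)
    ((degree_eq 0).ge.trans ((KK μ).degree_le_maxDegree 0))

theorem maxMult_eq : (KK μ).maxMult = μ := by
  refine le_antisymm ((KK μ).maxMult_le mult_le) ?_
  refine le_trans ?_ ((KK μ).mult_le_maxMult s(0, 1))
  unfold Multigraph.mult
  have h1 := card_fib (μ := μ) (fun q => q.1 = s(0, 1))
  have h2 : 1 ≤ Nat.card {q : PP // q.1 = s(0, 1)} := by
    rw [Nat.card_eq_fintype_card]
    decide
  have h3 : Nat.card {e : PP × Fin μ // (KK μ).ends e = s(0, 1)}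
      = Nat.card {q : PP // q.1 = s(0, 1)} * μ := h1
  rw [h3]
  calc μ = 1 * μ := (Nat.one_mul μ).symm
    _ ≤ _ := Nat.mul_le_mul_right _ h2

/-- sum of the ends -/
def sm (p : Sym2 (Fin 5)) : Fin 5 := Sym2.lift ⟨fun a b => a + b, fun a b => add_comm a b⟩ p

theorem chromIndex_eq : (KK μ).chromIndex = 5 * μ := by
  apply le_antisymm
  · refine (KK μ).chromIndex_le (c := fun e => finProdFinEquiv (sm e.1.1, e.2)) ?_
    intro e f hef v hve hvf hh
    have h1 := finProdFinEquiv.injective hh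
    have h2 : sm e.1.1 = sm f.1.1 := congrArg Prod.fst h1
    have h3' := congrArg Prod.snd h1
    have h3 : e.2 = f.2 := h3'
    obtain ⟨a, ha⟩ := Sym2.mem_iff_exists.1 hve
    obtain ⟨b, hb⟩ := Sym2.mem_iff_exists.1 hvf
    rw [ends_eq] at ha hb
    rw [ha, hb] at h2
    have h4 : v + a = v + b := h2
    have h5 : a = b := add_left_cancel h4
    apply hef
    refine Prod.ext (Subtype.ext ?_) h3
    rw [ha, hb, h5]
  · apply Multigraph.le_chromIndex
    intro N c hc
    have h1 := Multigraph.card_le_of_coloured (G := KK μ) (T := Finset.univ) (c := c)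
      (X := Finset.univ) (m := 2) (by decide) (fun _ _ _ _ => Finset.mem_univ _)
      (fun e _ f _ hef v hve hvf => hc e f hef v hve hvf)
    have h2 : Fintype.card PP = 10 := by decide
    rw [Finset.card_univ, Fintype.card_prod, h2, Fintype.card_fin, Fintype.card_fin] at h1
    omega

theorem ring_small {F : Set (PP × Fin μ)} (hF : ((KK μ).sub F).IsRing 3) :
    ((KK μ).sub F).chromIndex ≤ 3 * μ := by
  obtain ⟨f, hf⟩ := hF
  have hall : ∀ e ∈ F, ∃ a b : Fin 3, a ≠ b ∧ (KK μ).ends e = s(f a, f b) := by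
    intro e he
    obtain ⟨u, v, huv⟩ : ∃ u v, (KK μ).ends e = s(u, v) := by
      induction h : (KK μ).ends e with
      | _ u v => exact ⟨u, v, rfl⟩
    have h1 : ((KK μ).sub F).simple.Adj u v := ⟨⟨e, he⟩, huv⟩
    rw [hf, SimpleGraph.map_adj] at h1
    obtain ⟨a, b, hab, rfl, rfl⟩ := h1
    exact ⟨a, b, hab.ne, huv⟩
  choose! a b hab hends using hall
  refine ((KK μ).sub F).chromIndex_le_card.trans ?_
  have h1 : Nat.card F ≤ Nat.card (Fin 3 × Fin μ) := by
    refine Nat.card_le_card_of_injective (fun e : F => (a e + b e, (e : PP × Fin μ).2)) ?_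
    intro e e' hee
    have h2 : a e + b e = a e' + b e' := congrArg Prod.fst hee
    have h3' := congrArg Prod.snd hee
    have h3 : (e : PP × Fin μ).2 = (e' : PP × Fin μ).2 := h3'
    have h4 : ∀ x y x' y' : Fin 3, x ≠ y → x' ≠ y' → x + y = x' + y' →
        (x = x' ∧ y = y') ∨ (x = y' ∧ y = x') := by decide
    have h5 := h4 _ _ _ _ (hab e e.2) (hab e' e'.2) h2
    have h6 : (KK μ).ends (e : PP × Fin μ) = (KK μ).ends (e' : PP × Fin μ) := by
      rw [hends e e.2, hends e' e'.2, Sym2.eq_iff]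
      rcases h5 with ⟨h6, h7⟩ | ⟨h6, h7⟩
      · left; exact ⟨by rw [h6], by rw [h7]⟩
      · right; exact ⟨by rw [h6], by rw [h7]⟩
    exact Subtype.ext (Prod.ext (Subtype.ext h6) h3)
  rwa [Nat.card_eq_fintype_card (α := Fin 3 × Fin μ), Fintype.card_prod, Fintype.card_fin,
    Fintype.card_fin] at h1

theorem example_ok (hμ : 0 < μ) : (KK μ).girth = 3 ∧ (KK μ).maxMult = μ ∧
    (KK μ).AttainsSteffen ∧ ¬ (KK μ).HasRingSubgraph 3 ∧ (KK μ).simple.Connected := by
  refine ⟨girth_eq hμ, maxMult_eq, ?_, ?_, ?_⟩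
  · unfold Multigraph.AttainsSteffen
    rw [chromIndex_eq, maxMult_eq, girth_eq hμ, maxDegree_eq]
    have h1 : ((3 / 2 : ℕ) : ℚ) = 1 := by norm_num
    rw [h1, div_one, Nat.ceil_natCast]
    ring
  · rintro ⟨F, hF, hχ⟩
    have := ring_small hF
    rw [chromIndex_eq] at hχ
    omega
  · rw [simple_eq hμ]
    exact SimpleGraph.connected_top

end K5

end Pool.Agent.Lib.MP_7ce1ef_co
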