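import Mathlib
import Pool.Agent.Lib.MP_7ce1ef_co.Defs
import Pool.Agent.Lib.MP_7ce1ef_co.NonExist
import Pool.Agent.Lib.MP_7ce1ef_co.ExColour
import Pool.Agent.Lib.MP_7ce1ef_co.K5

/-!
# Steffen's girth bound and ring subgraphs: both characterisations
-/

namespace Pool.Agent.Lib.MP_7ce1ef_co

theorem answer (g μ : ℕ) (hodd : Odd g) (hg : 3 ≤ g) (hμ : g ≤ μ) :
    ((∃ (V E : Type) (_ : Finite V) (_ : Finite E) (G : Multigraph V E),
        G.girth = g ∧ G.maxMult = μ ∧ G.AttainsSteffen ∧ ¬ G.HasRingSubgraph g) ↔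
      (g = 3 ∨ ⌈(μ : ℚ) / (((g + 1) / 2 : ℕ) : ℚ)⌉₊ = ⌈(μ : ℚ) / (((g - 1) / 2 : ℕ) : ℚ)⌉₊)) ∧
    ((∃ (V E : Type) (_ : Finite V) (_ : Finite E) (G : Multigraph V E),
        G.simple.Connected ∧
        G.girth = g ∧ G.maxMult = μ ∧ G.AttainsSteffen ∧ ¬ G.HasRingSubgraph g) ↔
      (g = 3 ∨ ⌈((μ - 1 : ℕ) : ℚ) / (((g + 1) / 2 : ℕ) : ℚ)⌉₊
        = ⌈(μ : ℚ) / (((g - 1) / 2 : ℕ) : ℚ)⌉₊)) := by
  obtain ⟨s, rfl⟩ := hodd
  have e1 : (2 * s + 1 + 1) / 2 = s + 1 := by omega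
  have e2 : (2 * s + 1 - 1) / 2 = s := by omega
  rw [e1, e2]
  rcases (by omega : s = 1 ∨ 2 ≤ s) with rfl | hs
  · obtain ⟨h1, h2, h3, h4, h5⟩ := K5.example_ok (μ := μ) (by omega)
    refine ⟨⟨fun _ => Or.inl rfl, fun _ => ⟨_, _, inferInstance, inferInstance, K5.KK μ, h1, h2,
      h3, h4⟩⟩, ⟨fun _ => Or.inl rfl, fun _ => ⟨_, _, inferInstance, inferInstance, K5.KK μ, h5,
      h1, h2, h3, h4⟩⟩⟩
  · obtain ⟨k, hk⟩ : ∃ k, k = ⌈(μ : ℚ) / (s : ℚ)⌉₊ := ⟨_, rfl⟩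
    rw [← hk]
    have hk1 : μ ≤ k * s := (ceil_div_le_iff (by omega)).1 hk.ge
    have hk3 : 3 ≤ k := by
      by_contra hlt
      push Not at hlt
      have : k * s ≤ 2 * s := Nat.mul_le_mul_right _ (by omega)
      omega
    -- reformulation of the two conditions
    have hA : ∀ m : ℕ, m ≤ μ → (⌈(m : ℚ) / ((s + 1 : ℕ) : ℚ)⌉₊ = k ↔ (k - 1) * (s + 1) + 1 ≤ m) := by
      intro m hm
      have hle : ⌈(m : ℚ) / ((s + 1 : ℕ) : ℚ)⌉₊ ≤ k := by
        rw [ceil_div_le_iff (by omega)]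
        have : k * s ≤ k * (s + 1) := Nat.mul_le_mul_left _ (by omega)
        omega
      constructor
      · intro heq
        by_contra hlt
        have h1 : ⌈(m : ℚ) / ((s + 1 : ℕ) : ℚ)⌉₊ ≤ k - 1 := by
          rw [ceil_div_le_iff (by omega)]
          omega
        omega
      · intro hlt
        apply le_antisymm hle
        by_contra hlt'
        have h1 : ⌈(m : ℚ) / ((s + 1 : ℕ) : ℚ)⌉₊ ≤ k - 1 := by omega
        rw [ceil_div_le_iff (by omega)] at h1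
        omega
    have h3 : ¬ (2 * s + 1 = 3) := by omega
    rw [hA μ le_rfl, hA (μ - 1) (Nat.sub_le _ _)]
    obtain ⟨s', rfl⟩ : ∃ s', s = s' + 1 := ⟨s - 1, by omega⟩
    refine ⟨⟨?_, ?_⟩, ⟨?_, ?_⟩⟩
    · rintro ⟨V, E, hV, hE, G, hG1, hG2, hG3, hG4⟩
      exact Or.inr (G.necessary hs hμ hk hG1 hG2 hG3 hG4).1
    · rintro (h4 | h4)
      · exact absurd h4 h3
      · have hB : ¬ Nonempty Empty := not_nonempty_iff.2 inferInstance
        exact ⟨_, _, inferInstance, inferInstance, Ex.GG (2 * s') μ Empty,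
          Ex.example_ok s' μ k hμ hk Empty h4 (fun hh => absurd hh hB)⟩
    · rintro ⟨V, E, hV, hE, G, hG0, hG1, hG2, hG3, hG4⟩
      have := (G.necessary hs hμ hk hG1 hG2 hG3 hG4).2 hG0
      right
      omega
    · rintro (h4 | h4)
      · exact absurd h4 h3
      · have e3 : s' + 1 + 1 = s' + 2 := rfl
        rw [e3] at h4
        exact ⟨_, _, inferInstance, inferInstance, Ex.GG (2 * s') μ Unit,
          Ex.connected (by omega) ⟨()⟩,
          Ex.example_ok s' μ k hμ hk Unit (by omega) (fun _ => by omega)⟩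

end Pool.Agent.Lib.MP_7ce1ef_co
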